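import Pool.Agent.Lib.MP_4b8564_nt.Sg.Defs

open Finset

noncomputable section

namespace Pool.Agent.Lib.MP_4b8564_nt.Sg

namespace ExpandAux

theorem mem_fam {P : Finset ℕ} {Y : ℕ} {S : Finset ℕ} :
    S ∈ fam P Y ↔ S ⊆ P ∧ ∏ p ∈ S, p ≤ Y := by simp [fam]

theorem iphi_nonneg {P : Finset ℕ} (hP : ∀ p ∈ P, 2 ≤ p) {S : Finset ℕ} (h : S ⊆ P) :
    0 ≤ iphi S := prod_nonneg fun p hp => by
  have : (2 : ℝ) ≤ p := by exact_mod_cast hP p (h hp)
  exact div_nonneg zero_le_one (by linarith)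

theorem prod_mono {P : Finset ℕ} (hP : ∀ p ∈ P, 2 ≤ p) {S T : Finset ℕ} (h : S ⊆ T) (hT : T ⊆ P) :
    ∏ p ∈ S, p ≤ ∏ p ∈ T, p :=
  prod_le_prod_of_subset_of_one_le' h fun p hp _ => by have := hP p (hT hp); omega

/-- the coefficient of `gp` in `gp ^ 2` -/
def cc (p : ℕ) : ℝ := -(((p : ℝ) - 2) / ((p : ℝ) - 1))

theorem gp_sq {p : ℕ} (hp : 2 ≤ p) (m : ℕ) : gp p m * gp p m = cc p * gp p m + 1 / ((p : ℝ) - 1) := by
  have : (2 : ℝ) ≤ p := by exact_mod_cast hp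
  have h : (p : ℝ) - 1 ≠ 0 := by linarith
  unfold gp cc
  split_ifs <;> field_simp <;> ring

theorem abs_cc {p : ℕ} (hp : 2 ≤ p) : |cc p| ≤ 1 := by
  have : (2 : ℝ) ≤ p := by exact_mod_cast hp
  rw [cc, abs_neg, abs_of_nonneg (div_nonneg (by linarith) (by linarith)), div_le_one (by linarith)]
  linarith

abbrev Tr := (Finset ℕ × Finset ℕ) × Finset ℕ

/-- the index set of the expansion -/
def XX (P : Finset ℕ) (R : ℕ) : Finset Tr :=
  ((fam P R ×ˢ fam P R) ×ˢ P.powerset).filter fun x => x.2 ⊆ x.1.1 ∩ x.1.2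

def uu (x : Tr) : Finset ℕ := (x.1.1 \ x.1.2 ∪ x.1.2 \ x.1.1) ∪ x.2

def coef (x : Tr) : ℝ := (∏ p ∈ x.2, cc p) * iphi ((x.1.1 ∩ x.1.2) \ x.2)

theorem mem_XX {P : Finset ℕ} {R : ℕ} {x : Tr} :
    x ∈ XX P R ↔ x.1.1 ∈ fam P R ∧ x.1.2 ∈ fam P R ∧ x.2 ⊆ x.1.1 ∩ x.1.2 := by
  simp only [XX, mem_filter, mem_product, mem_powerset]
  exact ⟨fun h => ⟨h.1.1.1, h.1.1.2, h.2⟩, fun h => ⟨⟨⟨h.1, h.2.1⟩,
    (h.2.2.trans inter_subset_left).trans (mem_fam.1 h.1).1⟩, h.2.2⟩⟩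

theorem gS_mul {P : Finset ℕ} (hP : ∀ p ∈ P, 2 ≤ p) {A B : Finset ℕ} (hA : A ⊆ P) (m : ℕ) :
    gS A m * gS B m = ∑ T ∈ (A ∩ B).powerset, coef ((A, B), T) * gS (uu ((A, B), T)) m := by
  have e1 : gS A m = gS (A \ B) m * gS (A ∩ B) m := by
    rw [gS, gS, gS, ← prod_union (disjoint_sdiff_inter A B), sdiff_union_inter]
  have e2 : gS B m = gS (B \ A) m * gS (A ∩ B) m := by
    rw [gS, gS, gS, inter_comm, ← prod_union (disjoint_sdiff_inter B A), sdiff_union_inter]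
  have e3 : gS (A ∩ B) m * gS (A ∩ B) m =
      ∑ T ∈ (A ∩ B).powerset, (∏ p ∈ T, cc p * gp p m) * iphi ((A ∩ B) \ T) := by
    rw [gS, ← prod_mul_distrib,
      prod_congr rfl fun p hp => gp_sq (hP p (hA (mem_inter.1 hp).1)) m, prod_add]
    rfl
  calc gS A m * gS B m = gS (A \ B) m * gS (B \ A) m * (gS (A ∩ B) m * gS (A ∩ B) m) := by
        rw [e1, e2]; ring
    _ = _ := by
        rw [e3, mul_sum]
        refine sum_congr rfl fun T hT => ?_
        have hT' := mem_powerset.1 hT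
        have d1 : Disjoint (A \ B) (B \ A) := disjoint_sdiff_sdiff
        have d2 : Disjoint (A \ B ∪ B \ A) T := by
          rw [disjoint_left]
          intro p hp hpT
          have := hT' hpT
          simp only [mem_union, mem_sdiff, mem_inter] at hp this
          tauto
        simp only [coef, uu, gS, prod_union d2, prod_union d1, prod_mul_distrib]
        ring

theorem beta_sq {P : Finset ℕ} (hP : ∀ p ∈ P, 2 ≤ p) (R m : ℕ) :
    beta P R m ^ 2 = ∑ x ∈ XX P R, coef x * gS (uu x) m := by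
  rw [sq, beta, sum_mul_sum, ← sum_product', XX, sum_filter, sum_product (fam P R ×ˢ fam P R)]
  refine sum_congr rfl fun s hs => ?_
  have h1 := (mem_fam.1 (mem_product.1 hs).1).1
  rw [gS_mul hP h1]
  refine Eq.trans ?_ (sum_filter (fun T => T ⊆ s.1 ∩ s.2)
    (fun T => coef (s, T) * gS (uu (s, T)) m))
  refine sum_congr ?_ fun _ _ => rfl
  ext T
  simp only [mem_powerset, mem_filter]
  exact ⟨fun h => ⟨(h.trans inter_subset_left).trans h1, h⟩, fun h => h.2⟩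

theorem uu_mem {P : Finset ℕ} (hP : ∀ p ∈ P, 2 ≤ p) {R : ℕ} {x : Tr} (hx : x ∈ XX P R) :
    uu x ∈ fam P (R ^ 2) := by
  obtain ⟨h1, h2, h3⟩ := mem_XX.1 hx
  obtain ⟨a1, a2⟩ := mem_fam.1 h1
  obtain ⟨b1, b2⟩ := mem_fam.1 h2
  have hs : uu x ⊆ x.1.1 ∪ x.1.2 \ x.1.1 := fun p hp => by
    have := @h3 p
    simp only [uu, mem_union, mem_sdiff, mem_inter] at hp this ⊢
    tauto
  have hP' : x.1.1 ∪ x.1.2 \ x.1.1 ⊆ P := union_subset a1 (sdiff_subset.trans b1)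
  refine mem_fam.2 ⟨hs.trans hP', (prod_mono hP hs hP').trans ?_⟩
  rw [prod_union disjoint_sdiff, sq]
  exact Nat.mul_le_mul a2 ((prod_mono hP sdiff_subset b1).trans b2)

def EE (P : Finset ℕ) (R : ℕ) (U : Finset ℕ) : ℝ := ∑ x ∈ XX P R with uu x = U, coef x

theorem EE_empty (P : Finset ℕ) (R : ℕ) : EE P R ∅ = GG P R := by
  rw [EE, GG]
  symm
  refine sum_bij (fun S _ => (((S, S), ∅) : Tr)) (fun S hS => ?_) (fun S _ S' _ h => ?_)
    (fun x hx => ?_) fun S _ => ?_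
  · exact mem_filter.2 ⟨mem_XX.2 ⟨hS, hS, empty_subset _⟩, by simp [uu]⟩
  · exact congrArg (fun x : Tr => x.1.1) h
  · obtain ⟨h1, h2⟩ := mem_filter.1 hx
    obtain ⟨⟨A, B⟩, T⟩ := x
    simp only [uu, union_eq_empty, sdiff_eq_empty_iff_subset] at h2
    obtain rfl : A = B := Subset.antisymm h2.1.1 h2.1.2
    obtain rfl := h2.2
    exact ⟨A, (mem_XX.1 h1).1, rfl⟩
  · simp [coef]

theorem abs_EE {P : Finset ℕ} (hP : ∀ p ∈ P, 2 ≤ p) (R : ℕ) (U : Finset ℕ) :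
    |EE P R U| ≤ 4 ^ U.card * GG P R := by
  let φ : Tr → Tr := fun x => ((x.1.1 \ x.1.2, x.1.2 \ x.1.1), (x.1.1 ∩ x.1.2) \ x.2)
  have hinj : Set.InjOn φ ((XX P R).filter fun x => uu x = U) := by
    rintro ⟨⟨A, B⟩, T⟩ hx ⟨⟨A', B'⟩, T'⟩ hy h
    obtain ⟨hx1, hx2⟩ := mem_filter.1 (mem_coe.1 hx)
    obtain ⟨hy1, hy2⟩ := mem_filter.1 (mem_coe.1 hy)
    have t1 := (mem_XX.1 hx1).2.2
    have t2 := (mem_XX.1 hy1).2.2
    have hu := hx2.trans hy2.symm
    simp only [φ, Prod.mk.injEq] at h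
    obtain ⟨⟨k1, k2⟩, k3⟩ := h
    have key : ∀ p, (p ∈ A ↔ p ∈ A') ∧ (p ∈ B ↔ p ∈ B') ∧ (p ∈ T ↔ p ∈ T') := fun p => by
      have q1 := Finset.ext_iff.1 k1 p
      have q2 := Finset.ext_iff.1 k2 p
      have q3 := Finset.ext_iff.1 k3 p
      have q4 := Finset.ext_iff.1 hu p
      have q5 := @t1 p
      have q6 := @t2 p
      simp only [uu, mem_union, mem_sdiff, mem_inter] at q1 q2 q3 q4 q5 q6
      by_cases a1 : p ∈ A <;> by_cases a2 : p ∈ A' <;> by_cases b1 : p ∈ B <;>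
        by_cases b2 : p ∈ B' <;> by_cases c1 : p ∈ T <;> by_cases c2 : p ∈ T' <;> simp_all
    obtain rfl : A = A' := Finset.ext fun p => (key p).1
    obtain rfl : B = B' := Finset.ext fun p => (key p).2.1
    obtain rfl : T = T' := Finset.ext fun p => (key p).2.2
    rfl
  calc |EE P R U| ≤ ∑ x ∈ XX P R with uu x = U, |coef x| := abs_sum_le_sum_abs _ _
    _ ≤ ∑ x ∈ XX P R with uu x = U, iphi (φ x).2 := by
        refine sum_le_sum fun x hx => ?_
        obtain ⟨h1, -, h3⟩ := mem_XX.1 (mem_filter.1 hx).1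
        have a1 := (mem_fam.1 h1).1
        have h0 : 0 ≤ iphi ((x.1.1 ∩ x.1.2) \ x.2) :=
          iphi_nonneg hP ((sdiff_subset.trans inter_subset_left).trans a1)
        rw [coef, abs_mul, abs_of_nonneg h0, abs_prod]
        exact mul_le_of_le_one_left h0 (prod_le_one (fun _ _ => abs_nonneg _) fun p hp =>
          abs_cc (hP p (a1 (inter_subset_left (h3 hp)))))
    _ = ∑ y ∈ ((XX P R).filter fun x => uu x = U).image φ, iphi y.2 :=
        (sum_image (f := fun y : Tr => iphi y.2) hinj).symm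
    _ ≤ ∑ y ∈ (U.powerset ×ˢ U.powerset) ×ˢ fam P R, iphi y.2 := by
        refine sum_le_sum_of_subset_of_nonneg (fun y hy => ?_) fun y hy _ =>
          iphi_nonneg hP (mem_fam.1 (mem_product.1 hy).2).1
        obtain ⟨x, hx, rfl⟩ := mem_image.1 hy
        obtain ⟨hx1, rfl⟩ := mem_filter.1 hx
        obtain ⟨a1, a2⟩ := mem_fam.1 (mem_XX.1 hx1).1
        have hs : (x.1.1 ∩ x.1.2) \ x.2 ⊆ x.1.1 := sdiff_subset.trans inter_subset_left
        refine mem_product.2 ⟨mem_product.2 ⟨mem_powerset.2 ?_, mem_powerset.2 ?_⟩,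
          mem_fam.2 ⟨hs.trans a1, (prod_mono hP hs a1).trans a2⟩⟩
        · exact subset_union_left.trans subset_union_left
        · exact subset_union_right.trans subset_union_left
    _ = 4 ^ U.card * GG P R := by
        rw [sum_product, GG]
        simp only [sum_const, card_product, card_powerset, nsmul_eq_mul]
        push_cast
        rw [← mul_pow]
        norm_num

end ExpandAux

open ExpandAux

theorem one_le_GG (P : Finset ℕ) (hP : ∀ p ∈ P, 2 ≤ p) (R : ℕ) (hR : 1 ≤ R) : 1 ≤ GG P R := by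
  have h : (∅ : Finset ℕ) ∈ fam P R := mem_fam.2 ⟨empty_subset _, by simpa using hR⟩
  have := single_le_sum (f := iphi) (fun S hS => iphi_nonneg hP (mem_fam.1 hS).1) h
  simpa [iphi, GG] using this

theorem beta_eq_GG (P : Finset ℕ) (R m : ℕ) (h : ∀ p ∈ P, ¬ p ∣ m) : beta P R m = GG P R :=
  sum_congr rfl fun S hS => prod_congr rfl fun p hp => by
    rw [gp, if_neg (h p ((mem_fam.1 hS).1 hp))]

theorem expand (P : Finset ℕ) (hP : ∀ p ∈ P, 2 ≤ p) (R : ℕ) (hR : 1 ≤ R) :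
    ∃ e : Finset ℕ → ℝ, e ∅ = 1 ∧ (∀ U, |e U| ≤ 4 ^ U.card) ∧
      ∀ m, beta P R m ^ 2 / GG P R = ∑ U ∈ fam P (R ^ 2), e U * gS U m := by
  have hG : 0 < GG P R := lt_of_lt_of_le zero_lt_one (one_le_GG P hP R hR)
  refine ⟨fun U => EE P R U / GG P R, by simp only [EE_empty, div_self hG.ne'], fun U => ?_, fun m => ?_⟩
  · rw [abs_div, abs_of_pos hG, div_le_iff₀ hG]
    exact abs_EE hP R U
  · rw [beta_sq hP, ← sum_fiberwise_of_maps_to (g := uu) fun x hx => uu_mem hP hx, sum_div]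
    refine sum_congr rfl fun U _ => ?_
    rw [div_mul_eq_mul_div, EE, sum_mul]
    congr 1
    exact sum_congr rfl fun x hx => by rw [(mem_filter.1 hx).2]

end Pool.Agent.Lib.MP_4b8564_nt.Sg
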