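import Pool.Agent.Lib.MP_4b8564_nt.Sg.Defs

open Finset

noncomputable section

namespace Pool.Agent.Lib.MP_4b8564_nt.Sg

namespace GGgeAux

/-- the completely multiplicative function `1 / n` -/
def recip : ℕ →* ℝ where
  toFun n := (n : ℝ)⁻¹
  map_one' := by simp
  map_mul' m n := by rw [Nat.cast_mul, mul_inv]

lemma sum_factored_le (S : Finset ℕ) (hS : ∀ p ∈ S, p.Prime) (A : Finset ℕ)
    (hA : ∀ n ∈ A, n ∈ Nat.factoredNumbers S) :
    ∑ n ∈ A, (n : ℝ)⁻¹ ≤ ∏ p ∈ S, (1 - (p : ℝ)⁻¹)⁻¹ := by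
  have h := (EulerProduct.summable_and_hasSum_factoredNumbers_prod_filter_prime_geometric
    (f := recip) (fun {p} hp => by
      show ‖(p : ℝ)⁻¹‖ < 1
      rw [norm_inv, Real.norm_natCast]
      exact inv_lt_one_of_one_lt₀ (by exact_mod_cast hp.one_lt)) S).2
  rw [filter_true_of_mem hS] at h
  have h2 := sum_le_hasSum (A.subtype (· ∈ Nat.factoredNumbers S))
    (fun m _ => show 0 ≤ recip m from by show (0 : ℝ) ≤ ((m : ℕ) : ℝ)⁻¹; positivity) h
  rw [Finset.sum_subtype_of_mem (fun n : ℕ => recip n) hA] at h2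
  exact h2

lemma fibre_le (S : Finset ℕ) (hS : ∀ p ∈ S, p.Prime) (A : Finset ℕ)
    (hA : ∀ n ∈ A, n ≠ 0 ∧ n.primeFactors = S) : ∑ n ∈ A, (n : ℝ)⁻¹ ≤ iphi S := by
  set q := ∏ p ∈ S, p with hq
  have hq0 : 0 < q := Finset.prod_pos fun p hp => (hS p hp).pos
  have hdvd : ∀ n ∈ A, q ∣ n := fun n hn => by
    rw [hq, ← (hA n hn).2]; exact Nat.prod_primeFactors_dvd n
  have hinj : Set.InjOn (fun n => n / q) A := by
    intro a ha b hb h
    simp only at h
    rw [← Nat.div_mul_cancel (hdvd a ha), ← Nat.div_mul_cancel (hdvd b hb), h]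
  have h1 := sum_factored_le S hS (A.image fun n => n / q) (by
    intro m hm
    obtain ⟨n, hn, rfl⟩ := Finset.mem_image.mp hm
    exact Nat.mem_factoredNumbers_of_dvd
      (Nat.mem_factoredNumbers_of_primeFactors_subset (hA n hn).1 (hA n hn).2.le)
      (Nat.div_dvd_of_dvd (hdvd n hn)))
  rw [Finset.sum_image hinj] at h1
  have h2 : ∑ n ∈ A, (n : ℝ)⁻¹ = (q : ℝ)⁻¹ * ∑ n ∈ A, ((n / q : ℕ) : ℝ)⁻¹ := by
    rw [Finset.mul_sum]
    refine Finset.sum_congr rfl fun n hn => ?_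
    rw [← mul_inv, ← Nat.cast_mul, Nat.mul_div_cancel' (hdvd n hn)]
  rw [h2]
  refine (mul_le_mul_of_nonneg_left h1 (by positivity)).trans (le_of_eq ?_)
  rw [hq, Nat.cast_prod, ← Finset.prod_inv_distrib, ← Finset.prod_mul_distrib, iphi]
  refine Finset.prod_congr rfl fun p hp => ?_
  have : (p : ℝ) ≠ 0 := by exact_mod_cast (hS p hp).ne_zero
  rw [← mul_inv, one_div]
  congr 1
  field_simp

lemma iphi_nonneg (S : Finset ℕ) (hS : ∀ p ∈ S, p.Prime) : 0 ≤ iphi S := by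
  refine Finset.prod_nonneg fun p hp => ?_
  have : (1 : ℝ) ≤ p := by exact_mod_cast (hS p hp).one_lt.le
  exact div_nonneg zero_le_one (by linarith)

lemma log_le (R : ℕ) (hR : 1 ≤ R) : Real.log R ≤ GG (PP 0 R) R := by
  have h1 : Real.log R ≤ ∑ n ∈ Icc 1 R, (n : ℝ)⁻¹ := by
    have h := log_add_one_le_harmonic R
    simp only [harmonic_eq_sum_Icc, Rat.cast_sum, Rat.cast_inv, Rat.cast_natCast] at h
    refine le_trans (Real.log_le_log (by exact_mod_cast hR) ?_) h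
    exact_mod_cast Nat.le_succ R
  refine h1.trans ?_
  have hmaps : ∀ n ∈ Icc 1 R, n.primeFactors ∈ fam (PP 0 R) R := by
    intro n hn
    obtain ⟨h2, h3⟩ := Finset.mem_Icc.mp hn
    refine Finset.mem_filter.mpr ⟨Finset.mem_powerset.mpr fun p hp => ?_, ?_⟩
    · have hp' := Nat.prime_of_mem_primeFactors hp
      exact Finset.mem_filter.mpr ⟨Finset.mem_Ioc.mpr ⟨hp'.pos,
        (Nat.le_of_mem_primeFactors hp).trans h3⟩, hp'⟩
    · exact (Nat.le_of_dvd h2 (Nat.prod_primeFactors_dvd n)).trans h3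
  rw [← Finset.sum_fiberwise_of_maps_to hmaps, GG]
  refine Finset.sum_le_sum fun S hS => fibre_le S (fun p hp => ?_) _ fun n hn => ?_
  · exact (Finset.mem_filter.mp (Finset.mem_powerset.mp (Finset.mem_filter.mp hS).1 hp)).2
  · obtain ⟨h2, h3⟩ := Finset.mem_filter.mp hn
    exact ⟨by have := (Finset.mem_Icc.mp h2).1; omega, h3⟩

lemma split_le (w R : ℕ) :
    GG (PP 0 R) R ≤ (∑ S ∈ (Nat.primesLE w).powerset, iphi S) * GG (PP w R) R := by
  rw [GG, GG, Finset.sum_mul_sum, ← Finset.sum_product']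
  have hinj : Set.InjOn (fun S : Finset ℕ => (S.filter (· ≤ w), S.filter fun p => ¬ p ≤ w))
      (fam (PP 0 R) R) := by
    intro S _ T _ h
    simp only [Prod.mk.injEq] at h
    rw [← Finset.filter_union_filter_not_eq (· ≤ w) S, ← Finset.filter_union_filter_not_eq (· ≤ w) T,
      h.1, h.2]
  have h1 : ∑ S ∈ fam (PP 0 R) R, iphi S = ∑ x ∈ (fam (PP 0 R) R).image
      (fun S : Finset ℕ => (S.filter (· ≤ w), S.filter fun p => ¬ p ≤ w)), iphi x.1 * iphi x.2 := by
    rw [Finset.sum_image hinj]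
    exact Finset.sum_congr rfl fun S _ => (Finset.prod_filter_mul_prod_filter_not S _ _).symm
  rw [h1]
  refine Finset.sum_le_sum_of_subset_of_nonneg (fun x hx => ?_) fun x hx _ => ?_
  · obtain ⟨S, hS, rfl⟩ := Finset.mem_image.mp hx
    obtain ⟨h2, h3⟩ := Finset.mem_filter.mp hS
    have h4 : ∀ p ∈ S, p ≤ R ∧ p.Prime := fun p hp => by
      have := Finset.mem_filter.mp (Finset.mem_powerset.mp h2 hp)
      exact ⟨(Finset.mem_Ioc.mp this.1).2, this.2⟩
    refine Finset.mem_product.mpr ⟨Finset.mem_powerset.mpr fun p hp => ?_,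
      Finset.mem_filter.mpr ⟨Finset.mem_powerset.mpr fun p hp => ?_, ?_⟩⟩
    · obtain ⟨a, b⟩ := Finset.mem_filter.mp hp
      exact Nat.mem_primesLE.mpr ⟨b, (h4 p a).2⟩
    · obtain ⟨a, b⟩ := Finset.mem_filter.mp hp
      exact Finset.mem_filter.mpr ⟨Finset.mem_Ioc.mpr ⟨not_le.mp b, (h4 p a).1⟩, (h4 p a).2⟩
    · exact (Finset.prod_le_prod_of_subset_of_one_le' (Finset.filter_subset _ _)
        fun p hp _ => (h4 p hp).2.one_lt.le).trans h3
  · obtain ⟨a, b⟩ := Finset.mem_product.mp hx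
    refine mul_nonneg (iphi_nonneg _ fun p hp => ?_) (iphi_nonneg _ fun p hp => ?_)
    · exact (Nat.mem_primesLE.mp (Finset.mem_powerset.mp a hp)).2
    · exact (Finset.mem_filter.mp (Finset.mem_powerset.mp (Finset.mem_filter.mp b).1 hp)).2

lemma small_primes (w : ℕ) : (Nat.totient (primorial w) : ℝ) / primorial w *
    ∑ S ∈ (Nat.primesLE w).powerset, iphi S = 1 := by
  have h1 : ∑ S ∈ (Nat.primesLE w).powerset, iphi S
      = ∏ p ∈ Nat.primesLE w, (1 + 1 / ((p : ℝ) - 1)) := by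
    rw [Finset.prod_one_add]; rfl
  have h2 := Nat.totient_eq_mul_prod_factors (primorial w)
  have h3 : (Nat.totient (primorial w) : ℝ)
      = primorial w * ∏ p ∈ Nat.primesLE w, (1 - (p : ℝ)⁻¹) := by
    rw [primeFactors_primorial] at h2
    have := congrArg (Rat.cast : ℚ → ℝ) h2
    push_cast at this
    exact this
  have h4 : (primorial w : ℝ) ≠ 0 := by exact_mod_cast primorial_ne_zero w
  rw [h1, h3, mul_div_cancel_left₀ _ h4, ← Finset.prod_mul_distrib]
  refine Finset.prod_eq_one fun p hp => ?_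
  have h5 : (1 : ℝ) < p := by exact_mod_cast (Nat.mem_primesLE.mp hp).2.one_lt
  have h6 : (p : ℝ) - 1 ≠ 0 := by linarith
  have h7 : (p : ℝ) ≠ 0 := by linarith
  field_simp
  ring

end GGgeAux

theorem GG_ge (w R : ℕ) (hR : 1 ≤ R) :
    (Nat.totient (primorial w) : ℝ) / primorial w * Real.log R ≤ GG (PP w R) R := by
  have h1 := (GGgeAux.log_le R hR).trans (GGgeAux.split_le w R)
  refine (mul_le_mul_of_nonneg_left h1 (by positivity)).trans (le_of_eq ?_)
  rw [← mul_assoc, GGgeAux.small_primes, one_mul]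

end Pool.Agent.Lib.MP_4b8564_nt.Sg
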