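import Pool.Agent.Lib.MP_4b8564_nt.Sg.Defs

open Finset

noncomputable section

namespace Pool.Agent.Lib.MP_4b8564_nt.Sg

namespace DensAux

/-- the analytic inequality -/
theorem numeric (W N R X P : ℝ) (hW : 1 ≤ W) (hN : (W + 5) ^ 2 + 120 ^ 4 ≤ N) (hR0 : 0 ≤ R)
    (hR : R ^ 2 ≤ N) (hX1 : W * N / 2 - 1 ≤ X) (hX2 : X + 1 ≤ W * N) (hP0 : 0 ≤ P)
    (hP : (X * Real.log 2 - Real.log (X + 1)) / Real.log X ≤ P) :
    W * N ≤ 10 * (P - (R + W + 4)) * Real.log N := by
  have hN0 : (120 : ℝ) ^ 4 ≤ N := by nlinarith [sq_nonneg (W + 5)]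
  have hNpos : 0 < N := by linarith [show (0 : ℝ) < 120 ^ 4 by norm_num]
  have hW5 : (W + 5) ^ 2 ≤ N := by linarith [show (0 : ℝ) < 120 ^ 4 by norm_num]
  have hWN : W ≤ N := by nlinarith
  have hNN : N ≤ W * N := by nlinarith
  have hX : 2 ≤ X := by linarith [show (6 : ℝ) ≤ 120 ^ 4 by norm_num]
  have hlX : 0 < Real.log X := Real.log_pos (by linarith)
  have hlN : 0 < Real.log N := Real.log_pos (by linarith [show (2 : ℝ) ≤ 120 ^ 4 by norm_num])
  have h2 : Real.log (X + 1) ≤ 2 * Real.log N := by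
    have : X + 1 ≤ N ^ 2 := by nlinarith
    calc Real.log (X + 1) ≤ Real.log (N ^ 2) := Real.log_le_log (by linarith) this
      _ = 2 * Real.log N := by rw [Real.log_pow]; norm_num
  have h3 : Real.log X ≤ 2 * Real.log N :=
    le_trans (Real.log_le_log (by linarith) (by linarith)) h2
  have h4 : X * Real.log 2 - Real.log (X + 1) ≤ P * Real.log X := (div_le_iff₀ hlX).1 hP
  have h5 : P * Real.log X ≤ P * (2 * Real.log N) := mul_le_mul_of_nonneg_left h3 hP0
  have hl2 : (0.69 : ℝ) ≤ Real.log 2 := by linarith [Real.log_two_gt_d9]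
  have h6 : X * 0.69 ≤ X * Real.log 2 := mul_le_mul_of_nonneg_left hl2 (by linarith)
  set t := Real.sqrt N with ht
  set s := Real.sqrt t with hs
  have ht0 : 0 ≤ t := Real.sqrt_nonneg _
  have hs0 : 0 ≤ s := Real.sqrt_nonneg _
  have htt : t ^ 2 = N := Real.sq_sqrt hNpos.le
  have hss : s ^ 2 = t := Real.sq_sqrt ht0
  have hs4 : s ^ 4 = N := by rw [← htt, ← hss]; ring
  have hs120 : 120 ≤ s := by
    by_contra h
    have h' : s < 120 := not_le.1 h
    have : s ^ 4 < 120 ^ 4 := pow_lt_pow_left₀ h' hs0 (by norm_num)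
    linarith
  have hlog : Real.log N ≤ 4 * s := by
    rw [← hs4, Real.log_pow]
    have := Real.log_le_sub_one_of_pos (show 0 < s by linarith)
    push_cast
    linarith
  have hRt : R ≤ t := by
    rw [ht]; exact Real.le_sqrt_of_sq_le hR
  have hWt : W + 5 ≤ t := by
    rw [ht]; exact Real.le_sqrt_of_sq_le hW5
  have h7 : (R + W + 5) * Real.log N ≤ (2 * t) * (4 * s) :=
    mul_le_mul (by linarith) hlog hlN.le (by linarith)
  have h8 : (2 * t) * (4 * s) = 8 * s ^ 3 := by rw [← hss]; ring
  have h9 : 120 * s ^ 3 ≤ N := by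
    rw [← hs4]
    have : 0 ≤ s ^ 3 := by positivity
    nlinarith
  have h10 : 10 * (P - (R + W + 4)) * Real.log N =
      5 * (P * (2 * Real.log N)) - 10 * ((R + W + 5) * Real.log N) + 10 * Real.log N := by ring
  rw [h10]
  linarith [show (1000 : ℝ) ≤ 120 ^ 4 by norm_num]

end DensAux

/-- a residue class with many primes -/
theorem dens (W : ℕ) (hW : 1 ≤ W) : ∃ N₀ : ℕ, ∀ N R : ℕ, N₀ ≤ N → R ^ 2 ≤ N →
    ∃ b < W, ∃ A : Finset ℕ, (∀ n ∈ A, 2 * n < N ∧ (W * n + b).Prime ∧ R < W * n + b ∧
      3 < W * n + b) ∧ (W : ℝ) * N ≤ 10 * Nat.totient W * A.card * Real.log N := by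
  classical
  refine ⟨(W + 5) ^ 2 + 120 ^ 4, fun N R hN hR => ?_⟩
  set M := (N + 1) / 2 with hM
  have hN1 : 2 ≤ N := le_trans (by norm_num) (le_trans (Nat.le_add_left _ _) hN)
  have hM1 : 1 ≤ M := by omega
  have hMN : M ≤ N := by omega
  have hM2 : N ≤ 2 * M := by omega
  have hWM : 1 ≤ W * M := Nat.mul_pos hW hM1
  set X := W * M - 1 with hX
  have hX1 : X + 1 = W * M := by omega
  set S := (range (W * M)).filter (fun m => m.Prime ∧ R + W + 3 < m) with hS
  set T := (range W).filter (fun b => Nat.Coprime W b) with hT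
  have hTc : T.card = Nat.totient W := by rw [hT, Nat.totient_eq_card_coprime]
  have hcount : Nat.primeCounting X ≤ S.card + (R + W + 4) := by
    have h1 : Nat.primeCounting X = ((range (W * M)).filter Nat.Prime).card := by
      rw [Nat.primeCounting, hX1, Nat.primeCounting', Nat.count_eq_card_filter_range]
    have h2 : (range (W * M)).filter Nat.Prime ⊆ S ∪ range (R + W + 4) := by
      intro m hm
      rw [mem_filter] at hm
      rw [mem_union, hS, mem_filter, mem_range (n := R + W + 4)]
      by_cases h : R + W + 3 < m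
      · exact Or.inl ⟨hm.1, hm.2, h⟩
      · exact Or.inr (by omega)
    calc Nat.primeCounting X = _ := h1
      _ ≤ (S ∪ range (R + W + 4)).card := card_le_card h2
      _ ≤ S.card + (range (R + W + 4)).card := card_union_le _ _
      _ = _ := by rw [card_range]
  have hmaps : ∀ m ∈ S, m % W ∈ T := by
    intro m hm
    rw [hS, mem_filter] at hm
    rw [hT, mem_filter, mem_range]
    refine ⟨Nat.mod_lt _ hW, ?_⟩
    have hc : Nat.Coprime m W :=
      (Nat.Prime.coprime_iff_not_dvd hm.2.1).2 fun h => by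
        have := Nat.le_of_dvd hW h
        omega
    have : Nat.gcd (m % W) W = 1 := by rw [← Nat.gcd_rec, Nat.gcd_comm]; exact hc
    exact Nat.Coprime.symm this
  have hTne : T.Nonempty := by
    rw [← card_pos, hTc]; exact Nat.totient_pos.2 hW
  obtain ⟨b, hbT, hbmax⟩ := exists_max_image T (fun b => (S.filter fun m => m % W = b).card) hTne
  have hSle : S.card ≤ Nat.totient W * (S.filter fun m => m % W = b).card := by
    rw [card_eq_sum_card_fiberwise (f := fun m => m % W) (t := T) (fun m hm => hmaps m hm), ← hTc]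
    calc _ ≤ ∑ _c ∈ T, (S.filter fun m => m % W = b).card := sum_le_sum fun c hc => hbmax c hc
      _ = _ := by rw [sum_const, smul_eq_mul]
  have hbW : b < W := by
    rw [hT, mem_filter, mem_range] at hbT; exact hbT.1
  have hrec : ∀ m ∈ S.filter (fun m => m % W = b), W * (m / W) + b = m := by
    intro m hm
    rw [mem_filter] at hm
    rw [← hm.2]; exact Nat.div_add_mod m W
  refine ⟨b, hbW, (S.filter fun m => m % W = b).image (fun m => m / W), ?_, ?_⟩
  · intro n hn
    obtain ⟨m, hm, rfl⟩ := mem_image.1 hn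
    rw [hrec m hm]
    have hm' := (mem_filter.1 hm).1
    rw [hS, mem_filter, mem_range] at hm'
    have hlt : m / W < M := Nat.div_lt_of_lt_mul hm'.1
    exact ⟨by omega, hm'.2.1, by omega, by omega⟩
  · have hinj : ((S.filter fun m => m % W = b).image (fun m => m / W)).card =
        (S.filter fun m => m % W = b).card := by
      apply card_image_of_injOn
      intro m hm m' hm' h
      have h' : m / W = m' / W := h
      rw [← hrec m hm, ← hrec m' hm', h']
    rw [hinj]
    have hXr : (X : ℝ) + 1 = W * M := by exact_mod_cast hX1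
    have hW' : (1 : ℝ) ≤ W := by exact_mod_cast hW
    have hMN' : (M : ℝ) ≤ N := by exact_mod_cast hMN
    have hM2' : (N : ℝ) ≤ 2 * M := by exact_mod_cast hM2
    have key := DensAux.numeric W N R X (Nat.primeCounting X) hW' (by exact_mod_cast hN)
      (Nat.cast_nonneg _) (by exact_mod_cast hR) (by nlinarith) (by nlinarith) (Nat.cast_nonneg _)
      (Chebyshev.pi_ge X)
    have hlN : 0 ≤ Real.log N := Real.log_natCast_nonneg N
    have h1 : (Nat.primeCounting X : ℝ) - (R + W + 4) ≤
        Nat.totient W * ((S.filter fun m => m % W = b).card : ℝ) := by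
      have a1 : (Nat.primeCounting X : ℝ) ≤ S.card + (R + W + 4) := by exact_mod_cast hcount
      have a2 : (S.card : ℝ) ≤ Nat.totient W * ((S.filter fun m => m % W = b).card : ℝ) := by
        exact_mod_cast hSle
      linarith
    calc (W : ℝ) * N ≤ _ := key
      _ ≤ 10 * (Nat.totient W * ((S.filter fun m => m % W = b).card : ℝ)) * Real.log N :=
        mul_le_mul_of_nonneg_right (by linarith) hlN
      _ = _ := by ring

end Pool.Agent.Lib.MP_4b8564_nt.Sg
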