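import Pool.Agent.Lib.MP_4b8564_nt.Sg.Defs

open Finset

noncomputable section

namespace Pool.Agent.Lib.MP_4b8564_nt.Sg

namespace BohrAux

theorem chr {N : ℕ} [NeZero N] (x : ZMod N) :
    (ZMod.stdAddChar x : ℂ) =
      Complex.exp (((2 * Real.pi * (x.val : ℝ) / N : ℝ) : ℂ) * Complex.I) := by
  have h := ZMod.stdAddChar_coe (N := N) (x.val : ℤ)
  have hx : ((x.val : ℤ) : ZMod N) = x := by simp
  rw [hx] at h
  rw [h]
  congr 1
  push_cast
  ring

theorem one_sub_abs_le_cos (t : ℝ) : 1 - |t| ≤ Real.cos t := by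
  by_cases h : |t| ≤ 2
  · have h1 := Real.one_sub_sq_div_two_le_cos (x := t)
    have h2 : t ^ 2 = |t| ^ 2 := (sq_abs t).symm
    have h3 := abs_nonneg t
    nlinarith
  · have := Real.neg_one_le_cos t
    push Not at h
    linarith

theorem re_mul_conj (a b : ℝ) :
    (Complex.exp ((a : ℂ) * Complex.I) *
      (starRingEnd ℂ) (Complex.exp ((b : ℂ) * Complex.I))).re = Real.cos (a - b) := by
  rw [Complex.mul_re, Complex.conj_re, Complex.conj_im, Complex.exp_ofReal_mul_I_re,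
    Complex.exp_ofReal_mul_I_re, Complex.exp_ofReal_mul_I_im, Complex.exp_ofReal_mul_I_im,
    Real.cos_sub]
  ring

theorem norm_sq_sum {ι : Type*} (B : Finset ι) (θ : ι → ℝ) :
    ‖∑ u ∈ B, Complex.exp ((θ u : ℂ) * Complex.I)‖ ^ 2 =
      ∑ u ∈ B, ∑ v ∈ B, Real.cos (θ u - θ v) := by
  have h : ∀ z : ℂ, ‖z‖ ^ 2 = (z * (starRingEnd ℂ) z).re := by
    intro z
    rw [Complex.mul_conj, Complex.ofReal_re, Complex.normSq_eq_norm_sq]
  rw [h, map_sum, Finset.sum_mul_sum, Complex.re_sum]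
  refine Finset.sum_congr rfl fun u _ => ?_
  rw [Complex.re_sum]
  exact Finset.sum_congr rfl fun v _ => re_mul_conj _ _

theorem close {N K a b : ℕ} (hN : 0 < N) (hK : 1 ≤ K) (h : K * a / N = K * b / N) :
    |(a : ℝ) / N - (b : ℝ) / N| ≤ 1 / (K : ℝ) := by
  have ha := Nat.div_add_mod (K * a) N
  have hb := Nat.div_add_mod (K * b) N
  have ha' := Nat.mod_lt (K * a) hN
  have hb' := Nat.mod_lt (K * b) hN
  rw [h] at ha
  have h1 : K * a ≤ K * b + N := by omega
  have h2 : K * b ≤ K * a + N := by omega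
  have h1' : (K : ℝ) * a ≤ K * b + N := by exact_mod_cast h1
  have h2' : (K : ℝ) * b ≤ K * a + N := by exact_mod_cast h2
  have hN' : (0 : ℝ) < N := by exact_mod_cast hN
  have hK' : (0 : ℝ) < K := by exact_mod_cast hK
  rw [← sub_div, abs_div, abs_of_pos hN', div_le_div_iff₀ hN' hK', one_mul]
  rcases abs_cases ((a : ℝ) - b) with hh | hh <;> rw [hh.1] <;> nlinarith

theorem big_fiber {α β : Type*} [Fintype α] [Fintype β] [DecidableEq β] [Nonempty α]
    (c : α → β) : ∃ y : β, (univ.filter fun x => c x = y).Nonempty ∧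
      Fintype.card α ≤ Fintype.card β * (univ.filter fun x => c x = y).card := by
  obtain ⟨x0⟩ := ‹Nonempty α›
  obtain ⟨y, -, hy⟩ := Finset.exists_max_image (univ : Finset β)
    (fun y => (univ.filter fun x => c x = y).card) ⟨c x0, mem_univ _⟩
  refine ⟨y, ?_, ?_⟩
  · rw [← Finset.card_pos]
    refine lt_of_lt_of_le ?_ (hy (c x0) (mem_univ _))
    exact Finset.card_pos.mpr ⟨x0, by simp⟩
  · have h := Finset.card_eq_sum_card_fiberwise (s := (univ : Finset α)) (t := (univ : Finset β))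
      (f := c) (fun x _ => mem_coe.mpr (mem_univ _))
    rw [← Finset.card_univ, h, ← Finset.card_univ, ← smul_eq_mul]
    exact Finset.sum_le_card_nsmul _ _ _ hy

end BohrAux

theorem bohr {N : ℕ} [NeZero N] (S : Finset (ZMod N)) (K : ℕ) (hK : 1 ≤ K) :
    ∃ B : Finset (ZMod N), B.Nonempty ∧ (N : ℝ) / B.card ≤ (K : ℝ) ^ S.card ∧
      ∀ r ∈ S, 1 - 7 / (K : ℝ) ≤ mu B r := by
  classical
  have hN : 0 < N := Nat.pos_of_ne_zero (NeZero.ne N)
  have hlt : ∀ z : ZMod N, K * z.val / N < K := by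
    intro z
    rw [Nat.div_lt_iff_lt_mul hN]
    exact Nat.mul_lt_mul_of_pos_left (ZMod.val_lt z) hK
  let c : ZMod N → (S → Fin K) := fun x r => ⟨K * ((r : ZMod N) * x).val / N, hlt _⟩
  obtain ⟨y, hne, hcard⟩ := BohrAux.big_fiber c
  set B : Finset (ZMod N) := univ.filter fun x => c x = y with hB
  have hBpos : (0 : ℝ) < B.card := by exact_mod_cast Finset.card_pos.mpr hne
  have hK' : (0 : ℝ) < K := by exact_mod_cast hK
  refine ⟨B, hne, ?_, ?_⟩
  · rw [ZMod.card, Fintype.card_fun, Fintype.card_fin, Fintype.card_coe] at hcard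
    rw [div_le_iff₀ hBpos]
    exact_mod_cast hcard
  · intro r hr
    unfold mu
    rw [le_div_iff₀ (by positivity)]
    simp only [BohrAux.chr]
    rw [BohrAux.norm_sq_sum B (fun u => 2 * Real.pi * ((r * u).val : ℝ) / N)]
    have hterm : ∀ u ∈ B, ∀ v ∈ B, 1 - 7 / (K : ℝ) ≤
        Real.cos (2 * Real.pi * ((r * u).val : ℝ) / N - 2 * Real.pi * ((r * v).val : ℝ) / N) := by
      intro u hu v hv
      have hu' : c u = y := (Finset.mem_filter.mp hu).2
      have hv' : c v = y := (Finset.mem_filter.mp hv).2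
      have huv : c u ⟨r, hr⟩ = c v ⟨r, hr⟩ := by rw [hu', hv']
      have hval : K * (r * u).val / N = K * (r * v).val / N := congrArg Fin.val huv
      have hc := BohrAux.close hN hK hval
      refine le_trans ?_ (BohrAux.one_sub_abs_le_cos _)
      have he : 2 * Real.pi * ((r * u).val : ℝ) / N - 2 * Real.pi * ((r * v).val : ℝ) / N =
          2 * Real.pi * (((r * u).val : ℝ) / N - ((r * v).val : ℝ) / N) := by ring
      have hpi := Real.pi_pos
      have hpi' : 2 * Real.pi ≤ 7 := by have := Real.pi_lt_d2; linarith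
      rw [he, abs_mul, abs_of_pos (by positivity : (0 : ℝ) < 2 * Real.pi)]
      have : 2 * Real.pi * |((r * u).val : ℝ) / N - ((r * v).val : ℝ) / N| ≤ 7 * (1 / (K : ℝ)) :=
        mul_le_mul hpi' hc (abs_nonneg _) (by norm_num)
      rw [mul_one_div] at this
      linarith
    calc (1 - 7 / (K : ℝ)) * (B.card : ℝ) ^ 2
        = ∑ _u ∈ B, ∑ _v ∈ B, (1 - 7 / (K : ℝ)) := by
          simp only [Finset.sum_const, nsmul_eq_mul]; ring
      _ ≤ _ := Finset.sum_le_sum fun u hu => Finset.sum_le_sum fun v hv => hterm u hu v hv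

end Pool.Agent.Lib.MP_4b8564_nt.Sg
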