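import Pool.Agent.Lib.MP_4b8564_nt.Sg.Defs

open Finset

noncomputable section

namespace Pool.Agent.Lib.MP_4b8564_nt.Sg

namespace KlooAux

/-- twisted Kloosterman sum -/
def T (c : ℕ) [NeZero c] (a : ZMod c) : ℂ :=
  ∑ x : (ZMod c)ˣ, ZMod.stdAddChar (a * ((x : ZMod c) + ((x⁻¹ : (ZMod c)ˣ) : ZMod c)))

theorem T_neg (c : ℕ) [NeZero c] (a : ZMod c) : T c (-a) = T c a := by
  unfold T
  refine Fintype.sum_equiv (Equiv.neg (ZMod c)ˣ) _ _ fun x => ?_
  congr 1
  simp only [Equiv.neg_apply, Units.val_neg, inv_neg]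
  ring

theorem conj_psi (c : ℕ) [NeZero c] (t : ZMod c) :
    (starRingEnd ℂ) (ZMod.stdAddChar t) = ZMod.stdAddChar (-t) := by
  obtain ⟨j, rfl⟩ := ZMod.intCast_surjective t
  rw [← Int.cast_neg, ZMod.stdAddChar_coe, ZMod.stdAddChar_coe, ← Complex.exp_conj]
  congr 1
  simp only [map_div₀, map_mul, Complex.conj_ofReal, Complex.conj_I, map_intCast, map_natCast,
    map_ofNat]
  push_cast
  ring

theorem T_im (c : ℕ) [NeZero c] (a : ZMod c) : (T c a).im = 0 := by
  have h : (starRingEnd ℂ) (T c a) = T c a := by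
    conv_rhs => rw [← T_neg]
    unfold T
    rw [map_sum]
    refine Finset.sum_congr rfl fun x _ => ?_
    rw [conj_psi, neg_mul]
  exact Complex.conj_eq_iff_im.mp h

theorem psi_mul {m n : ℕ} [NeZero m] [NeZero n] (h : m.Coprime n) (a : ZMod (m * n))
    (α : ZMod m) (β : ZMod n) (hα : (ZMod.chineseRemainder h a).1 = n * α)
    (hβ : (ZMod.chineseRemainder h a).2 = m * β) :
    ZMod.stdAddChar a = ZMod.stdAddChar α * ZMod.stdAddChar β := by
  obtain ⟨i, rfl⟩ := ZMod.intCast_surjective α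
  obtain ⟨j, rfl⟩ := ZMod.intCast_surjective β
  have ha : a = ((i * n + j * m : ℤ) : ZMod (m * n)) := by
    apply (ZMod.chineseRemainder h).injective
    rw [map_intCast]
    refine Prod.ext ?_ ?_
    · rw [hα]; simp; ring
    · rw [hβ]; simp; ring
  rw [ha, ZMod.stdAddChar_coe, ZMod.stdAddChar_coe, ZMod.stdAddChar_coe, ← Complex.exp_add]
  congr 1
  have hm : (m : ℂ) ≠ 0 := Nat.cast_ne_zero.mpr (NeZero.ne m)
  have hn : (n : ℂ) ≠ 0 := Nat.cast_ne_zero.mpr (NeZero.ne n)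
  push_cast
  field_simp

theorem T_mul {m n : ℕ} [NeZero m] [NeZero n] (h : m.Coprime n) (a : ZMod (m * n))
    (α : ZMod m) (β : ZMod n) (hα : (ZMod.chineseRemainder h a).1 = n * α)
    (hβ : (ZMod.chineseRemainder h a).2 = m * β) : T (m * n) a = T m α * T n β := by
  unfold T
  rw [Finset.sum_mul_sum, ← Fintype.sum_prod_type']
  let e : (ZMod (m * n))ˣ ≃* (ZMod m)ˣ × (ZMod n)ˣ :=
    (Units.mapEquiv (ZMod.chineseRemainder h).toMulEquiv).trans MulEquiv.prodUnits
  have e1 : ∀ x : (ZMod (m * n))ˣ, ((e x).1 : ZMod m) = (ZMod.chineseRemainder h x).1 :=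
    fun x => rfl
  have e2 : ∀ x : (ZMod (m * n))ˣ, ((e x).2 : ZMod n) = (ZMod.chineseRemainder h x).2 :=
    fun x => rfl
  refine Fintype.sum_equiv e.toEquiv _ _ fun x => ?_
  have i1 : ((e x).1)⁻¹ = (e x⁻¹).1 := by rw [map_inv]; rfl
  have i2 : ((e x).2)⁻¹ = (e x⁻¹).2 := by rw [map_inv]; rfl
  change _ = ZMod.stdAddChar (α * (((e x).1 : ZMod m) + (((e x).1⁻¹ : (ZMod m)ˣ) : ZMod m))) *
    ZMod.stdAddChar (β * (((e x).2 : ZMod n) + (((e x).2⁻¹ : (ZMod n)ˣ) : ZMod n)))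
  rw [i1, i2, e1, e1, e2, e2]
  apply psi_mul h
  · rw [map_mul, map_add, Prod.fst_mul, Prod.fst_add, hα, mul_assoc]
  · rw [map_mul, map_add, Prod.snd_mul, Prod.snd_add, hβ, mul_assoc]

theorem T_ne (p : ℕ) [hp : Fact p.Prime] (a : ZMod p) : T p a ≠ 0 := by
  intro h0
  have hζ := Complex.isPrimitiveRoot_exp p hp.out.ne_zero
  set ζ := Complex.exp (2 * Real.pi * Complex.I / p) with hζd
  let g : (ZMod p)ˣ → Fin p := fun x =>
    ⟨(a * ((x : ZMod p) + ((x⁻¹ : (ZMod p)ˣ) : ZMod p))).val, ZMod.val_lt _⟩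
  let α : Fin p → ℤ := fun i => ((univ.filter fun x => g x = i).card : ℤ)
  have hT : T p a = ∑ i, (α i : ℂ) * ζ ^ i.val := by
    unfold T
    rw [← Finset.sum_fiberwise (s := univ) (g := g)]
    refine Finset.sum_congr rfl fun i _ => ?_
    rw [Finset.sum_congr rfl (g := fun _ => ζ ^ i.val)]
    · simp [α]
    · intro x hx
      have hx' : g x = i := (Finset.mem_filter.mp hx).2
      rw [← hx', ZMod.stdAddChar_apply, ZMod.toCircle_apply, hζd, ← Complex.exp_nat_mul]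
      congr 1
      simp only [g]
      ring
  have hall := (hζ.sum_eq_zero_iff_forall_eq_int hp.out α).mp (by rw [← hT]; exact h0)
  have hsum : ∑ i, α i = ((p - 1 : ℕ) : ℤ) := by
    have := Finset.card_eq_sum_card_fiberwise (s := (univ : Finset (ZMod p)ˣ))
      (t := (univ : Finset (Fin p))) (f := g) (fun _ _ => Finset.mem_coe.mpr (mem_univ _))
    rw [Finset.card_univ, ZMod.card_units] at this
    rw [this]; simp [α]
  have i0 : Fin p := ⟨0, hp.out.pos⟩
  rw [Finset.sum_congr rfl (g := fun _ => α i0) (fun i _ => hall i i0)] at hsum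
  simp only [sum_const, card_univ, Fintype.card_fin, nsmul_eq_mul] at hsum
  have hd : (p : ℤ) ∣ ((p - 1 : ℕ) : ℤ) := ⟨α i0, hsum.symm⟩
  have hd' : p ∣ p - 1 := Int.natCast_dvd_natCast.mp hd
  have h2 := hp.out.two_le
  have := Nat.le_of_dvd (by omega) hd'
  omega

theorem KS_eq (c : ℕ) [NeZero c] : KS c = (T c 1).re := by
  unfold KS T
  rw [Complex.re_sum]
  symm
  refine Finset.sum_nbij (fun u : (ZMod c)ˣ => (u : ZMod c).val) ?_ ?_ ?_ ?_
  · intro u _
    exact Finset.mem_filter.mpr ⟨Finset.mem_range.mpr (ZMod.val_lt _), ZMod.val_coe_unit_coprime u⟩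
  · intro u _ v _ huv
    exact Units.ext (ZMod.val_injective c huv)
  · intro x hx
    obtain ⟨h1, h2⟩ := Finset.mem_filter.mp (Finset.mem_coe.mp hx)
    refine ⟨ZMod.unitOfCoprime x h2, by simp, ?_⟩
    simp only [ZMod.coe_unitOfCoprime]
    exact ZMod.val_cast_of_lt (Finset.mem_range.mp h1)
  · intro u _
    rw [ZMod.natCast_zmod_val, ZMod.inv_coe_unit, one_mul]
    set k : ℕ := (u : ZMod c).val + ((u⁻¹ : (ZMod c)ˣ) : ZMod c).val with hk
    have : (u : ZMod c) + ((u⁻¹ : (ZMod c)ˣ) : ZMod c) = ((k : ℤ) : ZMod c) := by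
      rw [hk]; push_cast; rw [ZMod.natCast_zmod_val, ZMod.natCast_zmod_val]
    rw [this, ZMod.stdAddChar_coe, ← Complex.exp_ofReal_mul_I_re]
    congr 2
    push_cast
    ring

/-- the sum twisted by the inverse of `u` -/
def S (c : ℕ) [NeZero c] (u : ℕ) : ℝ := (T c ((u : ZMod c)⁻¹)).re

theorem KS_eq_S (c : ℕ) [NeZero c] : KS c = S c 1 := by
  rw [KS_eq, S]; simp

theorem inv_aux {m : ℕ} (u n : ℕ) (hu : Nat.Coprime u m) (hn : Nat.Coprime n m) (y : ZMod m)
    (hy : (u : ZMod m) * y = 1) : y = n * ((u * n : ℕ) : ZMod m)⁻¹ := by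
  have h1 := ZMod.coe_mul_inv_eq_one (u * n) (Nat.Coprime.mul_left hu hn)
  set z := ((u * n : ℕ) : ZMod m)⁻¹
  push_cast at h1
  linear_combination (n * z) * hy - y * h1

theorem S_mul {m n : ℕ} [NeZero m] [NeZero n] (h : m.Coprime n) (u : ℕ) (hm : Nat.Coprime u m)
    (hn : Nat.Coprime u n) : S (m * n) u = S m (u * n) * S n (u * m) := by
  have h1 := ZMod.coe_mul_inv_eq_one u (Nat.Coprime.mul_right hm hn)
  have h2 := congrArg (ZMod.chineseRemainder h) h1
  rw [map_mul, map_one, map_natCast] at h2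
  unfold S
  rw [T_mul h _ (((u * n : ℕ) : ZMod m)⁻¹) (((u * m : ℕ) : ZMod n)⁻¹), Complex.mul_re, T_im,
    zero_mul, sub_zero]
  · exact inv_aux u n hm h.symm _ (by simpa using congrArg Prod.fst h2)
  · exact inv_aux u m hn h _ (by simpa using congrArg Prod.snd h2)

theorem S_ne (p : ℕ) [Fact p.Prime] (u : ℕ) : S p u ≠ 0 := fun h =>
  T_ne p _ (Complex.ext h (T_im _ _))

theorem S_congr (c : ℕ) [NeZero c] {u v : ℕ} (h : (u : ZMod c) = v) : S c u = S c v := by
  unfold S; rw [h]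

theorem S_neg (p : ℕ) [Fact p.Prime] {u v : ℕ} (h : (u : ZMod p) = -v) : S p u = S p v := by
  unfold S; rw [h, inv_neg, T_neg]

theorem S_one (u : ℕ) : S 1 u = 1 := by
  unfold S T
  rw [Finset.sum_congr rfl (g := fun _ => (1 : ℂ))]
  · simp
  · intro x _
    rw [Subsingleton.elim (_ * _ : ZMod 1) 0, AddChar.map_zero_eq_one]

theorem S_two (u : ℕ) : S 2 u = 1 := by
  unfold S T
  rw [Finset.sum_congr rfl (g := fun _ => (1 : ℂ))]
  · simp
  · intro x _
    have : ∀ (a : ZMod 2) (x : (ZMod 2)ˣ), a * ((x : ZMod 2) + ((x⁻¹ : (ZMod 2)ˣ) : ZMod 2)) = 0 := by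
      decide
    rw [this, AddChar.map_zero_eq_one]

theorem T_three : T 3 1 = -1 := by
  have h0 : ∑ x : ZMod 3, ZMod.stdAddChar (x * 1) = 0 := by
    rw [AddChar.sum_mulShift _ (ZMod.isPrimitive_stdAddChar 3)]
    simp
  have h1 : (univ : Finset (ZMod 3)) = {0, 1, 2} := by decide
  have h2 : (univ : Finset (ZMod 3)ˣ) = {1, -1} := by decide
  rw [h1, Finset.sum_insert (by decide), Finset.sum_pair (by decide)] at h0
  unfold T
  rw [h2, Finset.sum_pair (by decide)]
  have e1 : (1 : ZMod 3) * (((1 : (ZMod 3)ˣ) : ZMod 3) + (((1 : (ZMod 3)ˣ)⁻¹ : (ZMod 3)ˣ) : ZMod 3))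
      = 2 * 1 := by decide
  have e2 : (1 : ZMod 3) * (((-1 : (ZMod 3)ˣ) : ZMod 3) +
      (((-1 : (ZMod 3)ˣ)⁻¹ : (ZMod 3)ˣ) : ZMod 3)) = 1 * 1 := by decide
  rw [e1, e2]
  rw [zero_mul, AddChar.map_zero_eq_one] at h0
  linear_combination h0

theorem S_three (u : ℕ) (hu : Nat.Coprime u 3) : S 3 u = -1 := by
  have h1 := ZMod.coe_mul_inv_eq_one u hu
  unfold S
  generalize ((u : ZMod 3)⁻¹) = a at h1
  have : ∀ b a : ZMod 3, b * a = 1 → a = 1 ∨ a = -1 := by decide
  rcases this _ _ h1 with rfl | rfl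
  · rw [T_three]; simp
  · rw [T_neg, T_three]; simp

theorem S_six (u : ℕ) (h2 : Nat.Coprime u 2) (h3 : Nat.Coprime u 3) : S 6 u = -1 := by
  have := S_mul (m := 2) (n := 3) (by norm_num) u h2 h3
  rw [S_two, S_three _ (Nat.Coprime.mul_left h3 (by norm_num))] at this
  simpa using this

theorem KS_three (t p q : ℕ) [NeZero t] [NeZero p] [NeZero q] (hp : t.Coprime p)
    (hq : t.Coprime q) (hpq : p.Coprime q) :
    KS (t * p * q) = S t (q * p) * S p (t * q) * S q (t * p) := by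
  rw [KS_eq_S, S_mul (Nat.Coprime.mul_left hq hpq) 1 (by simp) (by simp), one_mul, one_mul,
    S_mul hp q hq.symm hpq.symm, mul_comm q t]

theorem core (t p q r : ℕ) [NeZero t] (hp : p.Prime) (hq : q.Prime) (hr : r.Prime)
    (hpq : p < q) (h : p + r = 2 * q) (tp : (2 * t).Coprime p) (tq : (2 * t).Coprime q)
    (tr : (2 * t).Coprime r) :
    ∃ z : ℝ, 0 < z ∧ KS (t * p * r) * KS (2 * t * p * q) * KS (2 * t * q * r) =
      S t (r * p) * S (2 * t) (q * p) * S (2 * t) (r * q) * z := by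
  haveI := Fact.mk hp
  haveI := Fact.mk hq
  haveI := Fact.mk hr
  have c1 : p.Coprime q := (Nat.coprime_primes hp hq).mpr (by omega)
  have c2 : p.Coprime r := (Nat.coprime_primes hp hr).mpr (by omega)
  have c3 : q.Coprime r := (Nat.coprime_primes hq hr).mpr (by omega)
  have hz : S p (t * r) * S r (t * p) * S q (2 * t * p) ≠ 0 :=
    mul_ne_zero (mul_ne_zero (S_ne _ _) (S_ne _ _)) (S_ne _ _)
  refine ⟨(S p (t * r) * S r (t * p) * S q (2 * t * p)) ^ 2, by positivity, ?_⟩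
  have a1 : S p (2 * t * q) = S p (t * r) := by
    apply S_congr
    have := congrArg (Nat.cast : ℕ → ZMod p) h
    push_cast at this ⊢
    rw [ZMod.natCast_self] at this
    linear_combination (-(t : ZMod p)) * this
  have a2 : S r (2 * t * q) = S r (t * p) := by
    apply S_congr
    have := congrArg (Nat.cast : ℕ → ZMod r) h
    push_cast at this ⊢
    rw [ZMod.natCast_self] at this
    linear_combination (-(t : ZMod r)) * this
  have a3 : S q (2 * t * r) = S q (2 * t * p) := by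
    apply S_neg
    have := congrArg (Nat.cast : ℕ → ZMod q) h
    push_cast at this ⊢
    rw [ZMod.natCast_self] at this
    linear_combination (2 * (t : ZMod q)) * this
  rw [KS_three t p r (Nat.Coprime.coprime_mul_left tp) (Nat.Coprime.coprime_mul_left tr) c2,
    KS_three (2 * t) p q tp tq c1, KS_three (2 * t) q r tq tr c3, a1, a2, a3]
  ring

theorem cop (t p : ℕ) (ht : t.Prime) (hp : p.Prime) (h : t < p) : t.Coprime p :=
  (Nat.coprime_primes ht hp).mpr (by omega)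

end KlooAux

open KlooAux

theorem sign_pos (p q r : ℕ) (hp : p.Prime) (hq : q.Prime) (hr : r.Prime) (h3 : 3 < p)
    (hpq : p < q) (h : p + r = 2 * q) : 0 < KS (p * r) * KS (2 * p * q) * KS (2 * q * r) := by
  obtain ⟨z, hz, e⟩ := core 1 p q r hp hq hr hpq h (cop 2 p Nat.prime_two hp (by omega))
    (cop 2 q Nat.prime_two hq (by omega)) (cop 2 r Nat.prime_two hr (by omega))
  have s2 : ∀ u, S (2 * 1) u = 1 := S_two
  rw [S_one, s2, s2] at e
  simp only [one_mul, mul_one] at e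
  rw [e]; exact hz

theorem sign_neg (p q r : ℕ) (hp : p.Prime) (hq : q.Prime) (hr : r.Prime) (h3 : 3 < p)
    (hpq : p < q) (h : p + r = 2 * q) :
    KS (3 * p * r) * KS (6 * p * q) * KS (6 * q * r) < 0 := by
  have p2 := cop 2 p Nat.prime_two hp (by omega)
  have q2 := cop 2 q Nat.prime_two hq (by omega)
  have r2 := cop 2 r Nat.prime_two hr (by omega)
  have p3 := cop 3 p Nat.prime_three hp (by omega)
  have q3 := cop 3 q Nat.prime_three hq (by omega)
  have r3 := cop 3 r Nat.prime_three hr (by omega)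
  obtain ⟨z, hz, e⟩ := core 3 p q r hp hq hr hpq h (Nat.Coprime.mul_left p2 p3)
    (Nat.Coprime.mul_left q2 q3) (Nat.Coprime.mul_left r2 r3)
  have s6 : ∀ u, Nat.Coprime u 2 → Nat.Coprime u 3 → S (2 * 3) u = -1 := S_six
  rw [S_three _ (Nat.Coprime.mul_left r3.symm p3.symm),
    s6 _ (Nat.Coprime.mul_left q2.symm p2.symm) (Nat.Coprime.mul_left q3.symm p3.symm),
    s6 _ (Nat.Coprime.mul_left r2.symm q2.symm) (Nat.Coprime.mul_left r3.symm q3.symm)] at e
  have e6 : (2 * 3 : ℕ) = 6 := rfl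
  rw [e6] at e
  rw [e]; linarith

end Pool.Agent.Lib.MP_4b8564_nt.Sg
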