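import Pool.Agent.Lib.MP_4b8564_nt.Sg.Prog
import Pool.Agent.Lib.MP_4b8564_nt.Sg.Kloo

open Finset

noncomputable section

namespace Pool.Agent.Lib.MP_4b8564_nt.Sg

namespace CountAux

theorem prime_pair {p q p' q' : ℕ} (hp : p.Prime) (hq : q.Prime) (hp' : p'.Prime) (hq' : q'.Prime)
    (h : p < q) (h' : p' < q') (e : p * q = p' * q') : p = p' ∧ q = q' := by
  have h1 : q ∣ p' * q' := e ▸ Dvd.intro_left p rfl
  have h2 : q' ∣ p * q := e ▸ Dvd.intro_left p' rfl
  have hqq : q = q' := by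
    rcases (Nat.Prime.dvd_mul hq).1 h1 with a | a
    · have a' := (Nat.prime_dvd_prime_iff_eq hq hp').1 a
      rcases (Nat.Prime.dvd_mul hq').1 h2 with b | b
      · have b' := (Nat.prime_dvd_prime_iff_eq hq' hp).1 b
        omega
      · exact ((Nat.prime_dvd_prime_iff_eq hq' hq).1 b).symm
    · exact (Nat.prime_dvd_prime_iff_eq hq hq').1 a
  subst hqq
  exact ⟨Nat.eq_of_mul_eq_mul_right hq.pos e, rfl⟩

theorem card_mul {a b : ℕ} (h : Nat.Coprime a b) :
    (a * b).primeFactors.card = a.primeFactors.card + b.primeFactors.card := by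
  rw [h.primeFactors_mul, card_union_of_disjoint h.disjoint_primeFactors]

/-- `t p q` is squarefree with `ω(t) + 2` prime factors when `t ∣ 6` -/
theorem sqf {t p q : ℕ} (ht : t ∣ 6) (hp : p.Prime) (hq : q.Prime) (h3 : 3 < p) (h : p < q) :
    Squarefree (t * p * q) ∧ (t * p * q).primeFactors.card = t.primeFactors.card + 2 := by
  have cop : ∀ r : ℕ, r.Prime → 3 < r → Nat.Coprime t r := fun r hr h3 => by
    refine Nat.Coprime.coprime_dvd_left ht (Nat.Coprime.symm ((Nat.Prime.coprime_iff_not_dvd hr).2 ?_))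
    intro hd
    rcases (Nat.Prime.dvd_mul hr (m := 2) (n := 3)).1 hd with a | a
    · have := Nat.le_of_dvd (by norm_num) a; omega
    · have := Nat.le_of_dvd (by norm_num) a; omega
  have hts : Squarefree t := Squarefree.squarefree_of_dvd ht (by
    have : (6 : ℕ) = 2 * 3 := rfl
    rw [this, Nat.squarefree_mul (by norm_num)]
    exact ⟨Nat.prime_two.squarefree, Nat.prime_three.squarefree⟩)
  have c1 : Nat.Coprime t p := cop p hp h3
  have c2 : Nat.Coprime (t * p) q :=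
    Nat.Coprime.mul_left (cop q hq (by omega)) ((Nat.coprime_primes hp hq).2 h.ne)
  refine ⟨(Nat.squarefree_mul c2).2 ⟨(Nat.squarefree_mul c1).2 ⟨hts, hp.squarefree⟩, hq.squarefree⟩, ?_⟩
  rw [card_mul c2, card_mul c1, hp.primeFactors, hq.primeFactors]
  simp

/-- every progression sends one of its three moduli into `Gd` -/
theorem count (Y t : ℕ) (ht : 0 < t) (Gd : Finset ℕ)
    (h : ∀ p q r : ℕ, p.Prime → q.Prime → r.Prime → 3 < p → p < q → p + r = 2 * q → r ≤ Y →
      t * p * r ∈ Gd ∨ 2 * t * p * q ∈ Gd ∨ 2 * t * q * r ∈ Gd) :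
    (APs Y).card ≤ 3 * Gd.card := by
  have mem : ∀ x ∈ APs Y, 3 < x.1 ∧ x.1 < x.2 ∧ 2 * x.2 - x.1 ≤ Y ∧ x.1.Prime ∧ x.2.Prime ∧
      (2 * x.2 - x.1).Prime := fun x hx => (mem_filter.1 hx).2
  have sub : APs Y ⊆ ((APs Y).filter fun x => t * x.1 * (2 * x.2 - x.1) ∈ Gd) ∪
      ((APs Y).filter fun x => 2 * t * x.1 * x.2 ∈ Gd) ∪
      ((APs Y).filter fun x => 2 * t * x.2 * (2 * x.2 - x.1) ∈ Gd) := by
    intro x hx
    obtain ⟨a, b, c, d, e, f⟩ := mem x hx
    simp only [mem_union, mem_filter, hx, true_and]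
    rw [or_assoc]
    exact h _ _ _ d e f a b (by omega) c
  have k1 : ((APs Y).filter fun x => t * x.1 * (2 * x.2 - x.1) ∈ Gd).card ≤ Gd.card := by
    refine card_le_card_of_injOn (fun x => t * x.1 * (2 * x.2 - x.1))
      (fun x hx => (mem_filter.1 hx).2) fun x hx y hy e => ?_
    obtain ⟨_, b, _, d, _, f⟩ := mem x (mem_filter.1 hx).1
    obtain ⟨_, b', _, d', _, f'⟩ := mem y (mem_filter.1 hy).1
    have e' : x.1 * (2 * x.2 - x.1) = y.1 * (2 * y.2 - y.1) := by
      apply Nat.eq_of_mul_eq_mul_left ht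
      simpa only [mul_assoc] using e
    have := prime_pair d f d' f' (by omega) (by omega) e'
    exact Prod.ext this.1 (by omega)
  have k2 : ((APs Y).filter fun x => 2 * t * x.1 * x.2 ∈ Gd).card ≤ Gd.card := by
    refine card_le_card_of_injOn (fun x => 2 * t * x.1 * x.2)
      (fun x hx => (mem_filter.1 hx).2) fun x hx y hy e => ?_
    obtain ⟨_, b, _, d, f, _⟩ := mem x (mem_filter.1 hx).1
    obtain ⟨_, b', _, d', f', _⟩ := mem y (mem_filter.1 hy).1
    have e' : x.1 * x.2 = y.1 * y.2 := by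
      apply Nat.eq_of_mul_eq_mul_left (show 0 < 2 * t by omega)
      simpa only [mul_assoc] using e
    have := prime_pair d f d' f' b b' e'
    exact Prod.ext this.1 this.2
  have k3 : ((APs Y).filter fun x => 2 * t * x.2 * (2 * x.2 - x.1) ∈ Gd).card ≤ Gd.card := by
    refine card_le_card_of_injOn (fun x => 2 * t * x.2 * (2 * x.2 - x.1))
      (fun x hx => (mem_filter.1 hx).2) fun x hx y hy e => ?_
    obtain ⟨_, b, _, _, d, f⟩ := mem x (mem_filter.1 hx).1
    obtain ⟨_, b', _, _, d', f'⟩ := mem y (mem_filter.1 hy).1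
    have e' : x.2 * (2 * x.2 - x.1) = y.2 * (2 * y.2 - y.1) := by
      apply Nat.eq_of_mul_eq_mul_left (show 0 < 2 * t by omega)
      simpa only [mul_assoc] using e
    have := prime_pair d f d' f' (by omega) (by omega) e'
    exact Prod.ext (by omega) this.1
  calc (APs Y).card ≤ _ := card_le_card sub
    _ ≤ _ := card_union_le _ _
    _ ≤ _ := Nat.add_le_add_right (card_union_le _ _) _
    _ ≤ 3 * Gd.card := by omega

/-- passage from `Y = ⌊√(X/6)⌋` to `X` -/
theorem scale (c : ℝ) (hc : 0 < c) (Y₀ : ℕ) : ∃ X₀ : ℕ, ∀ X : ℕ, X₀ ≤ X → ∃ Y : ℕ, Y₀ ≤ Y ∧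
    6 * Y * Y ≤ X ∧ c / 72 * X / Real.log X ^ 3 ≤ c * (Y : ℝ) ^ 2 / Real.log Y ^ 3 / 3 := by
  refine ⟨6 * (Y₀ + 2) ^ 2, fun X hX => ⟨Nat.sqrt (X / 6), ?_, ?_, ?_⟩⟩
  · have : Y₀ + 2 ≤ Nat.sqrt (X / 6) := Nat.le_sqrt'.2 (by omega)
    omega
  · have := Nat.sqrt_le (X / 6)
    nlinarith [Nat.mul_div_le X 6]
  · have h2 : Y₀ + 2 ≤ Nat.sqrt (X / 6) := Nat.le_sqrt'.2 (by omega)
    have h3 := Nat.lt_succ_sqrt (X / 6)
    have h4 := Nat.sqrt_le (X / 6)
    set Y := Nat.sqrt (X / 6)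
    have h5 : X ≤ 24 * Y ^ 2 := by
      have : X < 6 * (X / 6 + 1) := by omega
      nlinarith
    have h6 : Y ≤ X := by nlinarith [Nat.mul_div_le X 6]
    have hY : (1 : ℝ) < Y := by exact_mod_cast (by omega : 1 < Y)
    have l1 : 0 < Real.log Y := Real.log_pos hY
    have l2 : Real.log Y ≤ Real.log X := Real.log_le_log (by linarith) (by exact_mod_cast h6)
    have h7 : (X : ℝ) ≤ 24 * (Y : ℝ) ^ 2 := by exact_mod_cast h5
    calc c / 72 * X / Real.log X ^ 3 ≤ c / 72 * (24 * (Y : ℝ) ^ 2) / Real.log Y ^ 3 := by gcongr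
      _ = _ := by ring

end CountAux

open CountAux

theorem many_signs : ∃ δ : ℝ, 0 < δ ∧ ∃ X₀ : ℕ, ∀ X : ℕ, X₀ ≤ X →
    δ * X / Real.log X ^ 3 ≤
      (((Icc 1 X).filter fun c => Squarefree c ∧ c.primeFactors.card ≤ 3 ∧ 0 < KS c).card : ℝ) ∧
    δ * X / Real.log X ^ 3 ≤
      (((Icc 1 X).filter fun c => Squarefree c ∧ c.primeFactors.card ≤ 4 ∧ KS c < 0).card : ℝ) := by
  obtain ⟨c, hc, Y₀, hY⟩ := many_APs
  obtain ⟨X₀, hX⟩ := scale c hc Y₀
  refine ⟨c / 72, by positivity, X₀, fun X h => ?_⟩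
  obtain ⟨Y, h1, h2, h3⟩ := hX X h
  have h4 := hY Y h1
  have fin : ∀ Gd : Finset ℕ, (APs Y).card ≤ 3 * Gd.card →
      c / 72 * X / Real.log X ^ 3 ≤ (Gd.card : ℝ) := fun Gd hG => by
    have : ((APs Y).card : ℝ) ≤ 3 * Gd.card := by exact_mod_cast hG
    linarith
  have rng : ∀ t p q : ℕ, 1 ≤ t → t ≤ 6 → 3 < p → p < q → q ≤ Y → t * p * q ∈ Icc 1 X :=
    fun t p q a b d e f => mem_Icc.2 ⟨Nat.mul_pos (Nat.mul_pos a (by omega)) (by omega),
      (Nat.mul_le_mul (Nat.mul_le_mul b (by omega)) f).trans h2⟩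
  have w1 : (1 : ℕ).primeFactors.card = 0 := by simp
  have w2 : (2 : ℕ).primeFactors.card = 1 := by simp [Nat.prime_two.primeFactors]
  have w3 : (3 : ℕ).primeFactors.card = 1 := by simp [Nat.prime_three.primeFactors]
  have w6 : (6 : ℕ).primeFactors.card = 2 := by
    rw [show (6 : ℕ) = 2 * 3 from rfl, card_mul (by norm_num), w2, w3]
  constructor
  · refine fin _ (count Y 1 one_pos _ fun p q r hp hq hr a b e f => ?_)
    have s := sign_pos p q r hp hq hr a b e
    have s1 := sqf (t := 1) (by norm_num) hp hr a (by omega)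
    have s2 := sqf (t := 2) (by norm_num) hp hq a b
    have s3 := sqf (t := 2) (by norm_num) hq hr (by omega) (by omega)
    simp only [mem_filter, mul_one]
    by_contra hn
    push Not at hn
    have n1 := hn.1 (rng 1 p r le_rfl (by norm_num) a (by omega) f) s1.1 (by omega)
    have n2 := hn.2.1 (rng 2 p q (by norm_num) (by norm_num) a b (by omega)) s2.1 (by omega)
    have n3 := hn.2.2 (rng 2 q r (by norm_num) (by norm_num) (by omega) (by omega) f) s3.1 (by omega)
    rw [one_mul] at n1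
    nlinarith [mul_nonneg_of_nonpos_of_nonpos n1 n2]
  · refine fin _ (count Y 3 (by norm_num) _ fun p q r hp hq hr a b e f => ?_)
    have s := sign_neg p q r hp hq hr a b e
    have s1 := sqf (t := 3) (by norm_num) hp hr a (by omega)
    have s2 := sqf (t := 6) (by norm_num) hp hq a b
    have s3 := sqf (t := 6) (by norm_num) hq hr (by omega) (by omega)
    simp only [mem_filter, show 2 * 3 = 6 from rfl]
    by_contra hn
    push Not at hn
    have n1 := hn.1 (rng 3 p r (by norm_num) (by norm_num) a (by omega) f) s1.1 (by omega)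
    have n2 := hn.2.1 (rng 6 p q (by norm_num) (by norm_num) a b (by omega)) s2.1 (by omega)
    have n3 := hn.2.2 (rng 6 q r (by norm_num) (by norm_num) (by omega) (by omega) f) s3.1 (by omega)
    nlinarith [mul_nonneg (mul_nonneg n1 n2) n3]

end Pool.Agent.Lib.MP_4b8564_nt.Sg
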