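import Mathlib

/-!
Working definitions for the sign change theorem (none of them occurs in the final statement).
-/

open Finset

noncomputable section

namespace Pool.Agent.Lib.MP_4b8564_nt.Sg

/-- `e(t) = exp(2 π i t)` -/
def ee (t : ℝ) : ℂ := Complex.exp (2 * Real.pi * t * Complex.I)

/-- the Kloosterman sum `S(1,1;c)` (it is real) -/
def KS (c : ℕ) : ℝ :=
  ∑ x ∈ (range c).filter (fun x => Nat.Coprime x c),
    Real.cos (2 * Real.pi * (((x + ((x : ZMod c)⁻¹).val : ℕ) : ℝ)) / (c : ℝ))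

/-- normalised Fourier coefficient on `ℤ/N` -/
def ft (N : ℕ) [NeZero N] (F : ZMod N → ℝ) (r : ZMod N) : ℂ :=
  (∑ x : ZMod N, (F x : ℂ) * ZMod.stdAddChar (r * x)) / (N : ℂ)

/-- normalised count of three-term progressions (trivial ones included) -/
def lam3 (N : ℕ) [NeZero N] (f : ZMod N → ℝ) : ℝ :=
  (∑ x : ZMod N, ∑ d : ZMod N, f x * f (x + d) * f (x + 2 * d)) / (N : ℝ) ^ 2

/-- smoothing along differences of two elements of `B` -/
def sm {N : ℕ} (B : Finset (ZMod N)) (F : ZMod N → ℝ) (x : ZMod N) : ℝ :=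
  (∑ u ∈ B, ∑ v ∈ B, F (x + u - v)) / (B.card : ℝ) ^ 2

/-- the Fourier multiplier of `sm B` -/
def mu {N : ℕ} [NeZero N] (B : Finset (ZMod N)) (r : ZMod N) : ℝ :=
  ‖∑ u ∈ B, ZMod.stdAddChar (r * u)‖ ^ 2 / (B.card : ℝ) ^ 2

/-- `μ(p) c_p(m) / φ(p)` -/
def gp (p m : ℕ) : ℝ := if p ∣ m then -1 else 1 / ((p : ℝ) - 1)

/-- `μ(q) c_q(m) / φ(q)` for `q` the product of the primes in `S` -/
def gS (S : Finset ℕ) (m : ℕ) : ℝ := ∏ p ∈ S, gp p m

/-- `1 / φ(q)` for `q` the product of the primes in `S` -/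
def iphi (S : Finset ℕ) : ℝ := ∏ p ∈ S, 1 / ((p : ℝ) - 1)

/-- subsets of `P` with product at most `Y` -/
def fam (P : Finset ℕ) (Y : ℕ) : Finset (Finset ℕ) := P.powerset.filter fun S => ∏ p ∈ S, p ≤ Y

/-- Selberg's sum `G` -/
def GG (P : Finset ℕ) (R : ℕ) : ℝ := ∑ S ∈ fam P R, iphi S

/-- the sieve weight, equal to `GG P R` at integers with no divisor in `P` -/
def beta (P : Finset ℕ) (R m : ℕ) : ℝ := ∑ S ∈ fam P R, gS S m

/-- the primes in `(w, y]` -/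
def PP (w y : ℕ) : Finset ℕ := (Ioc w y).filter Nat.Prime

/-- the hypothesis on the majorant used for the restriction estimate -/
def Split (N : ℕ) [NeZero N] (ν : ZMod N → ℝ) : Prop :=
  ∀ j : ℕ, ∃ ν' : ZMod N → ℝ, (∀ r, ‖ft N (fun x => ν x - ν' x) r‖ ≤ (1 / 4 : ℝ) ^ j / 8) ∧
    ∑ x, ν' x ^ 4 ≤ 6 * (4 / 3 : ℝ) ^ j * N

/-- three-term progressions `p < q < r ≤ Y` of primes above 3, as pairs `(p, q)` -/
def APs (Y : ℕ) : Finset (ℕ × ℕ) :=
  (range (Y + 1) ×ˢ range (Y + 1)).filter fun t =>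
    3 < t.1 ∧ t.1 < t.2 ∧ 2 * t.2 - t.1 ≤ Y ∧ t.1.Prime ∧ t.2.Prime ∧ (2 * t.2 - t.1).Prime

end Pool.Agent.Lib.MP_4b8564_nt.Sg
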