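import Pool.Agent.Lib.MP_4b8564_nt.Sg.Defs

open Finset

noncomputable section

namespace Pool.Agent.Lib.MP_4b8564_nt.Sg

namespace DyadicAux

theorem layer {ι : Type} [Fintype ι] (a : ι → ℝ) (ha : ∀ i, 0 ≤ a i) (C : ℝ)
    (h : ∀ j : ℕ, ((univ.filter fun i => (1 / 2 : ℝ) ^ j ≤ a i).card : ℝ) ≤ C * 7 ^ j) (k : ℕ) :
    ∑ i ∈ univ.filter (fun i => a i < (1 / 2 : ℝ) ^ k), a i ^ 3 ≤
      ∑ i ∈ univ.filter (fun i => a i < (1 / 2 : ℝ) ^ (k + 1)), a i ^ 3 + 7 * C * (7 / 8 : ℝ) ^ k := by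
  classical
  rw [← sum_filter_add_sum_filter_not (univ.filter (fun i => a i < (1 / 2 : ℝ) ^ k))
    (fun i => a i < (1 / 2 : ℝ) ^ (k + 1))]
  refine add_le_add ?_ ?_
  · refine sum_le_sum_of_subset_of_nonneg ?_ fun i _ _ => pow_nonneg (ha i) 3
    intro i hi
    simp only [mem_filter, mem_univ, true_and] at hi ⊢
    exact hi.2
  · have h1 : ∑ i ∈ (univ.filter (fun i => a i < (1 / 2 : ℝ) ^ k)).filter
        (fun i => ¬ a i < (1 / 2 : ℝ) ^ (k + 1)), a i ^ 3 ≤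
        ∑ i ∈ (univ.filter (fun i => a i < (1 / 2 : ℝ) ^ k)).filter
        (fun i => ¬ a i < (1 / 2 : ℝ) ^ (k + 1)), ((1 / 2 : ℝ) ^ k) ^ 3 := by
      refine sum_le_sum fun i hi => ?_
      simp only [mem_filter, mem_univ, true_and] at hi
      exact pow_le_pow_left₀ (ha i) hi.1.le 3
    have h2 : (((univ.filter (fun i => a i < (1 / 2 : ℝ) ^ k)).filter
        (fun i => ¬ a i < (1 / 2 : ℝ) ^ (k + 1))).card : ℝ) ≤ C * 7 ^ (k + 1) := by
      refine le_trans ?_ (h (k + 1))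
      refine Nat.cast_le.2 (card_le_card fun i hi => ?_)
      simp only [mem_filter, mem_univ, true_and, not_lt] at hi ⊢
      exact hi.2
    rw [sum_const, nsmul_eq_mul] at h1
    refine h1.trans ((mul_le_mul_of_nonneg_right h2 (by positivity)).trans (le_of_eq ?_))
    have h3 : (7 / 8 : ℝ) ^ k = 7 ^ k * ((1 / 2 : ℝ) ^ k) ^ 3 := by
      rw [← pow_mul, mul_comm k 3, pow_mul, ← mul_pow]
      norm_num
    rw [h3]
    ring

theorem layers {ι : Type} [Fintype ι] (a : ι → ℝ) (ha : ∀ i, 0 ≤ a i) (C : ℝ)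
    (h : ∀ j : ℕ, ((univ.filter fun i => (1 / 2 : ℝ) ^ j ≤ a i).card : ℝ) ≤ C * 7 ^ j) (j J : ℕ) :
    ∑ i ∈ univ.filter (fun i => a i < (1 / 2 : ℝ) ^ j), a i ^ 3 ≤
      ∑ i ∈ univ.filter (fun i => a i < (1 / 2 : ℝ) ^ (j + J)), a i ^ 3 +
        56 * C * ((7 / 8 : ℝ) ^ j - (7 / 8 : ℝ) ^ (j + J)) := by
  induction J with
  | zero => simp
  | succ J ih =>
    have := layer a ha C h (j + J)
    rw [← add_assoc, pow_succ (7 / 8 : ℝ) (j + J)]
    linarith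

end DyadicAux

theorem dyadic {ι : Type} [Fintype ι] (a : ι → ℝ) (ha : ∀ i, 0 ≤ a i) (C : ℝ)
    (h : ∀ j : ℕ, ((univ.filter fun i => (1 / 2 : ℝ) ^ j ≤ a i).card : ℝ) ≤ C * 7 ^ j) (j : ℕ) :
    ∑ i ∈ univ.filter (fun i => a i < (1 / 2 : ℝ) ^ j), a i ^ 3 ≤ 56 * C * (7 / 8 : ℝ) ^ j := by
  have hC : 0 ≤ C := by
    have := (Nat.cast_nonneg _).trans (h 0)
    simpa using this
  have hev : ∀ᶠ J : ℕ in Filter.atTop, ∀ i, 0 < a i → (1 / 2 : ℝ) ^ J ≤ a i := by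
    refine Filter.eventually_all.2 fun i => ?_
    by_cases hi : 0 < a i
    · have := (tendsto_pow_atTop_nhds_zero_of_lt_one (r := (1 / 2 : ℝ)) (by norm_num)
        (by norm_num)).eventually (ge_mem_nhds hi)
      exact this.mono fun J hJ _ => hJ
    · exact Filter.Eventually.of_forall fun J h' => absurd h' hi
  obtain ⟨J, hJ⟩ := Filter.eventually_atTop.1 hev
  have h0 : ∑ i ∈ univ.filter (fun i => a i < (1 / 2 : ℝ) ^ (j + J)), a i ^ 3 = 0 := by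
    refine sum_eq_zero fun i hi => ?_
    simp only [mem_filter, mem_univ, true_and] at hi
    rcases (ha i).eq_or_lt with h1 | h1
    · rw [← h1]
      norm_num
    · exact absurd (hJ (j + J) (by omega) i h1) (not_le.2 hi)
  have h1 := DyadicAux.layers a ha C h j J
  have h2 : 0 ≤ C * (7 / 8 : ℝ) ^ (j + J) := by positivity
  rw [h0] at h1
  linarith

end Pool.Agent.Lib.MP_4b8564_nt.Sg
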