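import Pool.Agent.Lib.MP_4b8564_nt.Sg.Defs

open Finset

noncomputable section

namespace Pool.Agent.Lib.MP_4b8564_nt.Sg

variable {N : ℕ} [NeZero N]

namespace FourierAux

theorem orth (t : ZMod N) :
    ∑ r : ZMod N, ZMod.stdAddChar (r * t) = if t = 0 then (N : ℂ) else 0 := by
  classical
  have := AddChar.sum_mulShift t (ZMod.isPrimitive_stdAddChar N)
  rw [this, ZMod.card]
  split_ifs <;> simp

theorem hN : (N : ℂ) ≠ 0 := Nat.cast_ne_zero.2 (NeZero.ne N)

theorem norm_psi (t : ZMod N) : ‖ZMod.stdAddChar t‖ = 1 := by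
  rw [ZMod.stdAddChar_apply]; exact Circle.norm_coe _

theorem normsq (B : Finset (ZMod N)) (r : ZMod N) :
    ((‖∑ u ∈ B, ZMod.stdAddChar (r * u)‖ ^ 2 : ℝ) : ℂ) =
      ∑ u ∈ B, ∑ v ∈ B, ZMod.stdAddChar (r * (v - u)) := by
  rw [Complex.ofReal_pow, ← Complex.conj_mul', map_sum, sum_mul_sum]
  refine sum_congr rfl fun u _ => sum_congr rfl fun v _ => ?_
  rw [← AddChar.map_neg_eq_conj, ← AddChar.map_add_eq_mul]
  congr 1; ring

end FourierAux

open FourierAux

theorem inversion (F : ZMod N → ℝ) (x : ZMod N) :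
    (F x : ℂ) = ∑ r : ZMod N, ft N F r * ZMod.stdAddChar (-(r * x)) := by
  classical
  have h : ∀ r : ZMod N, ft N F r * ZMod.stdAddChar (-(r * x)) =
      (∑ y : ZMod N, (F y : ℂ) * ZMod.stdAddChar (r * (y - x))) / (N : ℂ) := by
    intro r
    rw [ft, div_mul_eq_mul_div, sum_mul]
    congr 1
    refine sum_congr rfl fun y _ => ?_
    rw [mul_assoc, ← AddChar.map_add_eq_mul]
    congr 2; ring
  simp only [h]
  rw [← sum_div, sum_comm]
  simp only [← mul_sum, orth, sub_eq_zero, mul_ite, mul_zero, sum_ite_eq', mem_univ, if_true]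
  rw [mul_div_assoc, div_self hN, mul_one]

theorem lam3_eq (f : ZMod N → ℝ) :
    (lam3 N f : ℂ) = ∑ r : ZMod N, ft N f r ^ 2 * ft N f (-2 * r) := by
  classical
  have h : ∀ r : ZMod N, ft N f r ^ 2 * ft N f (-2 * r) =
      (∑ a : ZMod N, ∑ b : ZMod N, (f a : ℂ) * f b *
        (ft N f r * ZMod.stdAddChar (-(r * (2 * b - a))))) / (N : ℂ) ^ 2 := by
    intro r
    have e : ft N f r * ft N f (-2 * r) = (∑ a : ZMod N, ∑ b : ZMod N, (f a : ℂ) * f b *
        ZMod.stdAddChar (-(r * (2 * b - a)))) / (N : ℂ) ^ 2 := by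
      rw [ft, ft, div_mul_div_comm, sum_mul_sum, pow_two]
      congr 1
      refine sum_congr rfl fun a _ => sum_congr rfl fun b _ => ?_
      rw [mul_mul_mul_comm, ← AddChar.map_add_eq_mul]
      congr 2; ring
    rw [pow_two, mul_assoc, e, ← mul_div_assoc, mul_sum]
    congr 1
    refine sum_congr rfl fun a _ => ?_
    rw [mul_sum]
    refine sum_congr rfl fun b _ => by ring
  simp only [h]
  rw [← sum_div, lam3]
  push_cast
  congr 1
  symm
  rw [sum_comm]
  refine sum_congr rfl fun a _ => ?_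
  rw [sum_comm]
  simp only [← mul_sum, ← inversion]
  symm
  refine Fintype.sum_equiv (Equiv.addLeft a) _ _ fun d => ?_
  simp only [Equiv.coe_addLeft]
  congr 3; ring

theorem ft_sm (B : Finset (ZMod N)) (F : ZMod N → ℝ) (r : ZMod N) :
    ft N (sm B F) r = ft N F r * (mu B r : ℂ) := by
  have key : ∀ u v : ZMod N, ∑ x : ZMod N, (F (x + u - v) : ℂ) * ZMod.stdAddChar (r * x) =
      (∑ y : ZMod N, (F y : ℂ) * ZMod.stdAddChar (r * y)) * ZMod.stdAddChar (r * (v - u)) := by
    intro u v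
    rw [sum_mul]
    refine Fintype.sum_equiv (Equiv.addRight (u - v)) _ _ fun x => ?_
    simp only [Equiv.coe_addRight]
    rw [mul_assoc, ← AddChar.map_add_eq_mul]
    congr 2
    · congr 1; ring
    · ring
  rw [mu, Complex.ofReal_div, normsq, ft, ft, div_mul_div_comm, mul_comm (N : ℂ), ← div_div]
  congr 1
  simp only [sm, Complex.ofReal_div, Complex.ofReal_sum, div_mul_eq_mul_div, ← sum_div]
  congr 1
  simp only [sum_mul, mul_sum, ← key]
  rw [sum_comm]
  refine sum_congr rfl fun u _ => ?_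
  rw [sum_comm]

theorem mu_nonneg (B : Finset (ZMod N)) (r : ZMod N) : 0 ≤ mu B r := by
  unfold mu; positivity

theorem mu_le_one (B : Finset (ZMod N)) (r : ZMod N) : mu B r ≤ 1 := by
  refine div_le_one_of_le₀ (pow_le_pow_left₀ (norm_nonneg _) ?_ 2) (by positivity)
  refine (norm_sum_le _ _).trans ?_
  simp

theorem sum_mu (B : Finset (ZMod N)) (hB : B.Nonempty) :
    ∑ r : ZMod N, mu B r = (N : ℝ) / B.card := by
  classical
  have hc : (B.card : ℝ) ≠ 0 := Nat.cast_ne_zero.2 hB.card_pos.ne'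
  have h : ∑ r : ZMod N, ‖∑ u ∈ B, ZMod.stdAddChar (r * u)‖ ^ 2 = (N : ℝ) * B.card := by
    apply Complex.ofReal_injective
    rw [Complex.ofReal_sum]
    simp only [normsq]
    rw [sum_comm]
    have : ∀ u ∈ B, ∑ r : ZMod N, ∑ v ∈ B, ZMod.stdAddChar (r * (v - u)) = (N : ℂ) := by
      intro u hu
      rw [sum_comm]
      simp only [orth, sub_eq_zero, sum_ite_eq', hu, if_true]
    rw [sum_congr rfl this]
    simp [mul_comm]
  simp only [mu, ← sum_div, h]
  field_simp

theorem sum_sm (B : Finset (ZMod N)) (hB : B.Nonempty) (F : ZMod N → ℝ) :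
    ∑ x, sm B F x = ∑ x, F x := by
  have hc : (B.card : ℝ) ≠ 0 := Nat.cast_ne_zero.2 hB.card_pos.ne'
  have key : ∀ u v : ZMod N, ∑ x : ZMod N, F (x + u - v) = ∑ y, F y := fun u v =>
    Fintype.sum_equiv (Equiv.addRight (u - v)) _ _ fun x => by
      simp only [Equiv.coe_addRight]; congr 1; ring
  simp only [sm, ← sum_div]
  rw [sum_comm]
  have : ∀ u ∈ B, ∑ x : ZMod N, ∑ v ∈ B, F (x + u - v) = B.card * ∑ y, F y := by
    intro u _
    rw [sum_comm]
    simp [key]
  rw [sum_congr rfl this]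
  simp only [sum_const, nsmul_eq_mul]
  field_simp

/-- a function with small Fourier coefficients is uniformly small after smoothing -/
theorem abs_sm_le (B : Finset (ZMod N)) (hB : B.Nonempty) (F : ZMod N → ℝ) (η : ℝ)
    (h : ∀ r, ‖ft N F r‖ ≤ η) (x : ZMod N) : |sm B F x| ≤ η * ((N : ℝ) / B.card) := by
  rw [← Real.norm_eq_abs, ← Complex.norm_real, inversion (sm B F) x, ← sum_mu B hB, mul_sum]
  refine (norm_sum_le _ _).trans (sum_le_sum fun r _ => ?_)
  rw [norm_mul, norm_psi, mul_one, ft_sm, norm_mul, Complex.norm_real,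
    Real.norm_of_nonneg (mu_nonneg B r)]
  exact mul_le_mul_of_nonneg_right (h r) (mu_nonneg B r)

theorem norm_ft_le (f : ZMod N → ℝ) (hf : ∀ x, 0 ≤ f x) (r : ZMod N) :
    ‖ft N f r‖ ≤ (∑ x, f x) / N := by
  rw [ft, norm_div, Complex.norm_natCast]
  refine div_le_div_of_nonneg_right ((norm_sum_le _ _).trans (sum_le_sum fun x _ => ?_))
    (Nat.cast_nonneg N)
  rw [norm_mul, norm_psi, mul_one, Complex.norm_real, Real.norm_of_nonneg (hf x)]

/-- Fourier coefficients of a function given on representatives -/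
theorem ft_eq_range (F : ℕ → ℝ) (r : ZMod N) :
    ft N (fun x => F x.val) r =
      (∑ n ∈ range N, (F n : ℂ) * ee (n * ((r.val : ℝ) / N))) / (N : ℂ) := by
  rw [ft]
  congr 1
  refine sum_bij (fun x _ => x.val) (fun x _ => mem_range.2 (ZMod.val_lt x))
    (fun a _ b _ h => ZMod.val_injective N h)
    (fun n hn => ⟨(n : ZMod N), mem_univ _, ZMod.val_cast_of_lt (mem_range.1 hn)⟩) fun x _ => ?_
  congr 1
  have : r * x = ((r.val * x.val : ℕ) : ℤ) := by simp
  rw [this, ZMod.stdAddChar_coe, ee]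
  congr 1
  push_cast
  ring

end Pool.Agent.Lib.MP_4b8564_nt.Sg
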