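import Pool.Agent.Lib.MP_4b8564_nt.Sg.Defs

open Finset

noncomputable section

namespace Pool.Agent.Lib.MP_4b8564_nt.Sg

namespace SpacedAux

theorem norm_ee (t : ℝ) : ‖ee t‖ = 1 := by
  have h : (2 * Real.pi * t * Complex.I : ℂ) = ((2 * Real.pi * t : ℝ) : ℂ) * Complex.I := by
    push_cast; ring
  rw [ee, h, Complex.norm_exp_ofReal_mul_I]

theorem ee_nat_mul (n : ℕ) (t : ℝ) : ee (n * t) = ee t ^ n := by
  unfold ee
  rw [← Complex.exp_nat_mul]
  congr 1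
  push_cast; ring

theorem norm_ee_sub_one (t : ℝ) : ‖ee t - 1‖ = 2 * |Real.sin (Real.pi * t)| := by
  have h : (2 * Real.pi * t * Complex.I : ℂ) = Complex.I * ((2 * Real.pi * t : ℝ) : ℂ) := by
    push_cast; ring
  rw [ee, h, Complex.norm_exp_I_mul_ofReal_sub_one]
  have h2 : 2 * Real.pi * t / 2 = Real.pi * t := by ring
  rw [h2, Real.norm_eq_abs, abs_mul]
  norm_num

theorem sin_lower (t δ : ℝ) (h : ∀ k : ℤ, δ / 2 ≤ |t - k|) :
    δ ≤ |Real.sin (Real.pi * t)| := by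
  have hs : |t - round t| ≤ 1 / 2 := abs_sub_round t
  have h1 := h (round t)
  have e : Real.pi * t = Real.pi * (t - round t) + (round t : ℤ) * Real.pi := by ring
  have e2 : |Real.sin (Real.pi * t)| = |Real.sin (Real.pi * (t - round t))| := by
    rw [e, Real.sin_add_int_mul_pi, abs_mul]
    have : |((-1 : ℝ) ^ (round t))| = 1 := by
      rw [abs_zpow]; simp
    rw [this, one_mul]
  have hpi := Real.pi_pos
  have h3 : |Real.pi * (t - round t)| ≤ Real.pi / 2 := by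
    rw [abs_mul, abs_of_pos hpi]; nlinarith
  have h4 := Real.mul_abs_le_abs_sin h3
  rw [abs_mul, abs_of_pos hpi] at h4
  have h5 : 2 / Real.pi * (Real.pi * |t - round t|) = 2 * |t - round t| := by
    field_simp
  rw [e2]; linarith

theorem geom_le (t δ : ℝ) (hδ : 0 < δ) (h : ∀ k : ℤ, δ / 2 ≤ |t - k|) (N : ℕ) :
    ‖∑ n ∈ range N, ee (n * t)‖ ≤ 1 / δ := by
  have h1 : 2 * δ ≤ ‖ee t - 1‖ := by
    rw [norm_ee_sub_one]; linarith [sin_lower t δ h]
  have h2 : (∑ n ∈ range N, ee t ^ n) * (ee t - 1) = ee t ^ N - 1 := geom_sum_mul _ _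
  have h3 : ‖ee t ^ N - 1‖ ≤ 2 := by
    calc ‖ee t ^ N - 1‖ ≤ ‖ee t ^ N‖ + ‖(1 : ℂ)‖ := norm_sub_le _ _
      _ = 2 := by rw [norm_pow, norm_ee]; norm_num
  simp only [ee_nat_mul]
  rw [← h2, norm_mul] at h3
  rw [le_div_iff₀ hδ]
  nlinarith [norm_nonneg (∑ n ∈ range N, ee t ^ n)]

theorem triv_le (t : ℝ) (N : ℕ) : ‖∑ n ∈ range N, ee (n * t)‖ ≤ N := by
  calc ‖∑ n ∈ range N, ee (n * t)‖ ≤ ∑ n ∈ range N, ‖ee (n * t)‖ := norm_sum_le _ _
    _ = N := by simp [norm_ee]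

end SpacedAux

open SpacedAux in
/-- exponential sums with well spaced frequencies -/
theorem spaced {ι : Type} (I : Finset ι) (θ : ι → ℝ) (c : ι → ℂ) (η δ : ℝ) (hη : 0 ≤ η)
    (hδ : 0 < δ) (hc : ∀ i ∈ I, ‖c i‖ ≤ η)
    (hθ : ∀ i ∈ I, ∀ j ∈ I, i ≠ j → ∀ k : ℤ, δ ≤ |θ i - θ j - k|) (N : ℕ) :
    ‖∑ n ∈ range N, ∑ i ∈ I, c i * ee (n * θ i)‖ ≤ η * (N + I.card / δ) := by
  classical
  set B := I.filter (fun i => ∃ k : ℤ, |θ i - k| < δ / 2) with hB
  have hB1 : B.card ≤ 1 := by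
    rw [card_le_one]
    intro i hi j hj
    by_contra hij
    obtain ⟨hi, k, hk⟩ := mem_filter.1 hi
    obtain ⟨hj, l, hl⟩ := mem_filter.1 hj
    have h := hθ i hi j hj hij (k - l)
    have e : θ i - θ j - ((k - l : ℤ) : ℝ) = (θ i - k) - (θ j - l) := by push_cast; ring
    rw [e] at h
    have := abs_sub (θ i - k) (θ j - l)
    linarith
  have hone : ∀ i ∈ I, ‖∑ n ∈ range N, ee (n * θ i)‖ ≤ (if i ∈ B then (N : ℝ) else 0) + 1 / δ := by
    intro i hi
    have hp : 0 < 1 / δ := by positivity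
    by_cases h : i ∈ B
    · rw [if_pos h]; linarith [triv_le (θ i) N]
    · rw [if_neg h, zero_add]
      apply geom_le _ _ hδ
      intro k
      by_contra hk
      exact h (mem_filter.2 ⟨hi, k, not_le.1 hk⟩)
  have hsum : ∑ i ∈ I, (if i ∈ B then (N : ℝ) else 0) ≤ N := by
    rw [← sum_filter, sum_const, nsmul_eq_mul]
    have h1 : (I.filter (fun i => i ∈ B)).card ≤ 1 :=
      (card_le_card (fun i hi => (mem_filter.1 hi).2)).trans hB1
    have h2 : ((I.filter (fun i => i ∈ B)).card : ℝ) ≤ 1 := by exact_mod_cast h1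
    have h3 : (0 : ℝ) ≤ N := Nat.cast_nonneg N
    nlinarith
  rw [sum_comm]
  calc ‖∑ i ∈ I, ∑ n ∈ range N, c i * ee (n * θ i)‖
      ≤ ∑ i ∈ I, ‖∑ n ∈ range N, c i * ee (n * θ i)‖ := norm_sum_le _ _
    _ ≤ ∑ i ∈ I, η * ((if i ∈ B then (N : ℝ) else 0) + 1 / δ) := by
        apply sum_le_sum
        intro i hi
        rw [← mul_sum, norm_mul]
        exact mul_le_mul (hc i hi) (hone i hi) (norm_nonneg _) hη
    _ = η * (∑ i ∈ I, (if i ∈ B then (N : ℝ) else 0) + I.card / δ) := by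
        rw [← mul_sum, sum_add_distrib, sum_const, nsmul_eq_mul, mul_one_div]
    _ ≤ η * (N + I.card / δ) := by
        apply mul_le_mul_of_nonneg_left _ hη
        linarith

end Pool.Agent.Lib.MP_4b8564_nt.Sg
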