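import Pool.Agent.Lib.MP_4b8564_nt.Sg.Raman
import Pool.Agent.Lib.MP_4b8564_nt.Sg.Spaced

open Finset

noncomputable section

namespace Pool.Agent.Lib.MP_4b8564_nt.Sg

namespace FreqAux

lemma ee_add (s t : ℝ) : ee (s + t) = ee s * ee t := by
  unfold ee
  rw [← Complex.exp_add]
  congr 1
  push_cast
  ring

lemma norm_ee (t : ℝ) : ‖ee t‖ = 1 := by
  unfold ee
  have : (2 * Real.pi * t * Complex.I : ℂ) = ((2 * Real.pi * t : ℝ) : ℂ) * Complex.I := by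
    push_cast
    ring
  rw [this, Complex.norm_exp_ofReal_mul_I]

lemma iphi_nonneg {U : Finset ℕ} (hU : ∀ p ∈ U, p.Prime) : 0 ≤ iphi U := by
  unfold iphi
  refine prod_nonneg fun p hp => ?_
  have : (2 : ℝ) ≤ p := by exact_mod_cast (hU p hp).two_le
  exact div_nonneg zero_le_one (by linarith)

lemma prod_pos' {U : Finset ℕ} (hU : ∀ p ∈ U, p.Prime) : 0 < ∏ p ∈ U, p :=
  prod_pos fun p hp => (hU p hp).pos

lemma prod_inj {U V : Finset ℕ} (hU : ∀ p ∈ U, p.Prime) (hV : ∀ p ∈ V, p.Prime)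
    (h : ∏ p ∈ U, p = ∏ p ∈ V, p) : U = V := by
  rw [← Nat.primeFactors_prod hU, ← Nat.primeFactors_prod hV, h]

lemma dvd_of_eq {q q' a a' W : ℕ} {k : ℤ} (hW : Nat.Coprime q W) (ha : Nat.Coprime a q)
    (h : (W : ℤ) * (a * q' - a' * q) = k * q * q') : q ∣ q' := by
  have h1 : (q : ℤ) ∣ (W : ℤ) * (a * q') := ⟨k * q' + W * a', by linarith⟩
  have h2 : q ∣ W * (a * q') := by exact_mod_cast h1
  exact ha.symm.dvd_of_dvd_mul_left (hW.dvd_of_dvd_mul_left h2)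

lemma num_ne {q q' a a' W : ℕ} {k : ℤ} (hW : Nat.Coprime q W) (hW' : Nat.Coprime q' W)
    (ha : Nat.Coprime a q) (ha' : Nat.Coprime a' q') (hl : a < q) (hl' : a' < q')
    (h : (W : ℤ) * (a * q' - a' * q) = k * q * q') : q = q' ∧ a = a' := by
  have e : q = q' := Nat.dvd_antisymm (dvd_of_eq hW ha h)
    (dvd_of_eq (k := -k) (a' := a) hW' ha' (by linarith))
  subst e
  refine ⟨rfl, ?_⟩
  have hq : (q : ℤ) ≠ 0 := by
    have : 0 < q := lt_of_le_of_lt (Nat.zero_le _) hl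
    exact_mod_cast this.ne'
  have h1 : (W : ℤ) * (a - a') = k * q := mul_right_cancel₀ hq (by linarith)
  have h2 : (q : ℤ) ∣ (W : ℤ) * (a - a') := ⟨k, by linarith⟩
  have h3 : (q : ℤ) ∣ (a : ℤ) - a' :=
    (Nat.isCoprime_iff_coprime.2 hW).dvd_of_dvd_mul_left h2
  have h4 := Int.eq_zero_of_abs_lt_dvd h3 (by rw [abs_lt]; constructor <;> omega)
  omega

lemma gap {q q' a a' W Y : ℕ} (k : ℤ) (α : ℝ) (hq : 0 < q) (hq' : 0 < q') (hY : q ≤ Y)
    (hY' : q' ≤ Y) (h : (W : ℤ) * (a * q' - a' * q) ≠ k * q * q') :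
    1 / (Y : ℝ) ^ 2 ≤ |((a : ℝ) * W / q + α) - ((a' : ℝ) * W / q' + α) - k| := by
  have hq0 : (0 : ℝ) < q := by exact_mod_cast hq
  have hq1 : (0 : ℝ) < q' := by exact_mod_cast hq'
  have e : ((a : ℝ) * W / q + α) - ((a' : ℝ) * W / q' + α) - k =
      (((W : ℤ) * (a * q' - a' * q) - k * q * q' : ℤ) : ℝ) / (q * q') := by
    push_cast
    field_simp
    ring
  have h1 : (1 : ℝ) ≤ |(((W : ℤ) * (a * q' - a' * q) - k * q * q' : ℤ) : ℝ)| := by
    exact_mod_cast Int.one_le_abs (sub_ne_zero.2 h)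
  have h2 : (q : ℝ) * q' ≤ (Y : ℝ) ^ 2 := by
    have a1 : (q : ℝ) ≤ Y := by exact_mod_cast hY
    have a2 : (q' : ℝ) ≤ Y := by exact_mod_cast hY'
    rw [sq]
    exact mul_le_mul a1 a2 hq1.le (hq0.le.trans a1)
  rw [e, abs_div, abs_of_pos (mul_pos hq0 hq1)]
  exact div_le_div₀ (abs_nonneg _) h1 (mul_pos hq0 hq1) h2

end FreqAux

open FreqAux

theorem freq (P : Finset ℕ) (hP : ∀ p ∈ P, p.Prime) (W b Y : ℕ) (hW : ∀ p ∈ P, ¬ p ∣ W)
    (F : Finset (Finset ℕ)) (hF : F ⊆ fam P Y) (e : Finset ℕ → ℝ) (η : ℝ) (hη : 0 ≤ η)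
    (he : ∀ U ∈ F, |e U| * iphi U ≤ η) (N : ℕ) (α : ℝ) :
    ‖∑ n ∈ range N, ((∑ U ∈ F, e U * gS U (W * n + b) : ℝ) : ℂ) * ee (n * α)‖ ≤
      η * (N + (Y : ℝ) ^ 4) := by
  have hsub : ∀ U ∈ F, U ⊆ P := fun U hU => mem_powerset.1 (mem_filter.1 (hF hU)).1
  have hpr : ∀ U ∈ F, ∀ p ∈ U, p.Prime := fun U hU p hp => hP p (hsub U hU hp)
  have hle : ∀ U ∈ F, ∏ p ∈ U, p ≤ Y := fun U hU => (mem_filter.1 (hF hU)).2
  have hpos : ∀ U ∈ F, 0 < ∏ p ∈ U, p := fun U hU => prod_pos' (hpr U hU)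
  have hcop : ∀ U ∈ F, Nat.Coprime (∏ p ∈ U, p) W := fun U hU =>
    Nat.Coprime.prod_left fun p hp =>
      (Nat.Prime.coprime_iff_not_dvd (hpr U hU p hp)).2 (hW p (hsub U hU hp))
  rcases Nat.eq_zero_or_pos Y with hY | hY
  · have : F = ∅ := eq_empty_of_forall_notMem fun U hU => by
      have := hle U hU
      have := hpos U hU
      omega
    subst this
    simp only [sum_empty, Complex.ofReal_zero, zero_mul, sum_const_zero, norm_zero]
    positivity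
  have hYr : (0 : ℝ) < Y := by exact_mod_cast hY
  let I : Finset (Σ _ : Finset ℕ, ℕ) := F.sigma fun U =>
    (range (∏ p ∈ U, p)).filter fun a => Nat.Coprime a (∏ p ∈ U, p)
  let θ : (Σ _ : Finset ℕ, ℕ) → ℝ := fun i =>
    (i.2 : ℝ) * W / ((∏ p ∈ i.1, p : ℕ) : ℝ) + α
  let c : (Σ _ : Finset ℕ, ℕ) → ℂ := fun i =>
    (e i.1 : ℂ) * ((-1) ^ i.1.card * (iphi i.1 : ℂ)) *
      ee ((i.2 : ℝ) * b / ((∏ p ∈ i.1, p : ℕ) : ℝ))
  have hI : ∀ i ∈ I, i.1 ∈ F ∧ i.2 < ∏ p ∈ i.1, p ∧ Nat.Coprime i.2 (∏ p ∈ i.1, p) := by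
    intro i hi
    obtain ⟨h1, h2⟩ := mem_sigma.1 hi
    exact ⟨h1, mem_range.1 (mem_filter.1 h2).1, (mem_filter.1 h2).2⟩
  have key := spaced I θ c η (1 / (Y : ℝ) ^ 2) hη (by positivity) (fun i hi => by
    obtain ⟨h1, -, -⟩ := hI i hi
    simp only [c, norm_mul, norm_ee, norm_pow, norm_neg, norm_one, one_pow, one_mul, mul_one,
      Complex.norm_real, Real.norm_eq_abs, abs_of_nonneg (iphi_nonneg (hpr _ h1))]
    exact he _ h1) (fun i hi j hj hij k => by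
    obtain ⟨h1, h2, h3⟩ := hI i hi
    obtain ⟨g1, g2, g3⟩ := hI j hj
    refine gap k α (hpos _ h1) (hpos _ g1) (hle _ h1) (hle _ g1) fun h => hij ?_
    obtain ⟨e1, e2⟩ := num_ne (hcop _ h1) (hcop _ g1) h3 g3 h2 g2 h
    exact Sigma.ext (prod_inj (hpr _ h1) (hpr _ g1) e1) (heq_of_eq e2)) N
  have hsum : ∀ n : ℕ, ((∑ U ∈ F, e U * gS U (W * n + b) : ℝ) : ℂ) * ee (n * α) =
      ∑ i ∈ I, c i * ee (n * θ i) := by
    intro n
    rw [sum_sigma, Complex.ofReal_sum, sum_mul]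
    refine sum_congr rfl fun U hU => ?_
    rw [Complex.ofReal_mul, raman U (hpr U hU), mul_sum, mul_sum, sum_mul]
    refine sum_congr rfl fun a _ => ?_
    simp only [c, θ]
    rw [mul_assoc _ (ee _) (ee _), ← ee_add, ← mul_assoc, mul_assoc _ (ee _) (ee _), ← ee_add]
    congr 2
    push_cast
    ring
  have hcardF : F.card ≤ Y := by
    have : F.card ≤ (Icc 1 Y).card :=
      card_le_card_of_injOn (fun U => ∏ p ∈ U, p)
        (fun U hU => by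
          have hU' : U ∈ F := mem_coe.1 hU
          exact mem_coe.2 (mem_Icc.2 ⟨hpos U hU', hle U hU'⟩))
        (fun U hU V hV h => prod_inj (hpr U (mem_coe.1 hU)) (hpr V (mem_coe.1 hV)) h)
    simpa using this
  have hcardI : I.card ≤ Y ^ 2 := by
    rw [card_sigma]
    calc _ ≤ F.card • Y := sum_le_card_nsmul _ _ _ fun U hU =>
          ((card_filter_le _ _).trans (by rw [card_range])).trans (hle U hU)
      _ ≤ Y ^ 2 := by rw [smul_eq_mul, sq]; exact Nat.mul_le_mul_right _ hcardF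
  rw [sum_congr rfl fun n _ => hsum n]
  refine key.trans (mul_le_mul_of_nonneg_left ?_ hη)
  have h2 : (I.card : ℝ) ≤ (Y : ℝ) ^ 2 := by exact_mod_cast hcardI
  have h3 : (I.card : ℝ) / (1 / (Y : ℝ) ^ 2) ≤ (Y : ℝ) ^ 4 := by
    rw [div_div_eq_mul_div, div_one, show (Y : ℝ) ^ 4 = (Y : ℝ) ^ 2 * (Y : ℝ) ^ 2 by ring]
    exact mul_le_mul_of_nonneg_right h2 (by positivity)
  linarith

end Pool.Agent.Lib.MP_4b8564_nt.Sg
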