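import Pool.Agent.Lib.MP_4b8564_nt.Sg.Defs

open Finset

noncomputable section

namespace Pool.Agent.Lib.MP_4b8564_nt.Sg

namespace LevelAux

variable {N : ℕ} [NeZero N]

/-- the trigonometric polynomial with frequencies in `S` and coefficients `c` -/
def TT (S : Finset (ZMod N)) (c : ZMod N → ℂ) (x : ZMod N) : ℂ :=
  ∑ r ∈ S, c r * ZMod.stdAddChar (r * x)

theorem norm_psi (t : ZMod N) : ‖(ZMod.stdAddChar t : ℂ)‖ = 1 := by
  rw [ZMod.stdAddChar_apply]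
  exact Circle.norm_coe _

theorem conj_psi (t : ZMod N) :
    (starRingEnd ℂ) (ZMod.stdAddChar t : ℂ) = ZMod.stdAddChar (-t) := by
  rw [AddChar.map_neg_eq_conj]

theorem N_ne : (N : ℂ) ≠ 0 := by exact_mod_cast NeZero.ne N

theorem quad (S : Finset (ZMod N)) (c : ZMod N → ℂ) (F : ZMod N → ℝ) :
    ((∑ x, F x * ‖TT S c x‖ ^ 2 : ℝ) : ℂ) =
      ∑ r ∈ S, ∑ s ∈ S, c r * (starRingEnd ℂ) (c s) * (ft N F (r - s) * N) := by
  have h1 : ∀ x, ((‖TT S c x‖ ^ 2 : ℝ) : ℂ) =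
      ∑ r ∈ S, ∑ s ∈ S, c r * (starRingEnd ℂ) (c s) * ZMod.stdAddChar ((r - s) * x) := by
    intro x
    rw [← Complex.normSq_eq_norm_sq, ← Complex.mul_conj, TT, map_sum, sum_mul_sum]
    refine sum_congr rfl fun r _ => sum_congr rfl fun s _ => ?_
    rw [map_mul (starRingEnd ℂ), conj_psi, show (r - s) * x = r * x + -(s * x) by ring, AddChar.map_add_eq_mul]
    ring
  rw [Complex.ofReal_sum]
  simp_rw [Complex.ofReal_mul, h1, mul_sum]
  rw [sum_comm]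
  refine sum_congr rfl fun r _ => ?_
  rw [sum_comm]
  refine sum_congr rfl fun s _ => ?_
  rw [ft, div_mul_cancel₀ _ N_ne, mul_sum]
  refine sum_congr rfl fun x _ => ?_
  ring

theorem ft_one (t : ZMod N) : ft N (fun _ => (1 : ℝ)) t * N = if t = 0 then (N : ℂ) else 0 := by
  rw [ft, div_mul_cancel₀ _ N_ne]
  have h := AddChar.sum_mulShift t (ZMod.isPrimitive_stdAddChar N)
  simp only [Complex.ofReal_one, one_mul]
  simp_rw [mul_comm t]
  rw [h, ZMod.card]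
  split_ifs <;> simp

theorem parseval (S : Finset (ZMod N)) (c : ZMod N → ℂ) (hc : ∀ r, ‖c r‖ = 1) :
    ∑ x, ‖TT S c x‖ ^ 2 = (S.card : ℝ) * N := by
  have h := quad S c (fun _ => 1)
  simp only [one_mul, ft_one] at h
  have h2 : ∀ r ∈ S, ∑ s ∈ S, c r * (starRingEnd ℂ) (c s) * (if r - s = 0 then (N : ℂ) else 0)
      = N := by
    intro r hr
    rw [sum_eq_single r]
    · rw [if_pos (sub_self r), Complex.mul_conj, Complex.normSq_eq_norm_sq, hc]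
      simp
    · intro s _ hs
      rw [if_neg (fun h => hs (sub_eq_zero.1 h).symm), mul_zero]
    · intro h
      exact absurd hr h
  rw [sum_congr rfl h2, sum_const, nsmul_eq_mul] at h
  exact_mod_cast h

theorem quad_le (S : Finset (ZMod N)) (c : ZMod N → ℂ) (hc : ∀ r, ‖c r‖ = 1) (F : ZMod N → ℝ)
    (η : ℝ) (h : ∀ r, ‖ft N F r‖ ≤ η) :
    ∑ x, F x * ‖TT S c x‖ ^ 2 ≤ (S.card : ℝ) ^ 2 * η * N := by
  have h1 : ∑ x, F x * ‖TT S c x‖ ^ 2 ≤ ‖((∑ x, F x * ‖TT S c x‖ ^ 2 : ℝ) : ℂ)‖ := by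
    rw [Complex.norm_real]
    exact le_abs_self _
  refine h1.trans ?_
  rw [quad]
  calc ‖∑ r ∈ S, ∑ s ∈ S, c r * (starRingEnd ℂ) (c s) * (ft N F (r - s) * N)‖
      ≤ ∑ r ∈ S, ∑ s ∈ S, η * N := by
        refine (norm_sum_le _ _).trans (sum_le_sum fun r _ => ?_)
        refine (norm_sum_le _ _).trans (sum_le_sum fun s _ => ?_)
        rw [norm_mul, norm_mul, norm_mul, Complex.norm_conj, hc, hc, Complex.norm_natCast,
          one_mul, one_mul]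
        exact mul_le_mul_of_nonneg_right (h _) (Nat.cast_nonneg _)
    _ = (S.card : ℝ) ^ 2 * η * N := by
        simp only [sum_const, nsmul_eq_mul]
        ring

theorem norm_TT_le (S : Finset (ZMod N)) (c : ZMod N → ℂ) (hc : ∀ r, ‖c r‖ = 1) (x : ZMod N) :
    ‖TT S c x‖ ≤ S.card := by
  refine (norm_sum_le _ _).trans ?_
  simp [hc]

theorem dual (S : Finset (ZMod N)) (c : ZMod N → ℂ) (f : ZMod N → ℝ) (hf : ∀ x, 0 ≤ f x)
    (hc : ∀ r, ((‖ft N f r‖ : ℝ) : ℂ) = c r * ft N f r) :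
    (∑ r ∈ S, ‖ft N f r‖) * N ≤ ∑ x, f x * ‖TT S c x‖ := by
  have h1 : (((∑ r ∈ S, ‖ft N f r‖) * N : ℝ) : ℂ) = ∑ x, (f x : ℂ) * TT S c x := by
    rw [Complex.ofReal_mul, Complex.ofReal_sum, sum_mul]
    simp_rw [hc, TT, mul_sum]
    rw [sum_comm]
    refine sum_congr rfl fun r _ => ?_
    rw [Complex.ofReal_natCast, mul_assoc, ft, div_mul_cancel₀ _ N_ne, mul_sum]
    refine sum_congr rfl fun x _ => ?_
    ring
  have h2 : (∑ r ∈ S, ‖ft N f r‖) * N ≤ ‖(((∑ r ∈ S, ‖ft N f r‖) * N : ℝ) : ℂ)‖ := by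
    rw [Complex.norm_real]
    exact le_abs_self _
  refine h2.trans ?_
  rw [h1]
  refine (norm_sum_le _ _).trans (sum_le_sum fun x _ => ?_)
  rw [norm_mul, Complex.norm_real, Real.norm_of_nonneg (hf x)]

theorem le_trunc (y D : ℝ) (hD : 0 < D) : y ≤ D + y ^ 4 / D ^ 3 := by
  have h0 : 0 ≤ y ^ 4 / D ^ 3 := by positivity
  rcases le_or_gt y D with h | h
  · linarith
  · have h1 : y ≤ y ^ 4 / D ^ 3 := by
      rw [le_div_iff₀ (by positivity)]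
      have h2 : D ^ 3 ≤ y ^ 3 := pow_le_pow_left₀ hD.le h.le 3
      nlinarith
    linarith

end LevelAux

open LevelAux in
/-- level sets of the Fourier transform of a function below a majorant -/
theorem level {N : ℕ} [NeZero N] (f ν ν' : ZMod N → ℝ) (hf : ∀ x, 0 ≤ f x) (hfν : ∀ x, f x ≤ ν x)
    (hν : ∑ x, ν x ≤ 2 * N) (ε D : ℝ) (hε : 0 < ε) (hD : 0 < D)
    (hρ : ∀ r, ‖ft N (fun x => ν x - ν' x) r‖ ≤ ε ^ 2 / 8)
    (hK : ∑ x, ν' x ^ 4 ≤ D ^ 3 * ε ^ 2 / 8 * N) :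
    ((univ.filter fun r : ZMod N => ε ≤ ‖ft N f r‖).card : ℝ) ≤ 4 * D / ε ^ 2 := by
  set S := univ.filter fun r : ZMod N => ε ≤ ‖ft N f r‖ with hS
  choose c hc1 hc2 using fun r => Complex.exists_norm_eq_mul_self (ft N f r)
  set R : ℝ := (S.card : ℝ) with hR
  have hR0 : 0 ≤ R := Nat.cast_nonneg _
  have hN : (0 : ℝ) < N := by exact_mod_cast Nat.pos_of_ne_zero (NeZero.ne N)
  have hν0 : ∀ x, 0 ≤ ν x := fun x => (hf x).trans (hfν x)
  have a1 : ε * R * N ≤ ∑ x, ν x * ‖TT S c x‖ := by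
    have b1 : R * ε ≤ ∑ r ∈ S, ‖ft N f r‖ := by
      have := card_nsmul_le_sum S (fun r => ‖ft N f r‖) ε (fun r hr => (mem_filter.1 hr).2)
      rwa [nsmul_eq_mul] at this
    have b2 := dual S c f hf hc2
    have b3 : ∑ x, f x * ‖TT S c x‖ ≤ ∑ x, ν x * ‖TT S c x‖ :=
      sum_le_sum fun x _ => mul_le_mul_of_nonneg_right (hfν x) (norm_nonneg _)
    have b4 := mul_le_mul_of_nonneg_right b1 hN.le
    linarith
  have a2 : ε * R * ∑ x, ν x * ‖TT S c x‖ ≤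
      (ε * R) ^ 2 / 4 * ∑ x, ν x + ∑ x, ν x * ‖TT S c x‖ ^ 2 := by
    rw [mul_sum, mul_sum, ← sum_add_distrib]
    refine sum_le_sum fun x _ => ?_
    have := mul_nonneg (hν0 x) (sq_nonneg (ε * R / 2 - ‖TT S c x‖))
    nlinarith
  have a3 := quad_le S c hc1 (fun x => ν x - ν' x) _ hρ
  have a4 : ∑ x, ν' x * ‖TT S c x‖ ^ 2 ≤
      D * ∑ x, ‖TT S c x‖ ^ 2 + R ^ 2 / D ^ 3 * ∑ x, ν' x ^ 4 := by
    rw [mul_sum, mul_sum, ← sum_add_distrib]
    refine sum_le_sum fun x _ => ?_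
    have b1 := mul_le_mul_of_nonneg_right (le_trunc (ν' x) D hD) (sq_nonneg ‖TT S c x‖)
    have b2 : ‖TT S c x‖ ^ 2 ≤ R ^ 2 := pow_le_pow_left₀ (norm_nonneg _) (norm_TT_le S c hc1 x) 2
    have b3 := mul_le_mul_of_nonneg_left b2 (show 0 ≤ ν' x ^ 4 / D ^ 3 by positivity)
    have b4 : R ^ 2 / D ^ 3 * ν' x ^ 4 = ν' x ^ 4 / D ^ 3 * R ^ 2 := by ring
    rw [b4]
    linarith
  rw [parseval S c hc1] at a4
  have a5 : R ^ 2 / D ^ 3 * ∑ x, ν' x ^ 4 ≤ R ^ 2 * (ε ^ 2 / 8) * N := by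
    have b1 := mul_le_mul_of_nonneg_left hK (show 0 ≤ R ^ 2 / D ^ 3 by positivity)
    have b2 : R ^ 2 / D ^ 3 * (D ^ 3 * ε ^ 2 / 8 * N) = R ^ 2 * (ε ^ 2 / 8) * N := by
      field_simp
    linarith
  have a6 : ∑ x, ν x * ‖TT S c x‖ ^ 2 =
      ∑ x, (ν x - ν' x) * ‖TT S c x‖ ^ 2 + ∑ x, ν' x * ‖TT S c x‖ ^ 2 := by
    rw [← sum_add_distrib]
    exact sum_congr rfl fun x _ => by ring
  have a7 := mul_le_mul_of_nonneg_left a1 (show 0 ≤ ε * R by positivity)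
  have a8 := mul_le_mul_of_nonneg_left hν (show 0 ≤ (ε * R) ^ 2 / 4 by positivity)
  have a9 : (R * N) * (ε ^ 2 * R) ≤ (R * N) * (4 * D) := by
    rw [← hR] at a3 a4
    nlinarith
  rw [le_div_iff₀ (by positivity)]
  rcases hR0.eq_or_lt with h0 | h0
  · rw [← h0]
    have : 0 ≤ 4 * D := by positivity
    linarith
  · have := le_of_mul_le_mul_left a9 (by positivity)
    linarith

end Pool.Agent.Lib.MP_4b8564_nt.Sg
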