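import Pool.Agent.Lib.MP_4b8564_nt.Sg.MajorNu
import Pool.Agent.Lib.MP_4b8564_nt.Sg.GGge
import Pool.Agent.Lib.MP_4b8564_nt.Sg.Dens

open Finset

noncomputable section

namespace Pool.Agent.Lib.MP_4b8564_nt.Sg

namespace MajorAux

theorem exists_root (N : ℕ) (hN : 256 ^ 8 ≤ N) :
    ∃ R : ℕ, 256 ≤ R ∧ R ^ 8 ≤ N ∧ N ≤ R ^ 9 := by
  have hex : ∃ R : ℕ, N < (R + 1) ^ 8 :=
    ⟨N, (Nat.lt_succ_self N).trans_le (Nat.le_self_pow (by norm_num) _)⟩
  have h1 := Nat.find_spec hex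
  have h2 : 256 ≤ Nat.find hex := by
    have := lt_of_pow_lt_pow_left₀ 8 (Nat.zero_le _) (hN.trans_lt h1)
    omega
  have h3 := Nat.find_min hex (show Nat.find hex - 1 < Nat.find hex by omega)
  rw [show Nat.find hex - 1 + 1 = Nat.find hex by omega] at h3
  refine ⟨_, h2, not_lt.mp h3, h1.le.trans ?_⟩
  generalize Nat.find hex = R at h2
  calc (R + 1) ^ 8 ≤ (2 * R) ^ 8 := Nat.pow_le_pow_left (by omega) 8
    _ = 256 * R ^ 8 := by ring
    _ ≤ R * R ^ 8 := Nat.mul_le_mul_right _ h2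
    _ = R ^ 9 := by ring

theorem sum_le (N : ℕ) [NeZero N] (ν : ZMod N → ℝ) (h : ‖ft N (fun x => ν x - 1) 0‖ ≤ 1) :
    ∑ x, ν x ≤ 2 * N := by
  have hN : (0 : ℝ) < N := by exact_mod_cast Nat.pos_of_ne_zero (NeZero.ne N)
  have e : ft N (fun x => ν x - 1) 0 = (((∑ x, ν x - N) / N : ℝ) : ℂ) := by
    simp [ft, sum_sub_distrib]
  rw [e, Complex.norm_real, Real.norm_eq_abs] at h
  have := (div_le_one hN).mp (abs_le.mp h).2
  linarith

theorem card_le (N : ℕ) [NeZero N] (ν : ZMod N → ℝ) (h0 : ∀ x, 0 ≤ ν x) (A : Finset ℕ) (G : ℝ)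
    (hA : ∀ n ∈ A, n < N) (hG : ∀ x : ZMod N, x.val ∈ A → ν x = G) :
    G * A.card ≤ ∑ x, ν x := by
  have hv : ∀ n ∈ A, ((n : ℕ) : ZMod N).val = n := fun n hn => ZMod.val_cast_of_lt (hA n hn)
  calc G * A.card = ∑ n ∈ A, ν (n : ZMod N) := by
        rw [sum_congr rfl fun n hn => hG _ (by rw [hv n hn]; exact hn)]
        simp [mul_comm]
    _ = ∑ x ∈ A.image (fun n : ℕ => (n : ZMod N)), ν x := by
        rw [sum_image fun a ha b hb e => by rw [← hv a ha, ← hv b hb, e]]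
    _ ≤ ∑ x, ν x := sum_le_sum_of_subset_of_nonneg (subset_univ _) fun x _ _ => h0 x

end MajorAux

open MajorAux in
theorem major (η : ℝ) (hη : 0 < η) (hη1 : η ≤ 1) : ∃ W : ℕ, 1 ≤ W ∧ ∃ N₀ : ℕ,
    ∀ (N : ℕ) [NeZero N], N₀ ≤ N → ∃ b < W, ∃ (A : Finset ℕ) (G : ℝ) (ν : ZMod N → ℝ),
      (∀ n ∈ A, 2 * n < N ∧ (W * n + b).Prime ∧ 3 < W * n + b) ∧ 0 < G ∧ G ≤ 20 * Real.log N ∧
      (∀ x, 0 ≤ ν x) ∧ (∀ x, x.val ∈ A → ν x = G) ∧ (1 / 200 : ℝ) * N ≤ G * A.card ∧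
      (∀ r, ‖ft N (fun x => ν x - 1) r‖ ≤ η) ∧ Split N ν := by
  obtain ⟨w, hw⟩ := major_nu η hη
  have hW : 1 ≤ primorial w := primorial_pos w
  obtain ⟨N₁, hN₁⟩ := dens (primorial w) hW
  refine ⟨primorial w, hW, max N₁ (256 ^ 8), fun N _ hN => ?_⟩
  obtain ⟨R, hR, h8, h9⟩ := exists_root N (le_of_max_le_right hN)
  have hR1 : 1 ≤ R := by omega
  obtain ⟨b, hb, A, hA, hc⟩ := hN₁ N R (le_of_max_le_left hN)
    ((Nat.pow_le_pow_right hR1 (by norm_num)).trans h8)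
  obtain ⟨hf, hs⟩ := hw N R b hR1 h8
  have hP : ∀ p ∈ PP w R, 2 ≤ p := fun p hp => (mem_filter.mp hp).2.two_le
  have hG1 := one_le_GG (PP w R) hP R hR1
  have hG0 : 0 < GG (PP w R) R := one_pos.trans_le hG1
  have hge := GG_ge w R hR1
  have h0 : ∀ x : ZMod N,
      0 ≤ beta (PP w R) R (primorial w * x.val + b) ^ 2 / GG (PP w R) R := fun x => by positivity
  have hval : ∀ x : ZMod N, x.val ∈ A →
      beta (PP w R) R (primorial w * x.val + b) ^ 2 / GG (PP w R) R = GG (PP w R) R := by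
    intro x hx
    obtain ⟨-, hp, hlt, -⟩ := hA _ hx
    rw [beta_eq_GG _ _ _ fun p hpP hd => ?_, sq, mul_div_assoc, div_self hG0.ne', mul_one]
    have h1 := (Nat.prime_dvd_prime_iff_eq (mem_filter.mp hpP).2 hp).mp hd
    have h2 := (mem_Ioc.mp (mem_filter.mp hpP).1).2
    omega
  have hup := (card_le N _ h0 A _ (fun n hn => by have := (hA n hn).1; omega) hval).trans
    (sum_le N _ ((hf 0).trans hη1))
  have hN0 : (0 : ℝ) < N := by exact_mod_cast Nat.pos_of_ne_zero (NeZero.ne N)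
  have hW0 : (0 : ℝ) < primorial w := by exact_mod_cast hW
  have hφ : (Nat.totient (primorial w) : ℝ) ≤ primorial w := by
    exact_mod_cast Nat.totient_le _
  have hφ0 : (0 : ℝ) ≤ Nat.totient (primorial w) := Nat.cast_nonneg _
  have hA0 : (0 : ℝ) ≤ A.card := Nat.cast_nonneg _
  have hl0 : 0 ≤ Real.log N := Real.log_natCast_nonneg N
  have hl9 : Real.log N ≤ 9 * Real.log R := by
    have : (N : ℝ) ≤ (R : ℝ) ^ 9 := by exact_mod_cast h9
    have h2 := Real.log_le_log hN0 this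
    rwa [Real.log_pow] at h2
  refine ⟨b, hb, A, GG (PP w R) R, _, fun n hn => ⟨(hA n hn).1, (hA n hn).2.1, (hA n hn).2.2.2⟩,
    hG0, ?_, h0, hval, ?_, hf, hs⟩
  · have h1 : (primorial w : ℝ) * N ≤ primorial w * (10 * (A.card * Real.log N)) := by
      have := mul_le_mul_of_nonneg_right hφ (mul_nonneg hA0 hl0)
      linarith
    have h2 := le_of_mul_le_mul_left h1 hW0
    have h3 := mul_le_mul_of_nonneg_left h2 hG0.le
    have h4 := mul_le_mul_of_nonneg_right hup hl0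
    have h5 : GG (PP w R) R * N ≤ 20 * Real.log N * N := by linarith
    exact le_of_mul_le_mul_right h5 hN0
  · rw [div_mul_eq_mul_div, div_le_iff₀ hW0] at hge
    have h1 := mul_le_mul_of_nonneg_left hl9 (mul_nonneg hφ0 hA0)
    have h2 := mul_le_mul_of_nonneg_right hge hA0
    have h3 : (primorial w : ℝ) * N ≤ primorial w * (90 * (GG (PP w R) R * A.card)) := by
      linarith
    have h4 := le_of_mul_le_mul_left h3 hW0
    linarith

end Pool.Agent.Lib.MP_4b8564_nt.Sg
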