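import Pool.Agent.Lib.MP_4b8564_nt.Sg.Defs

open Finset

noncomputable section

namespace Pool.Agent.Lib.MP_4b8564_nt.Sg

namespace MomentAux

theorem mem_fam {P S : Finset ℕ} {Y : ℕ} : S ∈ fam P Y ↔ S ⊆ P ∧ ∏ p ∈ S, p ≤ Y := by
  simp [fam]

theorem sq_le (P : Finset ℕ) (hP : ∀ p ∈ P, 1 ≤ p) (Y : ℕ) (x : ℕ → ℝ) (hx : ∀ p, 0 ≤ x p) :
    (∑ U ∈ fam P Y, ∏ p ∈ U, x p) ^ 2 ≤ ∑ U ∈ fam P (Y ^ 2), ∏ p ∈ U, (x p ^ 2 + 2 * x p) := by
  let I := (fam P (Y ^ 2)).sigma fun U => U.powerset.sigma fun S => S.powerset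
  let F : (Σ _ : Finset ℕ, Σ _ : Finset ℕ, Finset ℕ) → ℝ := fun t =>
    (∏ p ∈ t.2.1, x p) * (∏ p ∈ t.2.2, x p) * ∏ p ∈ t.1 \ t.2.1, x p
  let φ : Finset ℕ × Finset ℕ → (Σ _ : Finset ℕ, Σ _ : Finset ℕ, Finset ℕ) := fun s =>
    ⟨s.1 ∪ s.2, s.1, s.1 ∩ s.2⟩
  have e1 : ∑ U ∈ fam P (Y ^ 2), ∏ p ∈ U, (x p ^ 2 + 2 * x p) = ∑ t ∈ I, F t := by
    rw [sum_sigma]
    refine sum_congr rfl fun U _ => ?_
    rw [sum_sigma, prod_congr rfl fun p _ => (by ring : x p ^ 2 + 2 * x p = x p * (1 + x p) + x p),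
      prod_add]
    refine sum_congr rfl fun S _ => ?_
    rw [prod_mul_distrib, prod_one_add, mul_sum, sum_mul]
  have inj : Set.InjOn φ (fam P Y ×ˢ fam P Y : Finset _) := by
    rintro ⟨a, b⟩ _ ⟨c, d⟩ _ h
    simp only [φ, Sigma.mk.injEq, heq_eq_eq] at h
    obtain ⟨h1, rfl, h2⟩ := h
    refine Prod.ext rfl (Finset.ext fun p => ?_)
    have k1 := Finset.ext_iff.1 h1 p
    have k2 := Finset.ext_iff.1 h2 p
    simp only [mem_union, mem_inter] at k1 k2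
    tauto
  have e2 : (∑ U ∈ fam P Y, ∏ p ∈ U, x p) ^ 2 = ∑ t ∈ (fam P Y ×ˢ fam P Y).image φ, F t := by
    rw [sum_image inj, sq, sum_mul_sum, sum_product]
    refine sum_congr rfl fun a _ => sum_congr rfl fun b _ => ?_
    simp only [F, φ]
    rw [mul_assoc, union_sdiff_left, inter_comm, prod_inter_mul_prod_sdiff]
  rw [e1, e2]
  refine sum_le_sum_of_subset_of_nonneg (fun t ht => ?_) fun t _ _ => ?_
  · obtain ⟨⟨a, b⟩, h, rfl⟩ := mem_image.1 ht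
    obtain ⟨ha, hb⟩ := mem_product.1 h
    rw [mem_fam] at ha hb
    simp only [I, φ, mem_sigma, mem_powerset, subset_union_left, inter_subset_left, and_true,
      mem_fam]
    refine ⟨union_subset ha.1 hb.1, ?_⟩
    have h1 : 1 ≤ ∏ p ∈ a ∩ b, p :=
      one_le_prod' fun p hp => hP p (ha.1 (mem_of_mem_inter_left hp))
    calc _ ≤ (∏ p ∈ a ∪ b, p) * ∏ p ∈ a ∩ b, p := Nat.le_mul_of_pos_right _ h1
      _ = (∏ p ∈ a, p) * ∏ p ∈ b, p := prod_union_inter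
      _ ≤ _ := by rw [sq]; exact Nat.mul_le_mul ha.2 hb.2
  · exact mul_nonneg (mul_nonneg (prod_nonneg fun p _ => hx p) (prod_nonneg fun p _ => hx p))
      (prod_nonneg fun p _ => hx p)

theorem count_le {W b d N : ℕ} (hd : 0 < d) (hW : Nat.Coprime d W) (hN : d ≤ N) :
    (((range N).filter fun n => d ∣ W * n + b).card : ℝ) ≤ 2 * N / d := by
  have h : ((range N).filter fun n => d ∣ W * n + b).card ≤ (range (N / d + 1)).card := by
    refine card_le_card_of_injOn (fun n => n / d) (fun n hn => ?_) fun n hn m hm h => ?_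
    · have := mem_range.1 (mem_filter.1 hn).1
      exact mem_range.2 (Nat.lt_succ_of_le (Nat.div_le_div_right this.le))
    · have h1 : W * n + b ≡ W * m + b [MOD d] :=
        ((Nat.modEq_zero_iff_dvd.2 (mem_filter.1 hn).2)).trans
          (Nat.modEq_zero_iff_dvd.2 (mem_filter.1 hm).2).symm
      have h2 : n ≡ m [MOD d] := Nat.ModEq.cancel_left_of_coprime hW (h1.add_right_cancel' b)
      rw [← Nat.div_add_mod n d, ← Nat.div_add_mod m d, show n / d = m / d from h,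
        show n % d = m % d from h2]
  rw [card_range] at h
  have h0 : (0 : ℝ) < d := by exact_mod_cast hd
  have h1 : (1 : ℝ) ≤ N / d := (one_le_div h0).2 (by exact_mod_cast hN)
  have h2 : ((N / d : ℕ) : ℝ) ≤ N / d := Nat.cast_div_le
  have h3 : (((range N).filter fun n => d ∣ W * n + b).card : ℝ) ≤ (N / d : ℕ) + 1 := by
    exact_mod_cast h
  rw [mul_div_assoc]
  linarith

theorem z_le {p : ℕ} (hp : 5 ≤ p) (m : ℕ) :
    ((4 * |gp p m|) ^ 2 + 2 * (4 * |gp p m|)) ^ 2 + 2 * ((4 * |gp p m|) ^ 2 + 2 * (4 * |gp p m|)) ≤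
      624 * (if p ∣ m then 1 else 0) + 120 / (p : ℝ) := by
  have h5 : (5 : ℝ) ≤ p := by exact_mod_cast hp
  have h0 : (0 : ℝ) ≤ 120 / p := by positivity
  unfold gp
  split_ifs
  · norm_num
    linarith
  · have h1 : (0 : ℝ) < 1 / (p - 1) := one_div_pos.2 (by linarith)
    have h2 : (1 : ℝ) / (p - 1) ≤ 1 / 4 := one_div_le_one_div_of_le (by norm_num) (by linarith)
    have h3 : 60 * (1 / ((p : ℝ) - 1)) ≤ 120 / p := by
      rw [mul_one_div, div_le_div_iff₀ (by linarith) (by linarith)]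
      linarith
    rw [abs_of_pos h1]
    generalize 1 / ((p : ℝ) - 1) = t at *
    have h4 : t ^ 2 ≤ t / 4 := by nlinarith
    have h5 : t ^ 3 ≤ t / 16 := by nlinarith
    have h6 : t ^ 4 ≤ t / 64 := by nlinarith
    nlinarith

theorem point (P : Finset ℕ) (hP : ∀ p ∈ P, p.Prime ∧ 5 ≤ p) (Y m : ℕ) (e : Finset ℕ → ℝ)
    (he : ∀ U, |e U| ≤ 4 ^ U.card) :
    (∑ U ∈ fam P Y, e U * gS U m) ^ 4 ≤ ∑ U ∈ fam P (Y ^ 4),
      ∏ p ∈ U, (624 * (if p ∣ m then 1 else 0) + 120 / (p : ℝ)) := by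
  have h1 : ∀ p ∈ P, 1 ≤ p := fun p hp => (hP p hp).1.one_le
  have a : |∑ U ∈ fam P Y, e U * gS U m| ≤ ∑ U ∈ fam P Y, ∏ p ∈ U, 4 * |gp p m| := by
    refine (abs_sum_le_sum_abs _ _).trans (sum_le_sum fun U _ => ?_)
    rw [abs_mul, gS, abs_prod, prod_mul_distrib, prod_const]
    exact mul_le_mul_of_nonneg_right (he U) (prod_nonneg fun p _ => abs_nonneg _)
  have b := sq_le P h1 Y (fun p => 4 * |gp p m|) fun p => by positivity
  have c := sq_le P h1 (Y ^ 2) (fun p => (4 * |gp p m|) ^ 2 + 2 * (4 * |gp p m|))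
    fun p => by positivity
  rw [← pow_mul] at c
  calc _ = (|∑ U ∈ fam P Y, e U * gS U m| ^ 2) ^ 2 := by rw [sq_abs]; ring
    _ ≤ ((∑ U ∈ fam P Y, ∏ p ∈ U, 4 * |gp p m|) ^ 2) ^ 2 := by gcongr
    _ ≤ _ := by gcongr
    _ ≤ _ := c
    _ ≤ _ := sum_le_sum fun U hU => prod_le_prod (fun p _ => by positivity)
        fun p hp => z_le (hP p ((mem_fam.1 hU).1 hp)).2 m

theorem mean (P : Finset ℕ) (hP : ∀ p ∈ P, p.Prime ∧ 5 ≤ p) (W b N : ℕ)
    (hW : ∀ p ∈ P, ¬ p ∣ W) {U : Finset ℕ} (hU : U ⊆ P) (hN : ∏ p ∈ U, p ≤ N) :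
    ∑ n ∈ range N, ∏ p ∈ U, (624 * (if p ∣ W * n + b then 1 else 0) + 120 / (p : ℝ)) ≤
      2 * N * ∏ p ∈ U, 744 * (1 / (p : ℝ)) := by
  have e : ∏ p ∈ U, 744 * (1 / (p : ℝ)) = ∏ p ∈ U, (624 / (p : ℝ) + 120 / (p : ℝ)) :=
    prod_congr rfl fun p _ => by ring
  simp only [e, prod_add]
  rw [sum_comm, mul_sum]
  refine sum_le_sum fun D hD => ?_
  have hD := mem_powerset.1 hD
  have pos : ∀ p ∈ U, 1 ≤ p := fun p hp => (hP p (hU hp)).1.one_le
  rw [← sum_mul, ← mul_assoc]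
  refine mul_le_mul_of_nonneg_right ?_ (prod_nonneg fun p _ => by positivity)
  have c := count_le (W := W) (b := b) (d := ∏ p ∈ D, p) (N := N)
    (prod_pos fun p hp => pos p (hD hp))
    (Nat.Coprime.prod_left fun p hp =>
      (hP p (hU (hD hp))).1.coprime_iff_not_dvd.2 (hW p (hU (hD hp))))
    ((prod_le_prod_of_subset_of_one_le' hD fun p hp _ => pos p hp).trans hN)
  have k : ∀ n ∈ range N, ∏ p ∈ D, (624 * if p ∣ W * n + b then (1 : ℝ) else 0) ≤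
      624 ^ D.card * if (∏ p ∈ D, p) ∣ W * n + b then 1 else 0 := fun n _ => by
    rw [prod_mul_distrib, prod_const, prod_boole]
    refine mul_le_mul_of_nonneg_left ?_ (by positivity)
    split_ifs with h1 h2
    · exact le_rfl
    · exact absurd (prod_primes_dvd _ (fun p hp => (hP p (hU (hD hp))).1.prime) h1) h2
    · exact zero_le_one
    · exact le_rfl
  refine (sum_le_sum k).trans ?_
  rw [← mul_sum, sum_boole, prod_div_distrib, prod_const, ← Nat.cast_prod]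
  calc _ ≤ (624 : ℝ) ^ D.card * (2 * N / (∏ p ∈ D, p : ℕ)) := by gcongr
    _ = _ := by ring

end MomentAux

open MomentAux in
theorem moment (P : Finset ℕ) (hP : ∀ p ∈ P, p.Prime ∧ 5 ≤ p) (W b Y N : ℕ)
    (hW : ∀ p ∈ P, ¬ p ∣ W) (hY : Y ^ 4 ≤ N) (e : Finset ℕ → ℝ) (he : ∀ U, |e U| ≤ 4 ^ U.card) :
    ∑ n ∈ range N, (∑ U ∈ fam P Y, e U * gS U (W * n + b)) ^ 4 ≤
      2 * N * Real.exp (744 * ∑ p ∈ P, 1 / (p : ℝ)) := by
  refine (sum_le_sum fun n _ => point P hP Y (W * n + b) e he).trans ?_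
  rw [sum_comm]
  refine (sum_le_sum fun U hU =>
    mean P hP W b N hW (mem_fam.1 hU).1 ((mem_fam.1 hU).2.trans hY)).trans ?_
  rw [← mul_sum]
  refine mul_le_mul_of_nonneg_left ?_ (by positivity)
  calc _ ≤ ∑ U ∈ P.powerset, ∏ p ∈ U, 744 * (1 / (p : ℝ)) :=
        sum_le_sum_of_subset_of_nonneg (filter_subset _ _)
          fun U _ _ => prod_nonneg fun p _ => by positivity
    _ = ∏ p ∈ P, (1 + 744 * (1 / (p : ℝ))) := (prod_one_add _).symm
    _ ≤ ∏ p ∈ P, Real.exp (744 * (1 / (p : ℝ))) :=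
        prod_le_prod (fun p _ => by positivity) fun p _ => by
          linarith [Real.add_one_le_exp (744 * (1 / (p : ℝ)))]
    _ = _ := by rw [← Real.exp_sum, mul_sum]

end Pool.Agent.Lib.MP_4b8564_nt.Sg
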