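import Pool.Agent.Lib.MP_4b8564_nt.Sg.Defs

open Finset

noncomputable section

namespace Pool.Agent.Lib.MP_4b8564_nt.Sg

namespace RecipAux

theorem block (w I : ℕ) (hw : 2 ≤ w) :
    ∑ p ∈ (PP w (2 ^ (I + 1))).filter (fun p => ¬ p ≤ 2 ^ I), 1 / (p : ℝ) ≤ 3 / Real.log w := by
  have hw' : (1 : ℝ) < w := by exact_mod_cast hw
  have hL : 0 < Real.log w := Real.log_pos hw'
  have h2 : (0 : ℝ) < 2 ^ I := by positivity
  have hθ := Chebyshev.theta_le_log4_mul_x (x := ((2 ^ (I + 1) : ℕ) : ℝ)) (by positivity)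
  rw [Chebyshev.theta, Nat.floor_natCast] at hθ
  have h4 : Real.log 4 ≤ 3 / 2 := by
    have : Real.log 4 = 2 * Real.log 2 := by
      rw [show (4 : ℝ) = 2 ^ 2 by norm_num, Real.log_pow]
      norm_num
    linarith [Real.log_two_lt_d9]
  calc ∑ p ∈ (PP w (2 ^ (I + 1))).filter (fun p => ¬ p ≤ 2 ^ I), 1 / (p : ℝ)
      ≤ ∑ p ∈ (PP w (2 ^ (I + 1))).filter (fun p => ¬ p ≤ 2 ^ I),
          Real.log p / (2 ^ I * Real.log w) := by
        refine sum_le_sum fun p hp => ?_
        simp only [PP, mem_filter, mem_Ioc, not_le] at hp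
        have h1 : (w : ℝ) ≤ p := by exact_mod_cast hp.1.1.1.le
        have h3 : (2 : ℝ) ^ I ≤ p := by exact_mod_cast hp.2.le
        have h5 : Real.log w ≤ Real.log p := Real.log_le_log (by linarith) h1
        rw [div_le_div_iff₀ (by linarith) (by positivity), one_mul, mul_comm]
        exact mul_le_mul h5 h3 h2.le (by linarith)
    _ = (∑ p ∈ (PP w (2 ^ (I + 1))).filter (fun p => ¬ p ≤ 2 ^ I), Real.log p) /
          (2 ^ I * Real.log w) := by rw [sum_div]
    _ ≤ (Real.log 4 * ((2 ^ (I + 1) : ℕ) : ℝ)) / (2 ^ I * Real.log w) := by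
        gcongr
        refine le_trans (sum_le_sum_of_subset_of_nonneg ?_ ?_) hθ
        · intro p hp
          simp only [PP, mem_filter, mem_Ioc] at hp ⊢
          exact ⟨⟨hp.1.2.pos, hp.1.1.2⟩, hp.1.2⟩
        · intro p _ _
          exact Real.log_natCast_nonneg p
    _ ≤ 3 / Real.log w := by
        rw [div_le_div_iff₀ (by positivity) hL]
        push_cast
        rw [pow_succ]
        have : 0 < 2 ^ I * Real.log w := by positivity
        nlinarith

end RecipAux

theorem recip (w I : ℕ) (hw : 2 ≤ w) :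
    ∑ p ∈ PP w (2 ^ I), 1 / (p : ℝ) ≤ 3 * I / Real.log w := by
  induction I with
  | zero =>
    have : PP w (2 ^ 0) = ∅ := by
      rw [PP, Ioc_eq_empty (by omega), filter_empty]
    rw [this]
    simp
  | succ I ih =>
    have e : (PP w (2 ^ (I + 1))).filter (fun p => p ≤ 2 ^ I) = PP w (2 ^ I) := by
      ext p
      simp only [PP, mem_filter, mem_Ioc]
      have : 2 ^ I ≤ 2 ^ (I + 1) := Nat.pow_le_pow_right (by norm_num) (Nat.le_succ I)
      constructor
      · rintro ⟨⟨⟨h1, -⟩, h2⟩, h3⟩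
        exact ⟨⟨h1, h3⟩, h2⟩
      · rintro ⟨⟨h1, h3⟩, h2⟩
        exact ⟨⟨⟨h1, h3.trans this⟩, h2⟩, h3⟩
    rw [← sum_filter_add_sum_filter_not (PP w (2 ^ (I + 1))) (fun p => p ≤ 2 ^ I), e]
    have := RecipAux.block w I hw
    push_cast
    rw [mul_add, add_div, mul_one]
    linarith

end Pool.Agent.Lib.MP_4b8564_nt.Sg
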