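import Pool.Agent.Lib.MP_4b8564_nt.Sg.Fourier
import Pool.Agent.Lib.MP_4b8564_nt.Sg.Expand
import Pool.Agent.Lib.MP_4b8564_nt.Sg.Freq
import Pool.Agent.Lib.MP_4b8564_nt.Sg.Moment
import Pool.Agent.Lib.MP_4b8564_nt.Sg.Recip

open Finset

noncomputable section

namespace Pool.Agent.Lib.MP_4b8564_nt.Sg

namespace MajorNuAux

theorem ftb {P : Finset ℕ} (hP : ∀ p ∈ P, p.Prime) {W Y N : ℕ} [NeZero N] (b : ℕ)
    (hW : ∀ p ∈ P, ¬ p ∣ W) (hY : Y ^ 4 ≤ N) {F : Finset (Finset ℕ)} (hF : F ⊆ fam P Y)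
    (e : Finset ℕ → ℝ) {θ : ℝ} (hθ : 0 ≤ θ) (he : ∀ U ∈ F, |e U| * iphi U ≤ θ) (r : ZMod N) :
    ‖ft N (fun x => ∑ U ∈ F, e U * gS U (W * x.val + b)) r‖ ≤ 2 * θ := by
  have hN : (0 : ℝ) < N := by exact_mod_cast Nat.pos_of_ne_zero (NeZero.ne N)
  rw [ft_eq_range (fun n => ∑ U ∈ F, e U * gS U (W * n + b)) r, norm_div, Complex.norm_natCast,
    div_le_iff₀ hN]
  refine (freq P hP W b Y hW F hF e θ hθ he N _).trans ?_
  have h : (Y : ℝ) ^ 4 ≤ N := by exact_mod_cast hY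
  nlinarith [mul_le_mul_of_nonneg_left h hθ]

theorem coef {U : Finset ℕ} (hU : ∀ p ∈ U, 5 ≤ p) {a : ℝ} (ha : |a| ≤ 4 ^ U.card) {y q : ℕ}
    (hy : 0 < y) (hq : q ∈ U) (hyq : y < q) : |a| * iphi U ≤ 4 / y := by
  have h1 : ∀ p ∈ U, (4 : ℝ) ≤ (p : ℝ) - 1 := fun p hp => by
    have : (5 : ℝ) ≤ p := by exact_mod_cast hU p hp
    linarith
  have h0 : 0 ≤ iphi U := prod_nonneg fun p hp => by have := h1 p hp; positivity
  have h2 : (4 : ℝ) ^ U.card * iphi U = ∏ p ∈ U, 4 / ((p : ℝ) - 1) := by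
    rw [iphi, ← prod_const, ← prod_mul_distrib]
    exact prod_congr rfl fun p _ => by ring
  have h3 : ∏ p ∈ U.erase q, 4 / ((p : ℝ) - 1) ≤ 1 :=
    prod_le_one (fun p hp => by have := h1 p (mem_of_mem_erase hp); positivity)
      fun p hp => by
        have := h1 p (mem_of_mem_erase hp)
        exact (div_le_one (by linarith)).2 this
  have h4 : 4 / ((q : ℝ) - 1) ≤ 4 / y := by
    have h5 : (y : ℝ) + 1 ≤ q := by exact_mod_cast hyq
    have h6 : (0 : ℝ) < y := by exact_mod_cast hy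
    exact div_le_div_of_nonneg_left (by norm_num) h6 (by linarith)
  have h7 : 0 ≤ 4 / ((q : ℝ) - 1) := by have := h1 q hq; positivity
  calc |a| * iphi U ≤ 4 ^ U.card * iphi U := mul_le_mul_of_nonneg_right ha h0
    _ = 4 / ((q : ℝ) - 1) * ∏ p ∈ U.erase q, 4 / ((p : ℝ) - 1) := by
      rw [h2, mul_prod_erase U (fun p : ℕ => 4 / ((p : ℝ) - 1)) hq]
    _ ≤ 4 / ((q : ℝ) - 1) := mul_le_of_le_one_right h7 h3
    _ ≤ _ := h4

theorem sum_val {N : ℕ} [NeZero N] (F : ℕ → ℝ) :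
    ∑ x : ZMod N, F x.val = ∑ n ∈ range N, F n := by
  obtain ⟨n, rfl⟩ := Nat.exists_eq_succ_of_ne_zero (NeZero.ne N)
  exact Fin.sum_univ_eq_sum_range F (n + 1)

theorem exp_le (j : ℕ) {s : ℝ} (hs : s ≤ 3 * ((2 * j + 6 : ℕ) : ℝ) / 20000) :
    Real.exp (744 * s) ≤ 3 * (4 / 3 : ℝ) ^ j := by
  have h1 : Real.exp (1 / 4) ≤ 4 / 3 := by
    have h := Real.add_one_le_exp (-(1 / 4) : ℝ)
    have h' : Real.exp (1 / 4) * Real.exp (-(1 / 4)) = 1 := by rw [← Real.exp_add]; simp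
    nlinarith [Real.exp_pos (1 / 4 : ℝ)]
  have h2 : Real.exp 1 ≤ 3 := by linarith [Real.exp_one_lt_d9]
  have hj : (0 : ℝ) ≤ j := Nat.cast_nonneg j
  push_cast at hs
  calc Real.exp (744 * s) ≤ Real.exp (1 + j * (1 / 4)) := Real.exp_le_exp.2 (by linarith)
    _ = Real.exp 1 * Real.exp (1 / 4) ^ j := by rw [Real.exp_add, Real.exp_nat_mul]
    _ ≤ _ := mul_le_mul h2 (pow_le_pow_left₀ (Real.exp_pos _).le h1 j) (by positivity)
      (by norm_num)

end MajorNuAux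

open MajorNuAux in
/-- the majorant `β(W n + b)² / G` -/
theorem major_nu (η : ℝ) (hη : 0 < η) : ∃ w : ℕ, ∀ (N : ℕ) [NeZero N] (R b : ℕ),
    1 ≤ R → R ^ 8 ≤ N →
      (∀ r, ‖ft N (fun x => beta (PP w R) R (primorial w * x.val + b) ^ 2 / GG (PP w R) R - 1) r‖
        ≤ η) ∧
      Split N fun x => beta (PP w R) R (primorial w * x.val + b) ^ 2 / GG (PP w R) R := by
  obtain ⟨w, hw⟩ := exists_nat_ge (max 5 (max (8 / η) (Real.exp 20000)))
  have hw5 : (5 : ℝ) ≤ w := (le_max_left _ _).trans hw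
  have hw8 : 8 / η ≤ w := ((le_max_left _ _).trans (le_max_right _ _)).trans hw
  have hwe : Real.exp 20000 ≤ w := ((le_max_right _ _).trans (le_max_right _ _)).trans hw
  have hw5' : 5 ≤ w := by exact_mod_cast hw5
  have hlog : 20000 ≤ Real.log w := (Real.le_log_iff_exp_le (by linarith)).2 hwe
  refine ⟨w, fun N _ R b hR hN => ?_⟩
  have hP : ∀ p ∈ PP w R, p.Prime ∧ w < p := fun p hp => by
    simp only [PP, mem_filter, mem_Ioc] at hp
    exact ⟨hp.2, hp.1.1⟩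
  have hW : ∀ p ∈ PP w R, ¬ p ∣ primorial w := fun p hp h => by
    have := (hP p hp).1.dvd_primorial_iff.1 h
    have := (hP p hp).2
    omega
  have hY : (R ^ 2) ^ 4 ≤ N := by rwa [← pow_mul]
  obtain ⟨e, he0, he, hexp⟩ := expand (PP w R) (fun p hp => (hP p hp).1.two_le) R hR
  have hsub : ∀ U ∈ fam (PP w R) (R ^ 2), U ⊆ PP w R := fun U hU =>
    mem_powerset.1 (mem_filter.1 hU).1
  have h5 : ∀ U ∈ fam (PP w R) (R ^ 2), ∀ p ∈ U, 5 ≤ p := fun U hU p hp => by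
    have := (hP p (hsub U hU hp)).2
    omega
  simp only [hexp]
  refine ⟨fun r => ?_, fun j => ?_⟩
  · have h0 : ∅ ∈ fam (PP w R) (R ^ 2) :=
      mem_filter.2 ⟨empty_mem_powerset _, by simpa using Nat.one_le_pow 2 R hR⟩
    have h1 : ∀ m, ∑ U ∈ fam (PP w R) (R ^ 2), e U * gS U m - 1 =
        ∑ U ∈ (fam (PP w R) (R ^ 2)).erase ∅, e U * gS U m := fun m => by
      rw [← add_sum_erase _ _ h0, he0]; simp [gS]
    simp only [h1]
    refine (ftb (fun p hp => (hP p hp).1) b hW hY (erase_subset _ _) e (θ := 4 / w)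
      (by positivity) (fun U hU => ?_) r).trans ?_
    · obtain ⟨q, hq⟩ := nonempty_iff_ne_empty.2 (ne_of_mem_erase hU)
      exact coef (h5 U (mem_of_mem_erase hU)) (he U) (by omega) hq
        (hP q (hsub U (mem_of_mem_erase hU) hq)).2
    · rw [div_le_iff₀ hη] at hw8
      rw [← mul_div_assoc, div_le_iff₀ (by linarith)]
      linarith
  · have hs : fam ((PP w R).filter (· ≤ 2 ^ (2 * j + 6))) (R ^ 2) ⊆ fam (PP w R) (R ^ 2) :=
      filter_subset_filter _ (powerset_mono.2 (filter_subset _ _))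
    refine ⟨fun x => ∑ U ∈ fam ((PP w R).filter (· ≤ 2 ^ (2 * j + 6))) (R ^ 2),
      e U * gS U (primorial w * x.val + b), fun r => ?_, ?_⟩
    · simp only [← sum_sdiff_eq_sub hs]
      refine (ftb (fun p hp => (hP p hp).1) b hW hY sdiff_subset e
        (θ := 4 / ((2 ^ (2 * j + 6) : ℕ) : ℝ)) (by positivity) (fun U hU => ?_) r).trans
        (le_of_eq ?_)
      · obtain ⟨hU1, hU2⟩ := mem_sdiff.1 hU
        have : ∃ q ∈ U, 2 ^ (2 * j + 6) < q := by
          by_contra hc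
          push Not at hc
          exact hU2 (mem_filter.2 ⟨mem_powerset.2 fun q hq =>
            mem_filter.2 ⟨hsub U hU1 hq, hc q hq⟩, (mem_filter.1 hU1).2⟩)
        obtain ⟨q, hq, hyq⟩ := this
        exact coef (h5 U hU1) (he U) (by positivity) hq hyq
      · push_cast
        rw [pow_add, pow_mul, one_div, inv_pow]
        field_simp
        norm_num
        ring
    · rw [sum_val (fun n => (∑ U ∈ fam ((PP w R).filter (· ≤ 2 ^ (2 * j + 6))) (R ^ 2),
        e U * gS U (primorial w * n + b)) ^ 4)]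
      refine (moment _ (fun p hp => ?_) _ b _ N (fun p hp => hW p (mem_of_mem_filter p hp)) hY e
        he).trans ?_
      · have := hP p (mem_of_mem_filter p hp)
        exact ⟨this.1, by omega⟩
      · have h1 : ∑ p ∈ (PP w R).filter (· ≤ 2 ^ (2 * j + 6)), 1 / (p : ℝ) ≤
            ∑ p ∈ PP w (2 ^ (2 * j + 6)), 1 / (p : ℝ) :=
          sum_le_sum_of_subset_of_nonneg (fun p hp => by
            have h := hP p (mem_of_mem_filter p hp)
            exact mem_filter.2 ⟨mem_Ioc.2 ⟨h.2, (mem_filter.1 hp).2⟩, h.1⟩)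
            fun p _ _ => by positivity
        have h2 := recip w (2 * j + 6) (by omega)
        have h3 : 3 * ((2 * j + 6 : ℕ) : ℝ) / Real.log w ≤ 3 * ((2 * j + 6 : ℕ) : ℝ) / 20000 :=
          div_le_div_of_nonneg_left (by positivity) (by norm_num) hlog
        have h4 := exp_le j (h1.trans (h2.trans h3))
        have hN0 : (0 : ℝ) ≤ N := Nat.cast_nonneg N
        nlinarith [mul_le_mul_of_nonneg_left h4 hN0]

end Pool.Agent.Lib.MP_4b8564_nt.Sg
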