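import Pool.Agent.Lib.MP_4b8564_nt.Sg.Transfer
import Pool.Agent.Lib.MP_4b8564_nt.Sg.Major

open Finset

noncomputable section

namespace Pool.Agent.Lib.MP_4b8564_nt.Sg

namespace ProgAux

lemma val_add {N : ℕ} [NeZero N] (x d : ZMod N) (h1 : 2 * x.val < N) (h2 : 2 * (x + d).val < N)
    (h3 : 2 * (x + 2 * d).val < N) : x.val + (x + 2 * d).val = 2 * (x + d).val := by
  have h : ((x.val + (x + 2 * d).val : ℕ) : ZMod N) = ((2 * (x + d).val : ℕ) : ZMod N) := by
    push_cast
    simp only [ZMod.natCast_val, ZMod.cast_id', id_eq]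
    ring
  have h' := (ZMod.natCast_eq_natCast_iff' _ _ _).1 h
  rwa [Nat.mod_eq_of_lt (by omega), Nat.mod_eq_of_lt (by omega)] at h'

/-- pairs giving three values in `A` -/
def TT (N : ℕ) [NeZero N] (A : Finset ℕ) : Finset (ZMod N × ZMod N) :=
  univ.filter fun p => p.1.val ∈ A ∧ (p.1 + p.2).val ∈ A ∧ (p.1 + 2 * p.2).val ∈ A

lemma card_TT (N : ℕ) [NeZero N] (W b Y : ℕ) (hW : 1 ≤ W) (hb : b < W) (hY : W * N ≤ Y)
    (A : Finset ℕ) (hA : ∀ n ∈ A, 2 * n < N ∧ (W * n + b).Prime ∧ 3 < W * n + b) :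
    (TT N A).card ≤ N + 2 * (APs Y).card := by
  classical
  have hle : ∀ n ∈ A, W * n + b ≤ Y := by
    intro n hn
    have h1 := (hA n hn).1
    have h2 : W * (n + 1) ≤ W * N := Nat.mul_le_mul_left _ (by omega)
    have h3 : W * (n + 1) = W * n + W := by ring
    omega
  have hmem : ∀ u v w : ℕ, u ∈ A → v ∈ A → w ∈ A → u < v → u + w = 2 * v →
      (W * u + b, W * v + b) ∈ APs Y := by
    intro u v w hu hv hw huv he
    have e : 2 * (W * v + b) - (W * u + b) = W * w + b := by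
      have : W * u + W * w = 2 * (W * v) := by rw [← mul_add, he]; ring
      omega
    have hlt : W * u < W * v := Nat.mul_lt_mul_of_pos_left huv (by omega)
    unfold APs
    simp only [mem_filter, mem_product, mem_range]
    rw [e]
    have := hle u hu
    have := hle v hv
    exact ⟨⟨by omega, by omega⟩, (hA u hu).2.2, by omega, hle w hw, (hA u hu).2.1, (hA v hv).2.1,
      (hA w hw).2.1⟩
  have hinj : ∀ x y : ZMod N, W * x.val + b = W * y.val + b → x = y := by
    intro x y h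
    have h1 : W * x.val = W * y.val := by omega
    exact ZMod.val_injective N (Nat.eq_of_mul_eq_mul_left (by omega) h1)
  have hsub : TT N A ⊆ ((TT N A).filter fun p => p.2 = 0) ∪
      (((TT N A).filter fun p => p.1.val < (p.1 + p.2).val) ∪
        ((TT N A).filter fun p => (p.1 + p.2).val < p.1.val)) := by
    intro p hp
    simp only [mem_union, mem_filter]
    rcases lt_trichotomy p.1.val (p.1 + p.2).val with h | h | h
    · exact Or.inr (Or.inl ⟨hp, h⟩)
    · left
      refine ⟨hp, ?_⟩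
      have := ZMod.val_injective N h
      simpa using this
    · exact Or.inr (Or.inr ⟨hp, h⟩)
  have h0 : ((TT N A).filter fun p => p.2 = 0).card ≤ N := by
    have : ((TT N A).filter fun p => p.2 = 0).card ≤ (univ : Finset (ZMod N)).card := by
      refine card_le_card_of_injOn (fun p => p.1) (fun _ _ => mem_coe.2 (mem_univ _)) ?_
      intro p hp q hq h
      have hp' := (mem_filter.1 (mem_coe.1 hp)).2
      have hq' := (mem_filter.1 (mem_coe.1 hq)).2
      exact Prod.ext h (by rw [hp', hq'])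
    simpa [ZMod.card] using this
  have h1 : ((TT N A).filter fun p => p.1.val < (p.1 + p.2).val).card ≤ (APs Y).card := by
    refine card_le_card_of_injOn (fun p => (W * p.1.val + b, W * (p.1 + p.2).val + b)) ?_ ?_
    · intro p hp
      obtain ⟨hp1, hp2⟩ := mem_filter.1 (mem_coe.1 hp)
      obtain ⟨-, a1, a2, a3⟩ := mem_filter.1 hp1
      exact mem_coe.2 (hmem _ _ _ a1 a2 a3 hp2
        (val_add _ _ (hA _ a1).1 (hA _ a2).1 (hA _ a3).1))
    · intro p _ q _ h
      have e1 := hinj _ _ (congrArg Prod.fst h)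
      have e2 := hinj _ _ (congrArg Prod.snd h)
      refine Prod.ext e1 ?_
      rw [e1] at e2
      exact add_left_cancel e2
  have h2 : ((TT N A).filter fun p => (p.1 + p.2).val < p.1.val).card ≤ (APs Y).card := by
    refine card_le_card_of_injOn
      (fun p => (W * (p.1 + 2 * p.2).val + b, W * (p.1 + p.2).val + b)) ?_ ?_
    · intro p hp
      obtain ⟨hp1, hp2⟩ := mem_filter.1 (mem_coe.1 hp)
      obtain ⟨-, a1, a2, a3⟩ := mem_filter.1 hp1
      have hv := val_add _ _ (hA _ a1).1 (hA _ a2).1 (hA _ a3).1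
      exact mem_coe.2 (hmem _ _ _ a3 a2 a1 (by omega) (by omega))
    · intro p _ q _ h
      have e1 := hinj _ _ (congrArg Prod.fst h)
      have e2 := hinj _ _ (congrArg Prod.snd h)
      have e3 : p.2 = q.2 := by linear_combination e1 - e2
      refine Prod.ext ?_ e3
      linear_combination 2 * e2 - e1
  have h3 := card_le_card hsub
  have h4 := card_union_le ((TT N A).filter fun p => p.2 = 0)
      (((TT N A).filter fun p => p.1.val < (p.1 + p.2).val) ∪
        ((TT N A).filter fun p => (p.1 + p.2).val < p.1.val))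
  have h5 := card_union_le ((TT N A).filter fun p => p.1.val < (p.1 + p.2).val)
        ((TT N A).filter fun p => (p.1 + p.2).val < p.1.val)
  omega

lemma sum_f (N : ℕ) [NeZero N] (A : Finset ℕ) (hA : ∀ n ∈ A, n < N) (G : ℝ) :
    ∑ x : ZMod N, (if x.val ∈ A then G else 0) = G * A.card := by
  classical
  rw [← sum_filter, sum_const, nsmul_eq_mul, mul_comm]
  congr 2
  refine card_bij (fun x _ => x.val) ?_ ?_ ?_
  · intro x hx
    exact (mem_filter.1 hx).2
  · intro x _ y _ h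
    exact ZMod.val_injective N h
  · intro n hn
    refine ⟨(n : ZMod N), ?_, ZMod.val_cast_of_lt (hA n hn)⟩
    simp only [mem_filter, mem_univ, true_and]
    rw [ZMod.val_cast_of_lt (hA n hn)]
    exact hn

lemma lam3_f (N : ℕ) [NeZero N] (A : Finset ℕ) (G : ℝ) :
    lam3 N (fun x => if x.val ∈ A then G else 0) = G ^ 3 * (TT N A).card / (N : ℝ) ^ 2 := by
  classical
  unfold lam3 TT
  congr 1
  rw [← Fintype.sum_prod_type' (fun (x d : ZMod N) => (if x.val ∈ A then G else 0) *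
    (if (x + d).val ∈ A then G else 0) * (if (x + 2 * d).val ∈ A then G else 0)),
    card_filter, Nat.cast_sum, mul_sum]
  refine sum_congr rfl fun p _ => ?_
  by_cases a1 : p.1.val ∈ A <;> by_cases a2 : (p.1 + p.2).val ∈ A <;>
    by_cases a3 : (p.1 + 2 * p.2).val ∈ A <;> simp [a1, a2, a3]
  ring

lemma log_small (c : ℝ) (hc : 0 < c) : ∃ N₂ : ℕ, ∀ N : ℕ, N₂ ≤ N →
    Real.log N ^ 3 ≤ c * N := by
  have h := (Real.isLittleO_pow_log_id_atTop (n := 3)).bound hc
  obtain ⟨x, hx⟩ := Filter.eventually_atTop.1 h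
  refine ⟨⌈x⌉₊, fun N hN => ?_⟩
  have h1 : x ≤ (N : ℝ) := (Nat.le_ceil x).trans (by exact_mod_cast hN)
  have h2 := hx N h1
  simp only [id, Real.norm_eq_abs, Nat.abs_cast] at h2
  exact (le_abs_self _).trans h2

end ProgAux

open ProgAux in
/-- many three-term progressions of primes -/
theorem many_APs : ∃ c : ℝ, 0 < c ∧ ∃ Y₀ : ℕ, ∀ Y : ℕ, Y₀ ≤ Y →
    c * (Y : ℝ) ^ 2 / Real.log Y ^ 3 ≤ (APs Y).card := by
  classical
  obtain ⟨η, hη, hη1, c, hc, N₀, hT⟩ := transfer (1 / 200) (by norm_num)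
  obtain ⟨W, hW, N₁, hM⟩ := major η hη hη1
  obtain ⟨N₂, hL⟩ := log_small (c / 16000) (by positivity)
  have hW0 : (0 : ℝ) < W := by exact_mod_cast hW
  refine ⟨c / (128000 * (W : ℝ) ^ 2), by positivity, 2 * W * (N₀ + N₁ + N₂ + 1), fun Y hY => ?_⟩
  have hn : N₀ + N₁ + N₂ + 1 ≤ Y / (2 * W) := by
    rw [Nat.le_div_iff_mul_le (by omega), mul_comm]
    exact hY
  obtain ⟨N, hNp, hN1, hN2⟩ := Nat.exists_prime_lt_and_le_two_mul (Y / (2 * W)) (by omega)
  have : NeZero N := ⟨hNp.ne_zero⟩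
  have hWN : W * N ≤ Y := by
    have h1 : W * N ≤ W * (2 * (Y / (2 * W))) := Nat.mul_le_mul_left _ hN2
    have h2 : Y / (2 * W) * (2 * W) ≤ Y := Nat.div_mul_le_self _ _
    have h3 : W * (2 * (Y / (2 * W))) = Y / (2 * W) * (2 * W) := by ring
    omega
  have hYN : Y ≤ 2 * W * N := by
    have h1 := (Nat.div_lt_iff_lt_mul (show 0 < 2 * W by omega)).1 hN1
    rw [mul_comm] at h1
    exact h1.le
  obtain ⟨b, hb, A, G, ν, hA, hG0, hG1, hν0, hνA, hdens, hft, hsp⟩ := hM N (by omega)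
  have hlam := hT N hNp (by omega) (fun x => if x.val ∈ A then G else 0) ν
    (fun x => by
      by_cases h : x.val ∈ A
      · simp [h, hG0.le]
      · simp [h])
    (fun x => by
      by_cases h : x.val ∈ A
      · simp [h, hνA x h]
      · simp [h, hν0 x])
    (by
      rw [sum_f N A (fun n hn => by have := (hA n hn).1; omega)]
      exact hdens) hft hsp
  rw [lam3_f] at hlam
  have hN0 : (0 : ℝ) < N := by exact_mod_cast hNp.pos
  have hN1' : (1 : ℝ) < N := by exact_mod_cast hNp.one_lt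
  have hcard : ((TT N A).card : ℝ) ≤ N + 2 * (APs Y).card := by
    exact_mod_cast card_TT N W b Y hW hb hWN A hA
  rw [le_div_iff₀ (by positivity)] at hlam
  have hlogN : 0 < Real.log N := Real.log_pos hN1'
  have hNY : (N : ℝ) ≤ Y := by
    have : N ≤ Y := le_trans (Nat.le_mul_of_pos_left N (by omega)) hWN
    exact_mod_cast this
  have hlogY : Real.log N ≤ Real.log Y := Real.log_le_log hN0 hNY
  have hG3 : G ^ 3 ≤ 8000 * Real.log N ^ 3 := by
    have := pow_le_pow_left₀ hG0.le hG1 3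
    rw [mul_pow] at this
    norm_num at this ⊢
    exact this
  have hl3 : Real.log N ^ 3 ≤ Real.log Y ^ 3 := pow_le_pow_left₀ hlogN.le hlogY 3
  have hsm := hL N (by omega)
  have hP : (0 : ℝ) ≤ (APs Y).card := Nat.cast_nonneg _
  have k1 : c * (N : ℝ) ^ 2 ≤ 8000 * Real.log N ^ 3 * (N + 2 * (APs Y).card) :=
    hlam.trans (mul_le_mul hG3 hcard (Nat.cast_nonneg _) (by positivity))
  have k2 : Real.log N ^ 3 * N ≤ c / 16000 * N * N := mul_le_mul_of_nonneg_right hsm hN0.le
  have k3 : Real.log N ^ 3 * (APs Y).card ≤ Real.log Y ^ 3 * (APs Y).card :=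
    mul_le_mul_of_nonneg_right hl3 hP
  have k4 : c * (N : ℝ) ^ 2 ≤ 32000 * (Real.log Y ^ 3 * (APs Y).card) := by nlinarith
  have k5 : (Y : ℝ) ^ 2 ≤ (2 * W * N) ^ 2 :=
    pow_le_pow_left₀ (Nat.cast_nonneg _) (by exact_mod_cast hYN) 2
  have hlY : 0 < Real.log Y ^ 3 := pow_pos (hlogN.trans_le hlogY) 3
  rw [div_le_iff₀ hlY, div_mul_eq_mul_div, div_le_iff₀ (by positivity)]
  have k6 : c * (Y : ℝ) ^ 2 ≤ c * (2 * W * N) ^ 2 := mul_le_mul_of_nonneg_left k5 hc.le
  have k7 : c * (N : ℝ) ^ 2 * (4 * (W : ℝ) ^ 2) ≤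
      32000 * (Real.log Y ^ 3 * (APs Y).card) * (4 * (W : ℝ) ^ 2) :=
    mul_le_mul_of_nonneg_right k4 (by positivity)
  calc c * (Y : ℝ) ^ 2 ≤ c * (2 * W * N) ^ 2 := k6
    _ = c * (N : ℝ) ^ 2 * (4 * (W : ℝ) ^ 2) := by ring
    _ ≤ _ := k7
    _ = _ := by ring

end Pool.Agent.Lib.MP_4b8564_nt.Sg
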