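import Pool.Agent.Lib.MP_4b8564_nt.Sg.Defs

open Finset

noncomputable section

namespace Pool.Agent.Lib.MP_4b8564_nt.Sg

namespace RamanAux

theorem ee_add (s t : ℝ) : ee (s + t) = ee s * ee t := by
  rw [ee, ee, ee, ← Complex.exp_add]
  congr 1
  push_cast
  ring

theorem ee_nat_mul (k : ℕ) (t : ℝ) : ee (k * t) = ee t ^ k := by
  rw [ee, ee, ← Complex.exp_nat_mul]
  congr 1
  push_cast
  ring

theorem sum_range_mul (f : ℕ → ℂ) (n k : ℕ) :
    ∑ a ∈ range (n * k), f a = ∑ j ∈ range k, ∑ i ∈ range n, f (n * j + i) := by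
  induction k with
  | zero => simp
  | succ k ih => rw [mul_add, mul_one, sum_range_add, ih, sum_range_succ]

theorem geom {p : ℕ} (hp : p.Prime) (m : ℕ) :
    ∑ j ∈ range p, ee ((m : ℝ) / p) ^ j = if p ∣ m then (p : ℂ) else 0 := by
  have e : ee ((m : ℝ) / p) = Complex.exp (2 * Real.pi * Complex.I / p) ^ m := by
    rw [ee, ← Complex.exp_nat_mul]
    congr 1
    push_cast
    ring
  have hz := Complex.isPrimitiveRoot_exp p hp.ne_zero
  rw [e]
  split_ifs with h
  · simp [(hz.pow_eq_one_iff_dvd m).2 h]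
  · exact (hz.pow_of_coprime m ((Nat.Prime.coprime_iff_not_dvd hp).2 h).symm).geom_sum_eq_zero
      hp.one_lt

/-- the Ramanujan sum -/
def cs (q m : ℕ) : ℂ := ∑ a ∈ range q, if Nat.Coprime a q then ee ((a : ℝ) * m / q) else 0

theorem cs_step {p n : ℕ} (hp : p.Prime) (hn : n ≠ 0) (h : Nat.Coprime p n) (m : ℕ) :
    cs (p * n) m + cs n m = if p ∣ m then p * cs n (m / p) else 0 := by
  have p0 : (p : ℝ) ≠ 0 := Nat.cast_ne_zero.2 hp.ne_zero
  have n0 : (n : ℝ) ≠ 0 := Nat.cast_ne_zero.2 hn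
  have h1 : cs n m = ∑ a ∈ range (p * n),
      if p ∣ a ∧ Nat.Coprime a n then ee ((a : ℝ) * m / (p * n : ℕ)) else 0 := by
    rw [sum_range_mul, cs]
    refine sum_congr rfl fun j _ => ?_
    rw [sum_eq_single 0]
    · have e : (((p * j + 0 : ℕ) : ℝ) * m / (p * n : ℕ)) = (j : ℝ) * m / n := by
        push_cast
        field_simp
        ring
      rw [e]
      exact if_congr (by
        rw [add_zero, Nat.coprime_mul_iff_left]
        exact ⟨fun h' => ⟨dvd_mul_right _ _, h, h'⟩, fun h' => h'.2.2⟩) rfl rfl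
    · intro i hi h0
      rw [if_neg]
      rintro ⟨h2, -⟩
      exact h0 (Nat.eq_zero_of_dvd_of_lt ((Nat.dvd_add_right (dvd_mul_right p j)).1 h2)
        (mem_range.1 hi))
    · intro h0
      exact absurd (mem_range.2 hp.pos) h0
  have h2 : cs (p * n) m + cs n m = ∑ a ∈ range (n * p),
      if Nat.Coprime a n then ee ((a : ℝ) * m / (p * n : ℕ)) else 0 := by
    rw [h1, cs, ← sum_add_distrib, mul_comm n p]
    refine sum_congr rfl fun a _ => ?_
    have h3 : Nat.Coprime a p ↔ ¬p ∣ a := Nat.coprime_comm.trans hp.coprime_iff_not_dvd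
    by_cases h4 : p ∣ a <;> by_cases h5 : Nat.Coprime a n <;>
      simp only [Nat.coprime_mul_iff_right, h3, h4, h5] <;> simp
  rw [h2, sum_range_mul, sum_comm]
  have h3 : ∀ i ∈ range n, (∑ j ∈ range p, if Nat.Coprime (n * j + i) n then
      ee (((n * j + i : ℕ) : ℝ) * m / (p * n : ℕ)) else 0) =
      (if Nat.Coprime i n then ee ((i : ℝ) * m / (p * n : ℕ)) else 0) *
        if p ∣ m then (p : ℂ) else 0 := fun i _ => by
    rw [← geom hp m, mul_sum]
    refine sum_congr rfl fun j _ => ?_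
    have e : (((n * j + i : ℕ) : ℝ) * m / (p * n : ℕ)) =
        (i : ℝ) * m / (p * n : ℕ) + j * ((m : ℝ) / p) := by
      push_cast
      field_simp
      ring
    rw [e, ee_add, ee_nat_mul]
    simp only [Nat.coprime_mul_left_add_left]
    split_ifs <;> simp
  rw [sum_congr rfl h3, ← sum_mul]
  split_ifs with h4
  · obtain ⟨k, rfl⟩ := h4
    rw [Nat.mul_div_cancel_left k hp.pos, mul_comm, cs]
    congr 1
    refine sum_congr rfl fun i _ => ?_
    have e : ((i : ℝ) * (p * k : ℕ) / (p * n : ℕ)) = (i : ℝ) * k / n := by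
      push_cast
      field_simp
    rw [e]
  · simp

theorem cs_prod (S : Finset ℕ) : (∀ p ∈ S, p.Prime) → ∀ m : ℕ,
    cs (∏ p ∈ S, p) m = ∏ p ∈ S, if p ∣ m then (p : ℂ) - 1 else -1 := by
  induction S using Finset.induction_on with
  | empty => intro _ m; simp [cs, ee]
  | insert p S hp ih =>
    intro hS m
    have pp := hS p (mem_insert_self _ _)
    have hS' : ∀ q ∈ S, q.Prime := fun q hq => hS q (mem_insert_of_mem hq)
    have hc : ∀ q ∈ S, Nat.Coprime p q := fun q hq =>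
      (Nat.coprime_primes pp (hS' q hq)).2 fun e => hp (e ▸ hq)
    have h := cs_step pp (prod_ne_zero_iff.2 fun q hq => (hS' q hq).ne_zero)
      (Nat.Coprime.prod_right hc) m
    rw [prod_insert hp, prod_insert hp, eq_sub_of_add_eq h, ih hS' m]
    split_ifs with h1
    · obtain ⟨k, rfl⟩ := h1
      rw [Nat.mul_div_cancel_left k pp.pos, ih hS' k, sub_mul, one_mul]
      congr 2
      refine prod_congr rfl fun q hq => ?_
      simp only [(hc q hq).symm.dvd_mul_left]
    · ring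

end RamanAux

/-- Ramanujan sums for squarefree moduli -/
theorem raman (S : Finset ℕ) (hS : ∀ p ∈ S, p.Prime) (m : ℕ) :
    (gS S m : ℂ) = (-1) ^ S.card * (iphi S : ℂ) *
      ∑ a ∈ (range (∏ p ∈ S, p)).filter (fun a => Nat.Coprime a (∏ p ∈ S, p)),
        ee ((a : ℝ) * m / ((∏ p ∈ S, p : ℕ) : ℝ)) := by
  rw [sum_filter]
  change _ = _ * RamanAux.cs _ m
  rw [RamanAux.cs_prod S hS m, gS, iphi, ← prod_const]
  push_cast
  rw [← prod_mul_distrib, ← prod_mul_distrib]
  refine prod_congr rfl fun p hp => ?_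
  have h : (p : ℂ) - 1 ≠ 0 := sub_ne_zero.2 (by exact_mod_cast (hS p hp).one_lt.ne')
  rw [gp]
  split_ifs
  · push_cast
    field_simp
  · push_cast
    ring

end Pool.Agent.Lib.MP_4b8564_nt.Sg
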