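import Pool.Agent.Lib.MP_4b8564_nt.Sg.Defs

open Finset

noncomputable section

namespace Pool.Agent.Lib.MP_4b8564_nt.Sg

namespace VarnAux

/-- a bounded function with a large sum is large at many points -/
theorem card_level {ι : Type*} [Fintype ι] (f : ι → ℝ) (t B : ℝ) (ht : 0 ≤ t)
    (hB : ∀ x, f x ≤ B) [DecidablePred fun x => t ≤ f x] :
    ∑ x, f x ≤ B * #(univ.filter fun x => t ≤ f x) + t * Fintype.card ι := by
  have h : ∀ x, f x ≤ (if t ≤ f x then B else 0) + t := by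
    intro x
    split_ifs with h
    · linarith [hB x]
    · linarith [not_le.1 h]
  refine (sum_le_sum fun x _ => h x).trans (le_of_eq ?_)
  rw [sum_add_distrib, ← sum_filter, sum_const, sum_const, card_univ, nsmul_eq_mul, nsmul_eq_mul]
  ring

theorem count (ε : ℝ) (hε : 0 < ε) (N : ℕ) [NeZero N] (hN : N.Prime)
    (hM : cornersTheoremBound (ε / 3) ≤ N) (L : Finset (ZMod N)) (hL : 2 * ε * N ≤ #L) :
    ε * (N : ℝ) ^ 2 ≤ (cornersTheoremBound (ε / 3) : ℝ) ^ 2 *
      #(univ.filter fun p : ZMod N × ZMod N => p.1 ∈ L ∧ p.1 + p.2 ∈ L ∧ p.1 + 2 * p.2 ∈ L) := by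
  classical
  have := Fact.mk hN
  have hM0 : 0 < cornersTheoremBound (ε / 3) := Nat.succ_pos _
  have hR := fun A h1 h2 => roth_3ap_theorem_nat (n := cornersTheoremBound (ε / 3)) ε hε le_rfl A
    h1 h2
  generalize cornersTheoremBound (ε / 3) = M at *
  set T := univ.filter fun p : ZMod N × ZMod N => p.1 ∈ L ∧ p.1 + p.2 ∈ L ∧ p.1 + 2 * p.2 ∈ L
    with hT
  let A : ZMod N × ZMod N → Finset ℕ := fun p => (range M).filter fun i => p.1 + i * p.2 ∈ L
  have hM1 : (0 : ℝ) < M := by exact_mod_cast hM0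
  have hN1 : (0 : ℝ) < N := by exact_mod_cast hN.pos
  have h1 : ∑ p, (#(A p) : ℝ) = M * (N * #L) := by
    have e : ∀ (i : ℕ) (d : ZMod N),
        ∑ x : ZMod N, (if x + i * d ∈ L then (1 : ℝ) else 0) = #L := by
      intro i d
      refine (Equiv.sum_comp (Equiv.addRight ((i : ZMod N) * d))
        (fun y => if y ∈ L then (1 : ℝ) else 0)).trans ?_
      simp
    simp only [A, card_filter, Nat.cast_sum, Nat.cast_ite, Nat.cast_one, Nat.cast_zero]
    rw [sum_comm]
    simp only [Fintype.sum_prod_type_right, e]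
    simp [ZMod.card]
  have h2 := card_level (fun p => (#(A p) : ℝ)) (ε * M) M (by positivity) fun p => by
    exact_mod_cast (card_filter_le _ _).trans (card_range M).le
  rw [h1, Fintype.card_prod, ZMod.card] at h2
  set G := univ.filter fun p => ε * M ≤ (#(A p) : ℝ) with hG
  have h3 : ε * (N : ℝ) ^ 2 ≤ #G := by
    refine le_of_mul_le_mul_left ?_ hM1
    have := mul_le_mul_of_nonneg_left hL (mul_pos hM1 hN1).le
    push_cast at h2
    nlinarith
  let H : ℕ × ℕ → Finset (ZMod N × ZMod N) := fun s => univ.filter fun p =>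
    s.1 ≠ s.2 ∧ (p.1 + s.1 * p.2, ((s.2 : ZMod N) - s.1) * p.2) ∈ T
  have h4 : G ⊆ (range M ×ˢ range M).biUnion H := by
    intro p hp
    have := hR (A p) (filter_subset _ _) (mem_filter.1 hp).2
    simp only [ThreeAPFree, not_forall] at this
    obtain ⟨a, ha, b, hb, c, hc, habc, hab⟩ := this
    obtain ⟨ha1, ha2⟩ := mem_filter.1 (mem_coe.1 ha)
    obtain ⟨hb1, hb2⟩ := mem_filter.1 (mem_coe.1 hb)
    obtain ⟨-, hc2⟩ := mem_filter.1 (mem_coe.1 hc)
    have e : (a : ZMod N) + c = b + b := by exact_mod_cast congrArg (Nat.cast : ℕ → ZMod N) habc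
    refine mem_biUnion.2 ⟨(a, b), mem_product.2 ⟨ha1, hb1⟩, mem_filter.2 ⟨mem_univ _, hab,
      mem_filter.2 ⟨mem_univ _, ha2, ?_, ?_⟩⟩⟩
    · convert hb2 using 1
      ring
    · convert hc2 using 1
      linear_combination (-p.2) * e
  have h5 : ∀ s ∈ range M ×ˢ range M, #(H s) ≤ #T := by
    intro s hs
    obtain ⟨s1, s2⟩ := mem_product.1 hs
    refine card_le_card_of_injOn
      (fun p => (p.1 + s.1 * p.2, ((s.2 : ZMod N) - s.1) * p.2))
      (fun p hp => (mem_filter.1 (mem_coe.1 hp)).2.2) fun p hp q _ hpq => ?_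
    have hne : (s.2 : ZMod N) - s.1 ≠ 0 := by
      intro h
      have h' := (ZMod.natCast_eq_natCast_iff' _ _ _).1 (sub_eq_zero.1 h)
      rw [Nat.mod_eq_of_lt ((mem_range.1 s2).trans_le hM),
        Nat.mod_eq_of_lt ((mem_range.1 s1).trans_le hM)] at h'
      exact (mem_filter.1 (mem_coe.1 hp)).2.1 h'.symm
    obtain ⟨e1, e2⟩ := Prod.mk.inj hpq
    have e3 := mul_left_cancel₀ hne e2
    rw [e3] at e1
    exact Prod.ext (add_right_cancel e1) e3
  have h6 := (card_le_card h4).trans (card_biUnion_le_card_mul _ _ _ h5)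
  rw [card_product, card_range] at h6
  refine h3.trans ?_
  rw [sq]
  exact_mod_cast h6

end VarnAux

/-- Roth's theorem in the form of Varnavides -/
theorem varnavides (δ : ℝ) (hδ : 0 < δ) : ∃ c : ℝ, 0 < c ∧ ∃ N₀ : ℕ, ∀ (N : ℕ) [NeZero N],
    N.Prime → N₀ ≤ N → ∀ g : ZMod N → ℝ, (∀ x, 0 ≤ g x) → (∀ x, g x ≤ 2) → δ * N ≤ ∑ x, g x →
      c ≤ lam3 N g := by
  classical
  have hM : (0 : ℝ) < cornersTheoremBound (δ / 8 / 3) := by exact_mod_cast Nat.succ_pos _
  refine ⟨(δ / 2) ^ 3 * (δ / 8 / (cornersTheoremBound (δ / 8 / 3) : ℝ) ^ 2), by positivity,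
    cornersTheoremBound (δ / 8 / 3), fun N _ hN hN0 g h0 h2 hs => ?_⟩
  have hN1 : (0 : ℝ) < N := by exact_mod_cast hN.pos
  have h1 := VarnAux.card_level g (δ / 2) 2 (by positivity) h2
  rw [ZMod.card] at h1
  have h3 := VarnAux.count (δ / 8) (by positivity) N hN hN0 (univ.filter fun x => δ / 2 ≤ g x)
    (by linarith)
  generalize (cornersTheoremBound (δ / 8 / 3) : ℝ) = M at *
  set T := univ.filter fun p : ZMod N × ZMod N => p.1 ∈ (univ.filter fun x => δ / 2 ≤ g x) ∧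
    p.1 + p.2 ∈ (univ.filter fun x => δ / 2 ≤ g x) ∧
    p.1 + 2 * p.2 ∈ (univ.filter fun x => δ / 2 ≤ g x) with hT
  have h4 : (δ / 2) ^ 3 * #T ≤ ∑ x : ZMod N, ∑ d : ZMod N, g x * g (x + d) * g (x + 2 * d) := by
    rw [← Fintype.sum_prod_type' (fun x d : ZMod N => g x * g (x + d) * g (x + 2 * d))]
    calc (δ / 2) ^ 3 * #T = ∑ _p ∈ T, δ / 2 * (δ / 2) * (δ / 2) := by
          rw [sum_const, nsmul_eq_mul]
          ring
      _ ≤ ∑ p ∈ T, g p.1 * g (p.1 + p.2) * g (p.1 + 2 * p.2) := by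
          refine sum_le_sum fun p hp => ?_
          obtain ⟨-, a1, a2, a3⟩ := mem_filter.1 hp
          have b1 := (mem_filter.1 a1).2
          have b2 := (mem_filter.1 a2).2
          have b3 := (mem_filter.1 a3).2
          have := h0 p.1
          have := h0 (p.1 + p.2)
          gcongr
      _ ≤ _ := sum_le_sum_of_subset_of_nonneg (subset_univ _) fun p _ _ =>
          mul_nonneg (mul_nonneg (h0 _) (h0 _)) (h0 _)
  rw [lam3, le_div_iff₀ (by positivity)]
  refine le_trans ?_ h4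
  rw [mul_assoc]
  gcongr
  rw [div_mul_eq_mul_div, div_le_iff₀ (by positivity)]
  linarith

end Pool.Agent.Lib.MP_4b8564_nt.Sg
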