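import Pool.Agent.Lib.MP_4b8564_nt.Sg.Fourier
import Pool.Agent.Lib.MP_4b8564_nt.Sg.Level
import Pool.Agent.Lib.MP_4b8564_nt.Sg.Bohr
import Pool.Agent.Lib.MP_4b8564_nt.Sg.Dyadic
import Pool.Agent.Lib.MP_4b8564_nt.Sg.Varn

open Finset

noncomputable section

namespace Pool.Agent.Lib.MP_4b8564_nt.Sg

namespace TransferAux

theorem young1 {a b t : ℝ} (ha : 0 ≤ a) (hb : 0 ≤ b) (ht : 0 < t) :
    a ^ 2 * b ≤ t * a ^ 3 + b ^ 3 / t ^ 2 := by
  have h1 : 0 ≤ t * a ^ 3 := by positivity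
  have h2 : 0 ≤ b ^ 3 / t ^ 2 := by positivity
  rcases le_total b (t * a) with h | h
  · have : a ^ 2 * b ≤ a ^ 2 * (t * a) := by gcongr
    nlinarith
  · have h3 : a ^ 2 * b ≤ b ^ 3 / t ^ 2 := by
      rw [le_div_iff₀ (by positivity)]
      calc a ^ 2 * b * t ^ 2 = (t * a) ^ 2 * b := by ring
        _ ≤ b ^ 2 * b := by gcongr
        _ = b ^ 3 := by ring
    linarith

/-- the pointwise bound for one frequency -/
theorem point {a b m n t κ θ : ℝ} (ha : 0 ≤ a) (hb : 0 ≤ b) (ht : 0 < t) (ht1 : t ≤ 1)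
    (hκ : 0 ≤ κ) (hm0 : 0 ≤ m) (hm1 : m ≤ 1) (hn0 : 0 ≤ n) (hn1 : n ≤ 1)
    (hm : θ ≤ a → 1 - κ ≤ m) (hn : θ ≤ b → 1 - κ ≤ n) :
    a ^ 2 * b * |1 - m ^ 2 * n| ≤ (3 * κ + t) * (a ^ 3 + b ^ 3) +
      ((if a < θ then a ^ 3 else 0) + (if b < θ then b ^ 3 else 0)) / t ^ 2 := by
  have hm2 : m ^ 2 ≤ 1 := pow_le_one₀ hm0 hm1
  have hmn0 : 0 ≤ m ^ 2 * n := by positivity
  have hmn1 : m ^ 2 * n ≤ 1 := mul_le_one₀ hm2 hn0 hn1
  rw [abs_of_nonneg (by linarith)]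
  have hab : 0 ≤ a ^ 2 * b := by positivity
  have ha3 : 0 ≤ a ^ 3 := by positivity
  have hb3 : 0 ≤ b ^ 3 := by positivity
  have hw : a ^ 2 * b * (1 - m ^ 2 * n) ≤ a ^ 2 * b := by nlinarith
  have hia : 0 ≤ (if a < θ then a ^ 3 else 0) / t ^ 2 := by split_ifs <;> positivity
  have hib : 0 ≤ (if b < θ then b ^ 3 else 0) / t ^ 2 := by split_ifs <;> positivity
  have e1 : 0 ≤ κ * a ^ 3 := by positivity
  have e2 : 0 ≤ κ * b ^ 3 := by positivity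
  have e3 : 0 ≤ t * a ^ 3 := by positivity
  have e4 : 0 ≤ t * b ^ 3 := by positivity
  rw [add_div]
  by_cases h1 : b < θ
  · rw [if_pos h1]
    have := young1 ha hb ht
    nlinarith
  by_cases h2 : a < θ
  · rw [if_pos h2]
    have h3 := young1 ha hb (inv_pos.2 ht)
    have h4 : t⁻¹ * a ^ 3 ≤ a ^ 3 / t ^ 2 := by
      rw [le_div_iff₀ (by positivity)]
      calc t⁻¹ * a ^ 3 * t ^ 2 = t * a ^ 3 := by field_simp
        _ ≤ 1 * a ^ 3 := by gcongr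
        _ = a ^ 3 := one_mul _
    have h5 : b ^ 3 / t⁻¹ ^ 2 ≤ t * b ^ 3 := by
      calc b ^ 3 / t⁻¹ ^ 2 = t * (t * b ^ 3) := by field_simp
        _ ≤ 1 * (t * b ^ 3) := by gcongr
        _ = t * b ^ 3 := one_mul _
    nlinarith
  have h3 := hm (not_lt.1 h2)
  have h4 := hn (not_lt.1 h1)
  have h5 : 1 - m ^ 2 * n ≤ 3 * κ := by nlinarith [mul_nonneg (sub_nonneg.2 hn1) (sub_nonneg.2 hm2)]
  have h6 := young1 ha hb one_pos
  have h7 : a ^ 2 * b * (1 - m ^ 2 * n) ≤ (a ^ 3 + b ^ 3) * (3 * κ) := by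
    refine mul_le_mul (by simpa using h6) h5 (by linarith) (by linarith)
  nlinarith

variable {N : ℕ} [NeZero N]

theorem sum_le_of_ft (ν : ZMod N → ℝ) (h : ‖ft N (fun x => ν x - 1) 0‖ ≤ 1) :
    ∑ x, ν x ≤ 2 * N := by
  have hN : (0 : ℝ) < N := by exact_mod_cast Nat.pos_of_ne_zero (NeZero.ne N)
  have h1 : ft N (fun x => ν x - 1) 0 = (((∑ x, ν x - N) / N : ℝ) : ℂ) := by
    simp [ft, Finset.sum_sub_distrib, ZMod.card]
  rw [h1, Complex.norm_real, Real.norm_eq_abs, abs_le, div_le_one hN] at h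
  linarith [h.2]

omit [NeZero N] in
theorem sm_sub_one (B : Finset (ZMod N)) (hB : B.Nonempty) (ν : ZMod N → ℝ) (x : ZMod N) :
    sm B (fun y => ν y - 1) x = sm B ν x - 1 := by
  have hc : (B.card : ℝ) ≠ 0 := by exact_mod_cast hB.card_pos.ne'
  simp only [sm, Finset.sum_sub_distrib, Finset.sum_const, nsmul_eq_mul, mul_one]
  field_simp

theorem card_level (f ν : ZMod N → ℝ) (hf : ∀ x, 0 ≤ f x) (hfν : ∀ x, f x ≤ ν x)
    (hν : ∑ x, ν x ≤ 2 * N) (hS : Split N ν) (j : ℕ) :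
    ((univ.filter fun r : ZMod N => (1 / 2 : ℝ) ^ j ≤ ‖ft N f r‖).card : ℝ) ≤ 16 * 7 ^ j := by
  obtain ⟨ν', h1, h2⟩ := hS j
  have e1 : ((1 / 2 : ℝ) ^ j) ^ 2 = (1 / 4 : ℝ) ^ j := by
    rw [← pow_mul, mul_comm, pow_mul]; norm_num
  have e2 : (4 * (7 / 4 : ℝ) ^ j) ^ 3 * (1 / 4 : ℝ) ^ j / 8 = 8 * (343 / 256 : ℝ) ^ j := by
    rw [mul_pow, ← pow_mul, mul_comm j 3, pow_mul, mul_assoc, ← mul_pow]; norm_num; ring
  have e3 : 4 * (4 * (7 / 4 : ℝ) ^ j) / (1 / 4 : ℝ) ^ j = 16 * 7 ^ j := by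
    rw [← mul_assoc, mul_div_assoc, ← div_pow]; norm_num
  have h3 := level f ν ν' hf hfν hν ((1 / 2 : ℝ) ^ j) (4 * (7 / 4 : ℝ) ^ j) (by positivity)
    (by positivity) (by rw [e1]; exact h1) (by
      rw [e1, e2]
      refine h2.trans (mul_le_mul_of_nonneg_right ?_ (Nat.cast_nonneg N))
      exact mul_le_mul (by norm_num) (pow_le_pow_left₀ (by norm_num) (by norm_num) j)
        (by positivity) (by norm_num))
  rwa [e1, e3] at h3

end TransferAux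

open TransferAux in
theorem transfer (δ : ℝ) (hδ : 0 < δ) : ∃ η : ℝ, 0 < η ∧ η ≤ 1 ∧ ∃ c : ℝ, 0 < c ∧ ∃ N₀ : ℕ,
    ∀ (N : ℕ) [NeZero N], N.Prime → N₀ ≤ N → ∀ f ν : ZMod N → ℝ, (∀ x, 0 ≤ f x) →
      (∀ x, f x ≤ ν x) → δ * N ≤ ∑ x, f x → (∀ r, ‖ft N (fun x => ν x - 1) r‖ ≤ η) →
      Split N ν → c ≤ lam3 N f := by
  obtain ⟨c, hc, N₀, hV⟩ := varnavides δ hδ
  obtain ⟨t, ht, ht1, htc⟩ : ∃ t : ℝ, 0 < t ∧ t ≤ 1 ∧ t * 2048 ≤ c / 6 :=
    ⟨min 1 (c / 12288), by positivity, min_le_left _ _, by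
      have := min_le_right 1 (c / 12288); linarith⟩
  obtain ⟨j, hj⟩ := exists_pow_lt_of_lt_one (x := c * t ^ 2 / 10752) (y := (7 / 8 : ℝ))
    (by positivity) (by norm_num)
  obtain ⟨K, hK⟩ := exists_nat_gt (max 1 (258048 / c))
  have hK1 : (1 : ℝ) ≤ K := ((le_max_left _ _).trans_lt hK).le
  have hK2 : 3 * (7 / (K : ℝ)) * 2048 ≤ c / 6 := by
    have h1 := (le_max_right _ _).trans_lt hK
    rw [div_lt_iff₀ hc] at h1
    rw [show 3 * (7 / (K : ℝ)) * 2048 = 43008 / K by ring, div_le_iff₀ (by linarith)]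
    nlinarith
  have hKp : (1 : ℝ) ≤ (K : ℝ) ^ (16 * 7 ^ j) := one_le_pow₀ hK1
  refine ⟨((K : ℝ) ^ (16 * 7 ^ j))⁻¹, by positivity, inv_le_one_of_one_le₀ hKp, c / 2,
    by positivity, max N₀ 3, ?_⟩
  intro N _ hN hN0 f ν hf hfν hδf hη hS
  have hNr : (0 : ℝ) < N := by exact_mod_cast hN.pos
  have hν : ∑ x, ν x ≤ 2 * N := sum_le_of_ft ν ((hη 0).trans (inv_le_one_of_one_le₀ hKp))
  set a : ZMod N → ℝ := fun r => ‖ft N f r‖ with ha
  have ha0 : ∀ r, 0 ≤ a r := fun r => norm_nonneg _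
  have ha2 : ∀ r, a r ≤ 2 := fun r => by
    refine (norm_ft_le f hf r).trans ?_
    rw [div_le_iff₀ hNr]
    exact (Finset.sum_le_sum fun x _ => hfν x).trans hν
  have hlev := card_level f ν hf hfν hν hS
  have htail := dyadic a ha0 16 hlev
  have htot : ∑ r, a r ^ 3 ≤ 1024 := by
    rw [← Finset.sum_filter_add_sum_filter_not univ (fun r => a r < (1 / 2 : ℝ) ^ 0)]
    have h1 := htail 0
    have h2 : ∑ r ∈ univ.filter (fun r => ¬ a r < (1 / 2 : ℝ) ^ 0), a r ^ 3 ≤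
        ((univ.filter fun r => (1 / 2 : ℝ) ^ 0 ≤ a r).card : ℝ) * 8 := by
      simp only [not_lt]
      rw [← nsmul_eq_mul]
      refine Finset.sum_le_card_nsmul _ _ _ fun r _ => ?_
      calc a r ^ 3 ≤ 2 ^ 3 := pow_le_pow_left₀ (ha0 r) (ha2 r) 3
        _ = 8 := by norm_num
    have h3 := hlev 0
    simp only [pow_zero] at h1 h2 h3 ⊢
    linarith
  obtain ⟨B, hB, hBc, hBm⟩ := bohr (univ.filter fun r : ZMod N => (1 / 2 : ℝ) ^ j ≤ a r) K
    (by exact_mod_cast hK1)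
  have hBc' : (N : ℝ) / B.card ≤ (K : ℝ) ^ (16 * 7 ^ j) :=
    hBc.trans (pow_le_pow_right₀ hK1 (by exact_mod_cast hlev j))
  have hg0 : ∀ x, 0 ≤ sm B f x := fun x =>
    div_nonneg (Finset.sum_nonneg fun _ _ => Finset.sum_nonneg fun _ _ => hf _) (by positivity)
  have hg2 : ∀ x, sm B f x ≤ 2 := fun x => by
    have h1 : sm B f x ≤ sm B ν x := by
      unfold sm
      gcongr with u _ v _
      exact hfν _
    have h2 := abs_sm_le B hB _ _ hη x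
    rw [sm_sub_one B hB] at h2
    have h3 : ((K : ℝ) ^ (16 * 7 ^ j))⁻¹ * ((N : ℝ) / B.card) ≤ 1 := by
      rw [inv_mul_le_iff₀ (by positivity), mul_one]; exact hBc'
    linarith [(abs_le.1 h2).2]
  have hg := hV N hN ((le_max_left _ _).trans hN0) (sm B f) hg0 hg2 (by rwa [sum_sm B hB])
  have hbij : ∀ F : ZMod N → ℝ, ∑ r, F (-2 * r) = ∑ r, F r := fun F => by
    have h2 : IsUnit (-2 : ZMod N) := by
      refine IsUnit.neg ?_
      have h3 : Nat.Coprime 2 N := (Nat.coprime_primes Nat.prime_two hN).2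
        (by have := (le_max_right _ _).trans hN0; omega)
      exact_mod_cast (ZMod.isUnit_iff_coprime 2 N).2 h3
    exact Equiv.sum_comp h2.unit.mulLeft F
  have hdiff : (((lam3 N f - lam3 N (sm B f) : ℝ)) : ℂ) = ∑ r : ZMod N,
      ft N f r ^ 2 * ft N f (-2 * r) * ((1 - mu B r ^ 2 * mu B (-2 * r) : ℝ) : ℂ) := by
    rw [Complex.ofReal_sub, lam3_eq, lam3_eq, ← Finset.sum_sub_distrib]
    refine Finset.sum_congr rfl fun r _ => ?_
    rw [ft_sm, ft_sm]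
    push_cast
    ring
  have hbound : |lam3 N f - lam3 N (sm B f)| ≤ ∑ r : ZMod N,
      ((3 * (7 / (K : ℝ)) + t) * (a r ^ 3 + a (-2 * r) ^ 3) +
        ((if a r < (1 / 2 : ℝ) ^ j then a r ^ 3 else 0) +
          (if a (-2 * r) < (1 / 2 : ℝ) ^ j then a (-2 * r) ^ 3 else 0)) / t ^ 2) := by
    rw [← Real.norm_eq_abs, ← Complex.norm_real, hdiff]
    refine (norm_sum_le _ _).trans (Finset.sum_le_sum fun r _ => ?_)
    rw [norm_mul, norm_mul, norm_pow, Complex.norm_real, Real.norm_eq_abs]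
    exact point (ha0 r) (ha0 _) ht ht1 (by positivity) (mu_nonneg B r) (mu_le_one B r)
      (mu_nonneg B _) (mu_le_one B _) (fun h => hBm _ (by simpa using h))
      (fun h => hBm _ (by simpa using h))
  rw [Finset.sum_add_distrib, ← Finset.mul_sum, ← Finset.sum_div, Finset.sum_add_distrib,
    Finset.sum_add_distrib, hbij (fun r => a r ^ 3),
    hbij (fun r => if a r < (1 / 2 : ℝ) ^ j then a r ^ 3 else 0), ← Finset.sum_filter] at hbound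
  have h1 := htail j
  have h2 : (∑ r ∈ univ.filter (fun r => a r < (1 / 2 : ℝ) ^ j), a r ^ 3 +
      ∑ r ∈ univ.filter (fun r => a r < (1 / 2 : ℝ) ^ j), a r ^ 3) / t ^ 2 ≤ c / 6 := by
    rw [div_le_iff₀ (by positivity)]
    linarith
  have h3 : (3 * (7 / (K : ℝ)) + t) * (∑ r, a r ^ 3 + ∑ r, a r ^ 3) ≤
      (3 * (7 / (K : ℝ)) + t) * 2048 := by
    gcongr
    linarith
  linarith [(abs_le.1 hbound).1]


end Pool.Agent.Lib.MP_4b8564_nt.Sg
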